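import Mathlib

/-!
# Field topologies from bases of neighbourhoods of zero; suprema of field topologies;
path-connectedness and connectedness criteria.
-/

set_option autoImplicit false

open Topology Filter Set

namespace Pool.Agent.TopF

/-- A base of neighbourhoods of zero of a field topology. -/
structure FieldBase (K : Type*) [Field K] where
  B : Set (Set K)
  ne : B.Nonempty
  inter : ∀ U ∈ B, ∀ V ∈ B, ∃ W ∈ B, W ⊆ U ∩ V
  zero : ∀ U ∈ B, (0 : K) ∈ U
  add : ∀ U ∈ B, ∃ V ∈ B, ∀ a ∈ V, ∀ b ∈ V, a + b ∈ U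
  neg : ∀ U ∈ B, ∃ V ∈ B, ∀ a ∈ V, -a ∈ U
  mul : ∀ U ∈ B, ∃ V ∈ B, ∀ a ∈ V, ∀ b ∈ V, a * b ∈ U
  smul : ∀ (x : K), ∀ U ∈ B, ∃ V ∈ B, ∀ a ∈ V, x * a ∈ U
  inv : ∀ U ∈ B, ∃ V ∈ B, ∀ a ∈ V, 1 + a ≠ 0 → (1 + a)⁻¹ - 1 ∈ U

namespace FieldBase

variable {K : Type*} [Field K] (β : FieldBase K)

/-- the associated ring filter basis -/
@[instance_reducible]
def rfb : RingFilterBasis K where
  sets := β.B
  nonempty := β.ne
  inter_sets := fun {x y} hx hy => β.inter x hx y hy
  zero' := fun {U} hU => β.zero U hU
  add' := fun {U} hU => by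
    obtain ⟨V, hV, h⟩ := β.add U hU
    refine ⟨V, hV, ?_⟩
    rintro _ ⟨a, ha, b, hb, rfl⟩
    exact h a ha b hb
  neg' := fun {U} hU => by
    obtain ⟨V, hV, h⟩ := β.neg U hU
    exact ⟨V, hV, fun a ha => h a ha⟩
  conj' := fun x₀ {U} hU => ⟨U, hU, fun a ha => by
    simp only [Set.mem_preimage]
    rwa [add_comm x₀ a, add_neg_cancel_right]⟩
  mul' := fun {U} hU => by
    obtain ⟨V, hV, h⟩ := β.mul U hU
    refine ⟨V, hV, ?_⟩
    rintro _ ⟨a, ha, b, hb, rfl⟩
    exact h a ha b hb
  mul_left' := fun x₀ {U} hU => by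
    obtain ⟨V, hV, h⟩ := β.smul x₀ U hU
    exact ⟨V, hV, fun a ha => h a ha⟩
  mul_right' := fun x₀ {U} hU => by
    obtain ⟨V, hV, h⟩ := β.smul x₀ U hU
    exact ⟨V, hV, fun a ha => by
      simp only [Set.mem_preimage]
      rw [mul_comm]
      exact h a ha⟩

/-- the topology with the given base -/
@[instance_reducible]
def top : TopologicalSpace K := β.rfb.topology

theorem nhds_zero : (@nhds K β.top 0).HasBasis (fun U => U ∈ β.B) id :=
  AddGroupFilterBasis.nhds_zero_hasBasis β.rfb.toAddGroupFilterBasis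

theorem isTopologicalRing : @IsTopologicalRing K β.top _ :=
  RingFilterBasis.isTopologicalRing β.rfb

end FieldBase

/-- inversion is continuous at all nonzero elements as soon as it is continuous at `1` -/
theorem continuousInv₀_of_one {K : Type*} [Field K] [TopologicalSpace K] [IsTopologicalRing K]
    (h : Tendsto (fun x : K => x⁻¹) (𝓝 1) (𝓝 1)) : ContinuousInv₀ K := by
  refine ⟨fun a ha => ?_⟩
  have h1 : Tendsto (fun x : K => x * a⁻¹) (𝓝 a) (𝓝 1) := by
    have : Tendsto (fun x : K => x * a⁻¹) (𝓝 a) (𝓝 (a * a⁻¹)) :=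
      (continuous_mul_const a⁻¹).tendsto a
    rwa [mul_inv_cancel₀ ha] at this
  have h2 : Tendsto (fun x : K => a⁻¹ * (x * a⁻¹)⁻¹) (𝓝 a) (𝓝 (a⁻¹ * 1)) :=
    (h.comp h1).const_mul a⁻¹
  have h3 : (fun x : K => a⁻¹ * (x * a⁻¹)⁻¹) = fun x : K => x⁻¹ := by
    funext x
    rw [mul_inv, inv_inv, mul_comm x⁻¹ a, ← mul_assoc, inv_mul_cancel₀ ha, one_mul]
  rw [h3, mul_one] at h2
  exact h2

namespace FieldBase

variable {K : Type*} [Field K] (β : FieldBase K)

theorem isTopologicalDivisionRing : @IsTopologicalDivisionRing K _ β.top := by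
  letI := β.top
  haveI := β.isTopologicalRing
  have hinv : ContinuousInv₀ K := by
    apply continuousInv₀_of_one
    have hb := β.nhds_zero
    have h0 : Tendsto (fun a : K => (1 + a)⁻¹ - 1) (𝓝 0) (𝓝 0) := by
      rw [hb.tendsto_iff hb]
      intro U hU
      obtain ⟨V, hV, h⟩ := β.inv U hU
      obtain ⟨W, hW, hWs⟩ := β.inter U hU V hV
      refine ⟨W, hW, fun a ha => ?_⟩
      by_cases h1 : (1 : K) + a = 0
      · have : a = -1 := by linear_combination h1
        simp only [id_eq]
        rw [h1, inv_zero, zero_sub, ← this]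
        exact (hWs ha).1
      · exact h a (hWs ha).2 h1
    have h1 : Tendsto (fun x : K => x - 1) (𝓝 1) (𝓝 0) := by
      have : Tendsto (fun x : K => x - 1) (𝓝 1) (𝓝 (1 - 1)) :=
        (continuous_sub_right (1 : K)).tendsto 1
      rwa [sub_self] at this
    have h2 := (h0.comp h1).add_const 1
    simp only [Function.comp_def] at h2
    simpa using h2
  exact { toContinuousInv₀ := hinv }

end FieldBase

/-- suprema (infima in Mathlib's order) of field topologies are field topologies -/
theorem isTopologicalDivisionRing_iInf {K ι : Type*} [Field K] (t : ι → TopologicalSpace K)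
    (h : ∀ i, @IsTopologicalDivisionRing K _ (t i)) :
    @IsTopologicalDivisionRing K _ (⨅ i, t i) := by
  have h1 : @ContinuousMul K (⨅ i, t i) _ :=
    continuousMul_iInf (fun i => (h i).toIsTopologicalRing.toIsTopologicalSemiring.toContinuousMul)
  have h2 : @IsTopologicalAddGroup K (⨅ i, t i) _ :=
    topologicalAddGroup_iInf (fun i =>
      @IsTopologicalRing.to_topologicalAddGroup K _ (t i) (h i).toIsTopologicalRing)
  letI : TopologicalSpace K := ⨅ i, t i
  haveI : IsTopologicalRing K := { toIsTopologicalSemiring := { toContinuousMul := h1,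
                                                                toContinuousAdd := h2.toContinuousAdd },
                                   toContinuousNeg := h2.toContinuousNeg }
  have h3 : ContinuousInv₀ K := by
    refine ⟨fun a ha => ?_⟩
    rw [ContinuousAt, nhds_iInf (t := t) (a := a⁻¹)]
    refine tendsto_iInf.2 (fun i => ?_)
    have := @ContinuousInv₀.continuousAt_inv₀ K _ _ (t i) (h i).toContinuousInv₀ a ha
    refine Tendsto.mono_left this ?_
    rw [nhds_iInf]
    exact iInf_le _ i
  exact { toContinuousInv₀ := h3 }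

/-- A topological field with a nonconstant path is path connected. -/
theorem pathConnected_of_path {K : Type*} [Field K] [TopologicalSpace K]
    [IsTopologicalRing K] (γ : unitInterval → K) (hγ : Continuous γ) (h01 : γ 0 ≠ γ 1) :
    PathConnectedSpace K := by
  have key : ∀ y : K, Joined (0 : K) y := by
    intro y
    refine ⟨⟨⟨fun t => y * (γ 1 - γ 0)⁻¹ * (γ t - γ 0), ?_⟩, ?_, ?_⟩⟩
    · exact continuous_const.mul (hγ.sub continuous_const)
    · simp
    · have : γ 1 - γ 0 ≠ 0 := sub_ne_zero.2 (Ne.symm h01)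
      simp only [mul_assoc, inv_mul_cancel₀ this, mul_one]
  exact ⟨⟨0⟩, fun x y => (key x).symm.trans (key y)⟩

/-- If every clopen set containing `0` contains `1` then the topological field is connected. -/
theorem connected_of_clopen {K : Type*} [Field K] [TopologicalSpace K]
    [IsTopologicalRing K] (h : ∀ C : Set K, IsClopen C → (0 : K) ∈ C → (1 : K) ∈ C) :
    ConnectedSpace K := by
  have key : ∀ (C : Set K) (x y : K), IsClopen C → x ∈ C → y ∈ C := by
    intro C x y hC hx
    by_cases hxy : y = x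
    · rwa [hxy]
    · have hc : Continuous (fun z : K => x + (y - x) * z) := by fun_prop
      have := h ((fun z : K => x + (y - x) * z) ⁻¹' C) (hC.preimage hc) (by simpa using hx)
      simpa using this
  haveI : PreconnectedSpace K := by
    rw [preconnectedSpace_iff_clopen]
    intro C hC
    by_cases hne : C = ∅
    · exact Or.inl hne
    · obtain ⟨x, hx⟩ := Set.nonempty_iff_ne_empty.2 hne
      exact Or.inr (Set.eq_univ_of_forall fun y => key C x y hC hx)
  exact { toNonempty := ⟨0⟩ }

end Pool.Agent.TopF
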