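import Pool.Agent.TopF.Gauss

/-!
# Tree data for valued fields whose value group has countable cofinality
-/

set_option autoImplicit false

open Topology Filter Set

namespace Pool.Agent.TopF

/-- separation of labels, finitely many points -/
theorem exists_separation (T : Finset unitInterval) : ∃ m : ℕ, ∀ n ≥ m, ∀ ω ∈ Icc (0 : ℝ) 1,
    ∀ s ∈ T, ∀ t ∈ T, ⌊2 ^ n * (ω + (s : ℝ))⌋₊ = ⌊2 ^ n * (ω + (t : ℝ))⌋₊ → s = t := by
  classical
  have h1 : ∀ i j : unitInterval, ∃ m : ℕ, i ≠ j → 1 ≤ 2 ^ m * |(i : ℝ) - j| := by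
    intro i j
    by_cases hij : i = j
    · exact ⟨0, fun h => absurd hij h⟩
    · have hpos : 0 < |(i : ℝ) - j| := by
        rw [abs_pos, sub_ne_zero]
        intro h
        exact hij (Subtype.ext h)
      obtain ⟨m, hm⟩ := pow_unbounded_of_one_lt (1 / |(i : ℝ) - j|) (one_lt_two)
      refine ⟨m, fun _ => ?_⟩
      rw [div_lt_iff₀ hpos] at hm
      exact hm.le
  choose m hm using h1
  refine ⟨∑ i ∈ T, ∑ j ∈ T, m i j, fun n hn ω hω i hi j hj hij => ?_⟩
  by_contra hne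
  have h2 := hm i j hne
  have h3 : m i j ≤ n := by
    refine le_trans ?_ hn
    refine le_trans ?_ (Finset.single_le_sum (f := fun i => ∑ j ∈ T, m i j)
      (fun _ _ => Nat.zero_le _) hi)
    exact Finset.single_le_sum (f := fun j => m i j) (fun _ _ => Nat.zero_le _) hj
  have h4 : (1 : ℝ) ≤ 2 ^ n * |(i : ℝ) - j| :=
    h2.trans (mul_le_mul_of_nonneg_right (pow_le_pow_right₀ one_le_two h3) (abs_nonneg _))
  have hfi := i.2
  have hfj := j.2
  have a1 := Nat.floor_le (show (0 : ℝ) ≤ 2 ^ n * (ω + (i : ℝ)) from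
    mul_nonneg (by positivity) (by linarith [hω.1, hfi.1]))
  have a2 := Nat.lt_floor_add_one (2 ^ n * (ω + (i : ℝ)))
  have a3 := Nat.floor_le (show (0 : ℝ) ≤ 2 ^ n * (ω + (j : ℝ)) from
    mul_nonneg (by positivity) (by linarith [hω.1, hfj.1]))
  have a4 := Nat.lt_floor_add_one (2 ^ n * (ω + (j : ℝ)))
  rw [hij] at a1 a2
  have h5 : |2 ^ n * (ω + (i : ℝ)) - 2 ^ n * (ω + (j : ℝ))| < 1 := by
    rw [abs_sub_lt_iff]
    constructor <;> linarith
  have h6 : |2 ^ n * (ω + (i : ℝ)) - 2 ^ n * (ω + (j : ℝ))|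
      = 2 ^ n * |(i : ℝ) - j| := by
    rw [show (2 : ℝ) ^ n * (ω + (i : ℝ)) - 2 ^ n * (ω + (j : ℝ))
      = 2 ^ n * ((i : ℝ) - j) by ring, abs_mul, abs_of_pos (by positivity)]
  linarith

theorem TreeData.comp {F F' E : Type*} [Field F] [Field F'] [Field E] [TopologicalSpace E]
    {φ : F' →+* E} {y : ℕ → ℕ → E} (td : TreeData φ y) (ψ : F →+* F') :
    TreeData (φ.comp ψ) y := by
  have h : ∀ (x : ℕ × ℝ) (P : MvPolynomial unitInterval F),
      pev (φ.comp ψ) y x P = pev φ y x (MvPolynomial.map ψ P) := by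
    intro x P
    simp only [pev, MvPolynomial.coe_eval₂Hom, MvPolynomial.eval₂_map]
  have hne : ∀ P : MvPolynomial unitInterval F, P ≠ 0 → MvPolynomial.map ψ P ≠ 0 := by
    intro P hP h0
    apply hP
    apply MvPolynomial.map_injective ψ ψ.injective
    rw [h0, map_zero]
  refine ⟨?_, ?_, ?_, td.unif⟩
  · intro P hP
    simp only [h]
    exact td.ne _ (hne P hP)
  · intro P hP
    simp only [h]
    exact td.cauchy _ (hne P hP)
  · intro P hP
    simp only [h]
    exact td.cauchy_inv _ (hne P hP)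

section

variable {F Γ₀ : Type*} [Field F] [LinearOrderedCommGroupWithZero Γ₀] (v : Valuation F Γ₀)

/-- the field generated by generic elements indexed by the nodes -/
abbrev GE (F : Type*) [Field F] : Type _ := FractionRing (MvPolynomial (ℕ × ℕ) F)

/-- inclusion of the coefficients -/
noncomputable def gphi (F : Type*) [Field F] : F →+* GE F :=
  (algebraMap (MvPolynomial (ℕ × ℕ) F) (GE F)).comp MvPolynomial.C

/-- the tree-indexed elements -/
noncomputable def gy (c : ℕ → F) (n j : ℕ) : GE F :=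
  algebraMap (MvPolynomial (ℕ × ℕ) F) (GE F) (MvPolynomial.C (c n) * MvPolynomial.X (n, j))

theorem w_gphi (a : F) : gaussFrac v (gphi F a) = v a := by
  rw [gphi, RingHom.comp_apply, gaussFrac_alg, gv_C]

theorem w_gy (c : ℕ → F) (n j : ℕ) : gaussFrac v (gy c n j) = v (c n) := by
  rw [gy, gaussFrac_alg, gv_mul, gv_C, gv_X, mul_one]

/-- partial sums in the polynomial ring -/
noncomputable def gs (c : ℕ → F) (N : ℕ) (b : ℝ) : MvPolynomial (ℕ × ℕ) F :=
  ∑ n ∈ Finset.range N, MvPolynomial.C (c n) * MvPolynomial.X (n, ⌊2 ^ n * b⌋₊)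

theorem S_gy (c : ℕ → F) (N : ℕ) (b : ℝ) :
    S (gy c) N b = algebraMap (MvPolynomial (ℕ × ℕ) F) (GE F) (gs c N b) := by
  simp only [S, gy, gs, map_sum]

theorem pev_gy (c : ℕ → F) (N : ℕ) (ω : ℝ) (P : MvPolynomial unitInterval F) :
    pev (gphi F) (gy c) (N, ω) P = algebraMap (MvPolynomial (ℕ × ℕ) F) (GE F)
      (MvPolynomial.eval₂ MvPolynomial.C (fun t : unitInterval => gs c N (ω + t)) P) := by
  simp only [pev, MvPolynomial.coe_eval₂Hom]
  rw [MvPolynomial.hom_eval₂]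
  simp only [S_gy]
  rfl

/-- substitution of variables by polynomials of Gauss value at most one does not increase
the Gauss value -/
theorem gv_aeval_le {ι κ : Type*} (g : ι → MvPolynomial κ F) (hg : ∀ i, gv v (g i) ≤ 1)
    (p : MvPolynomial ι F) : gv v (MvPolynomial.aeval g p) ≤ gv v p := by
  rw [MvPolynomial.aeval_def, MvPolynomial.eval₂_eq]
  have : gaussVal v (∑ d ∈ p.support, algebraMap F (MvPolynomial κ F) (MvPolynomial.coeff d p)
      * ∏ i ∈ d.support, g i ^ d i) ≤ gv v p := by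
    apply Valuation.map_sum_le
    intro d hd
    rw [map_mul, map_prod]
    have h1 : gaussVal v (algebraMap F (MvPolynomial κ F) (MvPolynomial.coeff d p)) ≤ gv v p := by
      rw [gaussVal_apply, MvPolynomial.algebraMap_eq, gv_C]
      exact le_gv v p d
    have h2 : ∏ i ∈ d.support, gaussVal v (g i ^ d i) ≤ 1 := by
      apply Finset.prod_le_one'
      intro i _
      rw [map_pow]
      exact pow_le_one' (hg i) _
    calc _ ≤ gv v p * 1 := mul_le_mul' h1 h2
      _ = gv v p := mul_one _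
  exact this

theorem lower_bound (c : ℕ → F) (hc : ∀ n, c n ≠ 0) (P : MvPolynomial unitInterval F)
    (hP : P ≠ 0) : ∃ γ : F, γ ≠ 0 ∧ ∃ N₀ : ℕ, ∀ N ≥ N₀, ∀ ω ∈ Icc (0 : ℝ) 1,
      v γ ≤ gaussFrac v (pev (gphi F) (gy c) (N, ω) P) := by
  classical
  obtain ⟨m, hm⟩ := exists_separation P.vars
  let Pc : MvPolynomial unitInterval F := MvPolynomial.eval₂ MvPolynomial.C
    (fun t : unitInterval => MvPolynomial.C (c m) * MvPolynomial.X t) P
  have hPc : Pc ≠ 0 := by
    intro h0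
    apply hP
    have h1 : MvPolynomial.eval₂ MvPolynomial.C
        (fun t : unitInterval => MvPolynomial.C (c m)⁻¹ * MvPolynomial.X t) Pc = P := by
      simp only [Pc]
      have h2 : ∀ q : MvPolynomial unitInterval F, MvPolynomial.eval₂Hom MvPolynomial.C
          (fun t : unitInterval => MvPolynomial.C (σ := unitInterval) (c m)⁻¹ * MvPolynomial.X t)
          (MvPolynomial.eval₂ MvPolynomial.C
          (fun t : unitInterval => MvPolynomial.C (c m) * MvPolynomial.X t) q) = q := by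
        intro q
        rw [MvPolynomial.hom_eval₂]
        have h3 : (MvPolynomial.eval₂Hom MvPolynomial.C
          (fun t : unitInterval => MvPolynomial.C (σ := unitInterval) (c m)⁻¹
            * MvPolynomial.X t)).comp MvPolynomial.C = MvPolynomial.C := by
          ext a
          simp
        have h4 : (fun t : unitInterval => (MvPolynomial.eval₂Hom MvPolynomial.C
          (fun t : unitInterval => MvPolynomial.C (σ := unitInterval) (c m)⁻¹
            * MvPolynomial.X t)) (MvPolynomial.C (c m) * MvPolynomial.X t)) = MvPolynomial.X := by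
          funext t
          rw [map_mul, MvPolynomial.eval₂Hom_C, MvPolynomial.eval₂Hom_X', ← mul_assoc, ← map_mul,
            mul_inv_cancel₀ (hc m), map_one, one_mul]
        rw [h3, h4, MvPolynomial.eval₂_eta]
      exact h2 P
    rw [← h1, h0]
    simp
  obtain ⟨α, hα, hα'⟩ := exists_gv v hPc
  refine ⟨Pc.coeff α, MvPolynomial.mem_support_iff.1 hα, m + 1, fun N hN ω hω => ?_⟩
  rw [hα', pev_gy, gaussFrac_alg]
  -- the specialisation
  let g : ℕ × ℕ → MvPolynomial unitInterval F := fun i =>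
    if h : i.1 = m ∧ ∃ t : unitInterval, t ∈ P.vars ∧ ⌊2 ^ m * (ω + (t : ℝ))⌋₊ = i.2 then
      MvPolynomial.X h.2.choose else 0
  have hg : ∀ i, gv v (g i) ≤ 1 := by
    intro i
    simp only [g]
    split_ifs with h
    · rw [gv_X]
    · rw [gv_zero]
      exact zero_le_one
  have hg1 : ∀ t ∈ P.vars, g (m, ⌊2 ^ m * (ω + (t : ℝ))⌋₊) = MvPolynomial.X t := by
    intro t ht
    have h : (m, ⌊2 ^ m * (ω + (t : ℝ))⌋₊).1 = m ∧ ∃ s : unitInterval, s ∈ P.vars ∧
        ⌊2 ^ m * (ω + (s : ℝ))⌋₊ = (m, ⌊2 ^ m * (ω + (t : ℝ))⌋₊).2 := ⟨rfl, t, ht, rfl⟩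
    have e1 : g (m, ⌊2 ^ m * (ω + (t : ℝ))⌋₊) = MvPolynomial.X h.2.choose := dif_pos h
    rw [e1]
    congr 1
    exact hm m le_rfl ω hω _ h.2.choose_spec.1 t ht h.2.choose_spec.2
  have hg2 : ∀ n j, n ≠ m → g (n, j) = 0 := by
    intro n j hn
    simp only [g]
    rw [dif_neg]
    rintro ⟨h, _⟩
    exact hn h
  have hgs : ∀ t ∈ P.vars, MvPolynomial.aeval g (gs c N (ω + (t : ℝ)))
      = MvPolynomial.C (c m) * MvPolynomial.X t := by
    intro t ht
    simp only [gs, map_sum, map_mul, MvPolynomial.aeval_C, MvPolynomial.aeval_X,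
      MvPolynomial.algebraMap_eq]
    rw [Finset.sum_eq_single m]
    · rw [hg1 t ht]
    · intro n _ hn
      rw [hg2 n _ hn, mul_zero]
    · intro h
      exact absurd (Finset.mem_range.2 (by omega)) h
  have hθ : MvPolynomial.aeval g
      (MvPolynomial.eval₂ MvPolynomial.C (fun t : unitInterval => gs c N (ω + t)) P) = Pc := by
    have h1 := MvPolynomial.hom_eval₂ P (MvPolynomial.C : F →+* MvPolynomial (ℕ × ℕ) F)
      (MvPolynomial.aeval g : MvPolynomial (ℕ × ℕ) F →ₐ[F] MvPolynomial unitInterval F).toRingHom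
      (fun t : unitInterval => gs c N (ω + t))
    have h2 : (MvPolynomial.aeval g : MvPolynomial (ℕ × ℕ) F →ₐ[F]
        MvPolynomial unitInterval F).toRingHom.comp MvPolynomial.C = MvPolynomial.C := by
      ext a
      simp
    rw [h2] at h1
    refine h1.trans ?_
    simp only [Pc]
    apply MvPolynomial.eval₂_congr
    intro i e hi he
    apply hgs
    rw [MvPolynomial.mem_vars_iff_mem_support]
    exact ⟨e, by simpa [MvPolynomial.mem_support_iff] using he, hi⟩
  rw [← hθ]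
  exact gv_aeval_le v g hg _

theorem upper_bound (P : MvPolynomial unitInterval F) : ∃ B : F, B ≠ 0 ∧
    ∀ x x' : unitInterval → GE F, (∀ t, gaussFrac v (x t) ≤ 1) → (∀ t, gaussFrac v (x' t) ≤ 1) →
      gaussFrac v (MvPolynomial.eval₂ (gphi F) x P) ≤ v B ∧
      ∀ d : Γ₀, (∀ t, gaussFrac v (x t - x' t) ≤ d) →
        gaussFrac v (MvPolynomial.eval₂ (gphi F) x P - MvPolynomial.eval₂ (gphi F) x' P)
          ≤ v B * d := by
  classical
  induction P using MvPolynomial.induction_on with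
  | C a =>
    refine ⟨if a = 0 then 1 else a, ?_, ?_⟩
    · split_ifs with h
      · exact one_ne_zero
      · exact h
    · intro x x' _ _
      simp only [MvPolynomial.eval₂_C, sub_self, map_zero, w_gphi]
      refine ⟨?_, fun d _ => zero_le⟩
      split_ifs with h
      · rw [h, map_zero]; exact zero_le
      · exact le_rfl
  | add P Q hP hQ =>
    obtain ⟨B₁, hB₁, h1⟩ := hP
    obtain ⟨B₂, hB₂, h2⟩ := hQ
    obtain ⟨B, hB, hB1, hB2⟩ : ∃ B : F, B ≠ 0 ∧ v B₁ ≤ v B ∧ v B₂ ≤ v B := by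
      rcases le_total (v B₁) (v B₂) with h | h
      · exact ⟨B₂, hB₂, h, le_rfl⟩
      · exact ⟨B₁, hB₁, le_rfl, h⟩
    refine ⟨B, hB, fun x x' hx hx' => ⟨?_, fun d hd => ?_⟩⟩
    · rw [MvPolynomial.eval₂_add]
      exact (gaussFrac v).map_add_le ((h1 x x' hx hx').1.trans hB1) ((h2 x x' hx hx').1.trans hB2)
    · rw [MvPolynomial.eval₂_add, MvPolynomial.eval₂_add, add_sub_add_comm]
      exact (gaussFrac v).map_add_le
        (((h1 x x' hx hx').2 d hd).trans (mul_le_mul' hB1 le_rfl))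
        (((h2 x x' hx hx').2 d hd).trans (mul_le_mul' hB2 le_rfl))
  | mul_X P t hP =>
    obtain ⟨B, hB, h1⟩ := hP
    refine ⟨B, hB, fun x x' hx hx' => ⟨?_, fun d hd => ?_⟩⟩
    · rw [MvPolynomial.eval₂_mul, MvPolynomial.eval₂_X, map_mul]
      calc _ ≤ v B * 1 := mul_le_mul' (h1 x x' hx hx').1 (hx t)
        _ = v B := mul_one _
    · rw [MvPolynomial.eval₂_mul, MvPolynomial.eval₂_X, MvPolynomial.eval₂_mul,
        MvPolynomial.eval₂_X]
      have e1 : MvPolynomial.eval₂ (gphi F) x P * x t - MvPolynomial.eval₂ (gphi F) x' P * x' t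
          = MvPolynomial.eval₂ (gphi F) x P * (x t - x' t)
            + (MvPolynomial.eval₂ (gphi F) x P - MvPolynomial.eval₂ (gphi F) x' P) * x' t := by
        ring
      rw [e1]
      apply (gaussFrac v).map_add_le
      · rw [map_mul]
        exact mul_le_mul' (h1 x x' hx hx').1 (hd t)
      · rw [map_mul]
        calc _ ≤ v B * d * 1 := mul_le_mul' ((h1 x x' hx hx').2 d hd) (hx' t)
          _ = v B * d := mul_one _

theorem w_S_le_one (c : ℕ → F) (hc1 : ∀ n, v (c n) ≤ 1) (N : ℕ) (b : ℝ) :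
    gaussFrac v (S (gy c) N b) ≤ 1 := by
  simp only [S]
  apply Valuation.map_sum_le
  intro n _
  rw [w_gy]
  exact hc1 n

theorem w_S_sub_le (c : ℕ → F) (hanti : Antitone (fun n => v (c n))) (N M : ℕ) (hNM : M ≤ N)
    (b : ℝ) : gaussFrac v (S (gy c) N b - S (gy c) M b) ≤ v (c M) := by
  simp only [S]
  rw [← Finset.sum_Ico_eq_sub _ hNM]
  apply Valuation.map_sum_le
  intro n hn
  rw [w_gy]
  exact hanti (Finset.mem_Ico.1 hn).1

theorem valBase_mem (w : Valuation F Γ₀) {W : Set F} :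
    W ∈ @nhds F (valBase w).top 0 ↔ ∃ a : F, a ≠ 0 ∧ {x | w x < w a} ⊆ W := by
  rw [(valBase w).nhds_zero.mem_iff]
  constructor
  · rintro ⟨_, ⟨a, ha, rfl⟩, h⟩
    exact ⟨a, ha, h⟩
  · rintro ⟨a, ha, h⟩
    exact ⟨_, ⟨a, ha, rfl⟩, h⟩

theorem treeData_val (c : ℕ → F) (hc : ∀ n, c n ≠ 0) (hc1 : ∀ n, v (c n) ≤ 1)
    (hanti : Antitone (fun n => v (c n))) (hcof : ∀ a : F, a ≠ 0 → ∃ n, v (c n) < v a) :
    @TreeData F (GE F) _ _ (valBase (gaussFrac (ι := ℕ × ℕ) v)).top (gphi F) (gy c) := by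
  letI : TopologicalSpace (GE F) := (valBase (gaussFrac (ι := ℕ × ℕ) v)).top
  have hW : ∀ W ∈ 𝓝 (0 : GE F), ∃ a : F, a ≠ 0 ∧ ∀ x, gaussFrac v x < v a → x ∈ W := by
    intro W hW
    obtain ⟨a, ha, h⟩ := (valBase_mem (gaussFrac (ι := ℕ × ℕ) v)).1 hW
    obtain ⟨a', ha', h'⟩ := gaussFrac_surj v a ha
    refine ⟨a', ha', fun x hx => h ?_⟩
    simp only [Set.mem_ofPred_eq]
    rwa [h']
  refine ⟨?_, ?_, ?_, ?_⟩
  · intro P hP
    obtain ⟨γ, hγ, N₀, h⟩ := lower_bound v c hc P hP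
    refine ⟨N₀, fun N hN ω hω h0 => ?_⟩
    have := h N hN ω hω
    rw [h0, map_zero, le_zero_iff, Valuation.zero_iff] at this
    exact hγ this
  · intro P hP W hWn
    obtain ⟨a, ha, hWa⟩ := hW W hWn
    obtain ⟨B, hB, hBx⟩ := upper_bound v P
    obtain ⟨M, hM⟩ := hcof (a / B) (div_ne_zero ha hB)
    refine ⟨M, fun N hN ω _ => hWa _ ?_⟩
    have hB' : 0 < v B := zero_lt_iff.2 ((Valuation.ne_zero_iff v).2 hB)
    refine lt_of_le_of_lt (((hBx (fun t => S (gy c) N (ω + t)) (fun t => S (gy c) M (ω + t))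
      (fun t => w_S_le_one v c hc1 N _) (fun t => w_S_le_one v c hc1 M _)).2 (v (c M))
      (fun t => w_S_sub_le v c hanti N M hN _))) ?_
    rw [map_div₀, lt_div_iff₀ hB'] at hM
    rwa [mul_comm]
  · intro P hP W hWn
    obtain ⟨a, ha, hWa⟩ := hW W hWn
    obtain ⟨B, hB, hBx⟩ := upper_bound v P
    obtain ⟨γ, hγ, N₀, hγN⟩ := lower_bound v c hc P hP
    obtain ⟨M₁, hM₁⟩ := hcof (a * γ * γ / B) (div_ne_zero (mul_ne_zero (mul_ne_zero ha hγ) hγ) hB)
    refine ⟨max M₁ N₀, fun N hN ω hω => hWa _ ?_⟩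
    have hB' : 0 < v B := zero_lt_iff.2 ((Valuation.ne_zero_iff v).2 hB)
    have hγ' : 0 < v γ := zero_lt_iff.2 ((Valuation.ne_zero_iff v).2 hγ)
    set A₁ := pev (gphi F) (gy c) (N, ω) P with hA₁
    set A₂ := pev (gphi F) (gy c) (max M₁ N₀, ω) P with hA₂
    have hg1 : v γ ≤ gaussFrac v A₁ := hγN N (le_trans (le_max_right _ _) hN) ω hω
    have hg2 : v γ ≤ gaussFrac v A₂ := hγN _ (le_max_right _ _) ω hω
    have h1ne : A₁ ≠ 0 := by
      intro h0
      rw [h0, map_zero] at hg1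
      exact absurd hg1 (not_le.2 hγ')
    have h2ne : A₂ ≠ 0 := by
      intro h0
      rw [h0, map_zero] at hg2
      exact absurd hg2 (not_le.2 hγ')
    have hdiff : gaussFrac v (A₁ - A₂) ≤ v B * v (c (max M₁ N₀)) :=
      (hBx (fun t => S (gy c) N (ω + t)) (fun t => S (gy c) (max M₁ N₀) (ω + t))
        (fun t => w_S_le_one v c hc1 N _) (fun t => w_S_le_one v c hc1 _ _)).2 _
        (fun t => w_S_sub_le v c hanti N _ hN _)
    have e1 : A₁⁻¹ - A₂⁻¹ = -(A₁ - A₂) * A₁⁻¹ * A₂⁻¹ := by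
      field_simp
      ring
    rw [e1, map_mul, map_mul, Valuation.map_neg, map_inv₀, map_inv₀]
    have h3 : (gaussFrac v A₁)⁻¹ ≤ (v γ)⁻¹ := inv_anti₀ hγ' hg1
    have h4 : (gaussFrac v A₂)⁻¹ ≤ (v γ)⁻¹ := inv_anti₀ hγ' hg2
    have hM' : v (c (max M₁ N₀)) < v (a * γ * γ / B) :=
      lt_of_le_of_lt (hanti (le_max_left _ _)) hM₁
    rw [map_div₀, lt_div_iff₀ hB', map_mul, map_mul] at hM'
    calc gaussFrac v (A₁ - A₂) * (gaussFrac v A₁)⁻¹ * (gaussFrac v A₂)⁻¹
        ≤ (v B * v (c (max M₁ N₀))) * (v γ)⁻¹ * (v γ)⁻¹ :=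
          mul_le_mul' (mul_le_mul' hdiff h3) h4
      _ < (v a * v γ * v γ) * (v γ)⁻¹ * (v γ)⁻¹ := by
          have hpos : 0 < (v γ)⁻¹ := inv_pos.2 hγ'
          apply mul_lt_mul_of_pos_right _ hpos
          apply mul_lt_mul_of_pos_right _ hpos
          rwa [mul_comm (v B)]
      _ = v a := by
          have hne : v γ ≠ 0 := hγ'.ne'
          rw [mul_inv_cancel_right₀ hne, mul_inv_cancel_right₀ hne]
  · intro W hWn
    obtain ⟨a, ha, hWa⟩ := hW W hWn
    obtain ⟨M, hM⟩ := hcof a ha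
    exact ⟨M, fun N hN b _ => hWa _ (lt_of_le_of_lt (w_S_sub_le v c hanti N M hN b) hM)⟩

/-- valued fields whose value group has countable cofinality -/
theorem pathGood_val [TopologicalSpace F] [IsTopologicalDivisionRing F]
    (hv : ∀ W : Set F, W ∈ 𝓝 (0 : F) ↔ ∃ a : F, a ≠ 0 ∧ {x | v x < v a} ⊆ W)
    (c : ℕ → F) (hc : ∀ n, c n ≠ 0) (hc1 : ∀ n, v (c n) ≤ 1)
    (hanti : Antitone (fun n => v (c n))) (hcof : ∀ a : F, a ≠ 0 → ∃ n, v (c n) < v a) :
    PathGood F inferInstance := by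
  letI : TopologicalSpace (GE F) := (valBase (gaussFrac (ι := ℕ × ℕ) v)).top
  haveI : IsTopologicalDivisionRing (GE F) :=
    (valBase (gaussFrac (ι := ℕ × ℕ) v)).isTopologicalDivisionRing
  refine (treeData_val v c hc hc1 hanti hcof).pathGood ?_
  apply isInducing_of_zero
  ext W
  rw [hv, mem_comap]
  constructor
  · rintro ⟨a, ha, h⟩
    refine ⟨{x | gaussFrac v x < gaussFrac v (gphi F a)}, (valBase_mem _).2
      ⟨gphi F a, ?_, Subset.rfl⟩, fun x hx => h ?_⟩
    · rw [Ne, map_eq_zero]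
      exact ha
    · simp only [Set.mem_preimage, Set.mem_ofPred_eq, w_gphi] at hx
      exact hx
  · rintro ⟨T, hT, h⟩
    obtain ⟨a, ha, h'⟩ := (valBase_mem (gaussFrac (ι := ℕ × ℕ) v)).1 hT
    obtain ⟨a', ha', h''⟩ := gaussFrac_surj v a ha
    refine ⟨a', ha', fun x hx => h (h' ?_)⟩
    simp only [Set.mem_ofPred_eq, w_gphi]
    rwa [h'']

end

end Pool.Agent.TopF
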