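import Pool.Agent.TopF.Frac
import Pool.Agent.TopF.ValTree

/-!
# Path-connected extensions of topological fields containing a Cantor set
-/

set_option autoImplicit false

open Topology Filter Set MeasureTheory
open scoped ENNReal

namespace Pool.Agent.TopF

/-- the Cantor group -/
abbrev CC : Type := ℕ → ZMod 2

/-- the compact group of all labels -/
abbrev GG : Type := ℕ × ℕ → ZMod 2

section null

variable {E : Type*} [Field E] [TopologicalSpace E] [IsTopologicalDivisionRing E] [T2Space E]

theorem measurable_eval {n : ℕ} (c : CC → E) (hc : Continuous c) (k : Fin n → ℕ → ℕ)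
    (Q : MvPolynomial (Fin n) E) :
    MeasurableSet {g : GG | MvPolynomial.eval (fun i => c (fun m => g (m, k i m))) Q = 0} := by
  have h1 : Continuous (fun g : GG => MvPolynomial.eval (fun i => c (fun m => g (m, k i m))) Q) := by
    have h2 : Continuous (fun g : GG => (fun i : Fin n => c (fun m => g (m, k i m)))) := by
      refine continuous_pi fun i => hc.comp (continuous_pi fun m => continuous_apply _)
    exact (MvPolynomial.continuous_eval Q).comp h2
  exact (isClosed_singleton.preimage h1).measurableSet

theorem null_fin (c : CC → E) (hc : Continuous c) (hci : Function.Injective c) :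
    ∀ (n : ℕ) (k : Fin n → ℕ → ℕ), (∀ i j, i ≠ j → ∃ m₀, ∀ m ≥ m₀, k i m ≠ k j m) →
      ∀ Q : MvPolynomial (Fin n) E, Q ≠ 0 →
      (Measure.addHaar : Measure GG)
        {g : GG | MvPolynomial.eval (fun i => c (fun m => g (m, k i m))) Q = 0} = 0 := by
  classical
  intro n
  induction n with
  | zero =>
    intro k _ Q hQ
    have h1 : {g : GG | MvPolynomial.eval (fun i => c (fun m => g (m, k i m))) Q = 0} = ∅ := by
      ext g
      simp only [Set.mem_ofPred_eq, Set.mem_empty_iff_false, iff_false]
      intro h
      apply hQ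
      have h2 := MvPolynomial.eq_C_of_isEmpty Q
      rw [h2, MvPolynomial.eval_C] at h
      rw [h2, h, map_zero]
    rw [h1, measure_empty]
  | succ n ih =>
    intro k hk Q hQ
    set p := MvPolynomial.finSuccEquiv E n Q with hp
    have hp0 : p ≠ 0 := by
      rw [hp, Ne, EmbeddingLike.map_eq_zero_iff]
      exact hQ
    set q := p.leadingCoeff with hq
    have hq0 : q ≠ 0 := Polynomial.leadingCoeff_ne_zero.2 hp0
    set A := {g : GG | MvPolynomial.eval (fun i => c (fun m => g (m, k i m))) Q = 0} with hA
    set B := {g : GG | MvPolynomial.eval (fun i : Fin n => c (fun m => g (m, k i.succ m))) q = 0}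
      with hB
    have hAm : MeasurableSet A := measurable_eval c hc k Q
    have hBm : MeasurableSet B := measurable_eval c hc (fun i => k i.succ) q
    have hB0 : (Measure.addHaar : Measure GG) B = 0 :=
      ih (fun i => k i.succ) (fun i j hij => hk _ _ (fun h => hij (Fin.succ_injective _ h))) q hq0
    -- separation of the labels of the first variable
    have hsep : ∃ m₀, ∀ m ≥ m₀, ∀ i : Fin n, k 0 m ≠ k i.succ m := by
      choose m₀ hm₀ using fun i : Fin n => hk 0 i.succ (Fin.succ_ne_zero i).symm
      refine ⟨Finset.univ.sup m₀, fun m hm i => hm₀ i m (le_trans ?_ hm)⟩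
      exact Finset.le_sup (f := m₀) (Finset.mem_univ i)
    obtain ⟨m₀, hm₀⟩ := hsep
    -- flips
    let f : ℕ → GG := fun r => fun x => if x = (m₀ + r, k 0 (m₀ + r)) then 1 else 0
    have hfx : ∀ r (g : GG) (i : Fin n), (fun m => (g + f r) (m, k i.succ m))
        = fun m => g (m, k i.succ m) := by
      intro r g i
      funext m
      simp only [f, Pi.add_apply]
      rw [if_neg, add_zero]
      intro h
      have h1 := (Prod.mk.inj h).1
      have h2 := (Prod.mk.inj h).2
      subst h1
      exact hm₀ _ (Nat.le_add_right _ _) i h2.symm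
    have hf0 : ∀ (g : GG), Function.Injective (fun r => c (fun m => (g + f r) (m, k 0 m))) := by
      intro g r s hrs
      have h1 := hci hrs
      by_contra hne
      have h2 := congrFun h1 (m₀ + r)
      simp only [f, Pi.add_apply] at h2
      rw [if_pos trivial, if_neg] at h2
      · simp at h2
      · intro h
        have := (Prod.mk.inj h).1
        omega
    -- the main count
    have hcount : ∀ (M : ℕ) (g : GG), g ∉ B →
        ((Finset.range M).filter (fun r => g + f r ∈ A)).card ≤ p.natDegree := by
      intro M g hg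
      let s : Fin n → E := fun i => c (fun m => g (m, k i.succ m))
      have hpg : p.map (MvPolynomial.eval s) ≠ 0 := by
        intro h0
        have h1 : (p.map (MvPolynomial.eval s)).coeff p.natDegree = 0 := by rw [h0]; simp
        rw [Polynomial.coeff_map] at h1
        exact hg h1
      have hroot : ∀ r ∈ (Finset.range M).filter (fun r => g + f r ∈ A),
          c (fun m => (g + f r) (m, k 0 m)) ∈ (p.map (MvPolynomial.eval s)).roots.toFinset := by
        intro r hr
        rw [Multiset.mem_toFinset, Polynomial.mem_roots hpg, Polynomial.IsRoot.def]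
        have h1 : g + f r ∈ A := (Finset.mem_filter.1 hr).2
        have h2 : MvPolynomial.eval (fun i => c (fun m => (g + f r) (m, k i m))) Q = 0 := h1
        have h3 : (fun i => c (fun m => (g + f r) (m, k i m)))
            = Fin.cons (c (fun m => (g + f r) (m, k 0 m))) s := by
          funext i
          refine Fin.cases ?_ (fun i => ?_) i
          · rfl
          · simp only [Fin.cons_succ, s]
            rw [hfx]
        rw [h3, MvPolynomial.eval_eq_eval_mv_eval'] at h2
        exact h2
      calc ((Finset.range M).filter (fun r => g + f r ∈ A)).card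
          ≤ (p.map (MvPolynomial.eval s)).roots.toFinset.card :=
            Finset.card_le_card_of_injOn _ hroot (fun a _ b _ hab => hf0 g hab)
        _ ≤ Multiset.card (p.map (MvPolynomial.eval s)).roots := Multiset.toFinset_card_le _
        _ ≤ (p.map (MvPolynomial.eval s)).natDegree := Polynomial.card_roots' _
        _ ≤ p.natDegree := Polynomial.natDegree_map_le
    -- integrate
    have hineq : ∀ M : ℕ, (M : ℝ≥0∞) * (Measure.addHaar : Measure GG) A
        ≤ (p.natDegree : ℝ≥0∞) * (Measure.addHaar : Measure GG) univ := by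
      intro M
      have h1 : ∀ r, (Measure.addHaar : Measure GG) ((fun g => g + f r) ⁻¹' A)
          = (Measure.addHaar : Measure GG) A := fun r => measure_preimage_add_right _ _ _
      calc (M : ℝ≥0∞) * (Measure.addHaar : Measure GG) A
          = ∑ r ∈ Finset.range M, (Measure.addHaar : Measure GG) ((fun g => g + f r) ⁻¹' A) := by
            simp only [h1, Finset.sum_const, Finset.card_range, nsmul_eq_mul]
        _ = ∑ r ∈ Finset.range M, ∫⁻ g, ((fun g => g + f r) ⁻¹' A).indicator 1 g
              ∂(Measure.addHaar : Measure GG) := by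
            refine Finset.sum_congr rfl fun r _ => ?_
            rw [lintegral_indicator_one]
            exact hAm.preimage (measurable_add_const _)
        _ = ∫⁻ g, ∑ r ∈ Finset.range M, ((fun g => g + f r) ⁻¹' A).indicator 1 g
              ∂(Measure.addHaar : Measure GG) := by
            rw [lintegral_finsetSum]
            intro r _
            exact measurable_one.indicator (hAm.preimage (measurable_add_const _))
        _ ≤ ∫⁻ _, (p.natDegree : ℝ≥0∞) ∂(Measure.addHaar : Measure GG) := by
            apply lintegral_mono_ae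
            have hBae : ∀ᵐ g ∂(Measure.addHaar : Measure GG), g ∉ B := by
              rw [ae_iff]
              simpa using hB0
            filter_upwards [hBae] with g hg
            have h2 : ∑ r ∈ Finset.range M, ((fun g => g + f r) ⁻¹' A).indicator
                (1 : GG → ℝ≥0∞) g = (((Finset.range M).filter (fun r => g + f r ∈ A)).card : ℝ≥0∞) := by
              rw [Finset.card_filter]
              push_cast
              refine Finset.sum_congr rfl fun r _ => ?_
              by_cases h : g + f r ∈ A
              · rw [if_pos h, Set.indicator_of_mem (show g ∈ (fun g => g + f r) ⁻¹' A from h)]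
                rfl
              · rw [if_neg h, Set.indicator_of_notMem (show g ∉ (fun g => g + f r) ⁻¹' A from h)]
            rw [h2]
            exact_mod_cast hcount M g hg
        _ = (p.natDegree : ℝ≥0∞) * (Measure.addHaar : Measure GG) univ := by
            rw [lintegral_const]
    -- conclude
    by_contra hne
    have hfin : (p.natDegree : ℝ≥0∞) * (Measure.addHaar : Measure GG) univ ≠ ⊤ :=
      ENNReal.mul_ne_top (ENNReal.natCast_ne_top _) (measure_ne_top _ _)
    obtain ⟨M, hM⟩ := ENNReal.exists_nat_mul_gt hne hfin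
    exact absurd hM (not_lt.2 (hineq M))

end null

section process

/-- the process -/
noncomputable def proc (t : ℝ) (ω : ℝ × GG) : CC := fun n => ω.2 (n, ⌊2 ^ n * (ω.1 + t)⌋₊)

theorem measurable_proc (t : ℝ) : Measurable (proc t) := by
  rw [measurable_pi_iff]
  intro n
  have h1 : Measurable (fun p : GG × ℕ => p.1 (n, p.2)) :=
    measurable_from_prod_countable_left (fun k => measurable_pi_apply (n, k))
  have h2 : Measurable (fun ω : ℝ × GG => (ω.2, ⌊2 ^ n * (ω.1 + t)⌋₊)) := by
    refine measurable_snd.prodMk ?_
    exact Nat.measurable_floor.comp ((measurable_fst.add_const t).const_mul _)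
  exact h1.comp h2

theorem exists_fin_rename_two {R ι : Type*} [CommSemiring R] (P Q : MvPolynomial ι R) :
    ∃ (n : ℕ) (f : Fin n → ι) (P' Q' : MvPolynomial (Fin n) R), Function.Injective f ∧
      P = MvPolynomial.rename f P' ∧ Q = MvPolynomial.rename f Q' := by
  obtain ⟨s, P', Q', rfl, rfl⟩ := MvPolynomial.exists_finset_rename₂ P Q
  let e := Fintype.equivFin s
  refine ⟨Fintype.card s, fun i => (e.symm i : ι), MvPolynomial.rename e P',
    MvPolynomial.rename e Q', Subtype.val_injective.comp e.symm.injective, ?_, ?_⟩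
  · rw [MvPolynomial.rename_rename]
    simp only [Function.comp_def, Equiv.symm_apply_apply]
  · rw [MvPolynomial.rename_rename]
    simp only [Function.comp_def, Equiv.symm_apply_apply]

/-- the probability space (up to normalisation) -/
noncomputable def muC : Measure (ℝ × GG) :=
  (volume.restrict (Icc (0 : ℝ) 1)).prod (Measure.addHaar : Measure GG)

instance : IsFiniteMeasure muC := by
  unfold muC
  infer_instance

/-- the submeasure -/
noncomputable def submC : Subm (ℝ × GG) where
  m := fun S => muC S
  empty := measure_empty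
  mono := fun _ _ h => measure_mono h
  union := fun s t => measure_union_le s t

theorem submC_univ : submC.m univ ≠ 0 := by
  have h1 : muC univ = (Measure.addHaar : Measure GG) univ := by
    rw [muC, ← Set.univ_prod_univ, Measure.prod_prod]
    simp
  change muC univ ≠ 0
  rw [h1]
  exact (IsOpen.measure_pos _ isOpen_univ ⟨0, trivial⟩).ne'

variable {E : Type*} [Field E] [TopologicalSpace E] [IsTopologicalDivisionRing E] [T2Space E]

/-- evaluation of polynomials along the process -/
noncomputable def pevC (c : CC → E) (ω : ℝ × GG) : MvPolynomial unitInterval E →+* E :=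
  MvPolynomial.eval (fun t => c (proc t ω))

theorem pevC_rename {n : ℕ} (c : CC → E) (f : Fin n → unitInterval) (Q : MvPolynomial (Fin n) E)
    (ω : ℝ × GG) : pevC c ω (MvPolynomial.rename f Q)
      = MvPolynomial.eval (fun i => c (proc (f i) ω)) Q := by
  rw [pevC, MvPolynomial.eval_rename]
  rfl

theorem pevC_ne (c : CC → E) (hc : Continuous c) (hci : Function.Injective c)
    (P : MvPolynomial unitInterval E) (hP : P ≠ 0) : ∀ᶠ ω in submC.ae, pevC c ω P ≠ 0 := by
  classical
  obtain ⟨n, f, hf, Q, rfl⟩ := MvPolynomial.exists_fin_rename P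
  have hQ : Q ≠ 0 := by
    rintro rfl
    exact hP (map_zero _)
  rw [Filter.eventually_iff, Subm.mem_ae]
  change muC _ = 0
  have h1 : {ω : ℝ × GG | pevC c ω (MvPolynomial.rename f Q) ≠ 0}ᶜ
      = (fun ω : ℝ × GG => fun i : Fin n => proc (f i) ω) ⁻¹'
        {x : Fin n → CC | MvPolynomial.eval (fun i => c (x i)) Q = 0} := by
    ext ω
    simp only [Set.mem_compl_iff, Set.mem_ofPred_eq, Set.mem_preimage, not_not, pevC_rename]
  rw [h1]
  have hcont : Continuous (fun x : Fin n → CC => MvPolynomial.eval (fun i => c (x i)) Q) := by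
    refine (MvPolynomial.continuous_eval Q).comp ?_
    exact continuous_pi fun i => hc.comp (continuous_apply i)
  have hm : MeasurableSet {x : Fin n → CC | MvPolynomial.eval (fun i => c (x i)) Q = 0} :=
    (isClosed_singleton.preimage hcont).measurableSet
  have hX : Measurable (fun ω : ℝ × GG => fun i : Fin n => proc (f i) ω) :=
    measurable_pi_iff.2 fun i => measurable_proc _
  rw [muC, Measure.measure_prod_null (hm.preimage hX)]
  obtain ⟨m₀, hm₀⟩ := exists_separation (Finset.univ.image f)
  filter_upwards [ae_restrict_mem measurableSet_Icc] with θ hθ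
  refine null_fin c hc hci n (fun i m => ⌊2 ^ m * (θ + (f i : ℝ))⌋₊) (fun i j hij => ?_) Q hQ
  refine ⟨m₀, fun m hm h => hij (hf ?_)⟩
  exact hm₀ m hm θ hθ _ (Finset.mem_image_of_mem f (Finset.mem_univ i)) _
    (Finset.mem_image_of_mem f (Finset.mem_univ j)) h

theorem compact_bdd {Y : Type*} [TopologicalSpace Y] {L : Set Y} (hL : IsCompact L) (h : Y → E)
    (hh : ∀ y ∈ L, ContinuousAt h y) (U : Set E) (hU : U ∈ 𝓝 (0 : E)) :
    ∃ V ∈ 𝓝 (0 : E), ∀ y ∈ L, ∀ v ∈ V, h y * v ∈ U := by
  have h1 := hL.eventually_forall_of_forall_eventually (x₀ := (0 : E))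
    (P := fun v y => h y * v ∈ U) (by
      intro y hy
      have h2 : Tendsto (fun z : E × Y => h z.2 * z.1) (𝓝 (0, y)) (𝓝 (h y * 0)) := by
        have h3 : Tendsto (fun z : E × Y => z.2) (𝓝 (0, y)) (𝓝 y) :=
          continuous_snd.tendsto (0, y)
        have h4 : Tendsto (fun z : E × Y => z.1) (𝓝 (0, y)) (𝓝 0) :=
          continuous_fst.tendsto ((0 : E), y)
        exact ((hh y hy).tendsto.comp h3).mul h4
      rw [mul_zero] at h2
      exact h2 hU)
  exact ⟨_, h1, fun y hy v hv => hv y hy⟩

/-- the evaluation structure -/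
noncomputable def evalC (c : CC → E) (hc : Continuous c) (hci : Function.Injective c) :
    Eval (KK E) E (ℝ × GG) submC :=
  fracEval submC (pevC c) (pevC_ne c hc hci) (by
    classical
    intro P Q hQ U hU ε hε
    obtain ⟨n, f, P', Q', hf, rfl, rfl⟩ := exists_fin_rename_two P Q
    have hcont : ∀ R : MvPolynomial (Fin n) E,
        Continuous (fun x : Fin n → CC => MvPolynomial.eval (fun i => c (x i)) R) := by
      intro R
      refine (MvPolynomial.continuous_eval R).comp ?_
      exact continuous_pi fun i => hc.comp (continuous_apply i)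
    have hX : Measurable (fun ω : ℝ × GG => fun i : Fin n => proc (f i) ω) :=
      measurable_pi_iff.2 fun i => measurable_proc _
    set Z := {x : Fin n → CC | MvPolynomial.eval (fun i => c (x i)) Q' = 0} with hZ
    have hZc : IsClosed Z := isClosed_singleton.preimage (hcont Q')
    have hZ0 : (muC.map (fun ω : ℝ × GG => fun i : Fin n => proc (f i) ω)) Z = 0 := by
      rw [Measure.map_apply hX hZc.measurableSet]
      have h1 := pevC_ne c hc hci _ hQ
      rw [Filter.eventually_iff, Subm.mem_ae] at h1
      change muC _ = 0 at h1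
      refine le_antisymm (le_trans (measure_mono ?_) h1.le) zero_le
      intro ω hω
      simp only [Set.mem_compl_iff, Set.mem_ofPred_eq, not_not, pevC_rename]
      exact hω
    haveI : IsFiniteMeasure (muC.map (fun ω : ℝ × GG => fun i : Fin n => proc (f i) ω)) :=
      Measure.isFiniteMeasure_map _ _
    obtain ⟨O, hZO, hO, hOε⟩ := Set.exists_isOpen_lt_of_lt Z ε (by rw [hZ0]; exact hε)
    obtain ⟨V, hV, hVU⟩ := compact_bdd hO.isClosed_compl.isCompact
      (fun x : Fin n → CC => MvPolynomial.eval (fun i => c (x i)) P'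
        / MvPolynomial.eval (fun i => c (x i)) Q') (by
        intro x hx
        refine (hcont P').continuousAt.div (hcont Q').continuousAt ?_
        intro h0
        exact hx (hZO h0)) U hU
    refine ⟨V, hV, ?_⟩
    refine lt_of_le_of_lt ?_ hOε
    rw [Measure.map_apply hX hO.measurableSet]
    refine measure_mono ?_
    rintro ω ⟨v, hv, hvU⟩
    by_contra hcon
    apply hvU
    rw [pevC_rename, pevC_rename]
    exact hVU _ hcon v hv)

theorem cylinder_mem (x : CC) (S : Set CC) (hS : S ∈ 𝓝 x) :
    ∃ M : ℕ, ∀ y : CC, (∀ n < M, y n = x n) → y ∈ S := by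
  classical
  rw [nhds_pi, Filter.mem_pi] at hS
  obtain ⟨I, hI, t, ht, hts⟩ := hS
  obtain ⟨M, hM⟩ := hI.bddAbove
  refine ⟨M + 1, fun y hy => hts ?_⟩
  intro n hn
  rw [hy n (Nat.lt_succ_of_le (hM hn))]
  exact mem_of_mem_nhds (ht n)

omit [T2Space E] in
theorem unif_cont (c : CC → E) (hc : Continuous c) (U : Set E) (hU : U ∈ 𝓝 (0 : E)) :
    ∃ M : ℕ, ∀ x y : CC, (∀ n < M, x n = y n) → c x - c y ∈ U := by
  classical
  have h1 : Tendsto (fun p : E × E => p.1 - p.2) (𝓝 0 ×ˢ 𝓝 0) (𝓝 0) := by
    have := (continuous_sub (G := E)).tendsto (0, 0)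
    rwa [nhds_prod_eq, sub_zero] at this
  obtain ⟨W₁, hW₁, W₂, hW₂, hWW⟩ := mem_prod_iff.1 (h1 hU)
  have h2 : ∀ x : CC, ∃ M : ℕ, ∀ y : CC, (∀ n < M, y n = x n) → c y - c x ∈ W₁ ∩ W₂ := by
    intro x
    have h3 : {y : CC | c y - c x ∈ W₁ ∩ W₂} ∈ 𝓝 x := by
      have : Tendsto (fun y : CC => c y - c x) (𝓝 x) (𝓝 (c x - c x)) :=
        (hc.tendsto x).sub_const _
      rw [sub_self] at this
      exact this (inter_mem hW₁ hW₂)
    exact cylinder_mem x _ h3
  choose m hm using h2
  have hnb : ∀ x : CC, {y : CC | ∀ n < m x, y n = x n} ∈ 𝓝 x := by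
    intro x
    have h4 : ∀ n ∈ Finset.range (m x), {y : CC | y n = x n} ∈ 𝓝 x := by
      intro n _
      have : IsOpen {y : CC | y n = x n} := by
        have h5 : {y : CC | y n = x n} = (fun y : CC => y n) ⁻¹' {x n} := rfl
        rw [h5]
        exact (isOpen_discrete _).preimage (continuous_apply n)
      exact this.mem_nhds rfl
    have h6 := (Filter.biInter_finset_mem _).2 h4
    refine Filter.mem_of_superset h6 (fun y hy n hn => ?_)
    exact Set.mem_iInter₂.1 hy n (Finset.mem_range.2 hn)
  obtain ⟨T, -, hT⟩ := isCompact_univ.elim_nhds_subcover _ (fun x _ => hnb x)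
  refine ⟨T.sup m, fun x y hxy => ?_⟩
  obtain ⟨z, hz, hxz⟩ := Set.mem_iUnion₂.1 (hT (Set.mem_univ x))
  have hyz : ∀ n < m z, y n = z n := by
    intro n hn
    rw [← hxy n (lt_of_lt_of_le hn (Finset.le_sup (f := m) hz))]
    exact hxz n hn
  have e1 : c x - c y = (c x - c z) - (c y - c z) := by ring
  rw [e1]
  exact hWW (Set.mk_mem_prod (hm z x hxz).1 (hm z y hyz).2)

theorem continuous_xxC (c : CC → E) (hc : Continuous c) (hci : Function.Injective c) :
    @Continuous unitInterval (KK E) _ (evalC c hc hci).base.top (xx E) := by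
  letI := (evalC c hc hci).base.top
  haveI := (evalC c hc hci).isTopologicalDivisionRing
  rw [continuous_iff_continuousAt]
  intro t₀
  rw [ContinuousAt, ← tendsto_sub_nhds_zero_iff, (evalC c hc hci).nhds_zero.tendsto_right_iff]
  rintro ⟨U, ε⟩ ⟨hU, hε⟩
  obtain ⟨M, hM⟩ := unif_cont c hc U hU
  let C : ℝ≥0∞ := (∑ n ∈ Finset.range M, ((2 ^ (n + 1) + 1 : ℕ) : ℝ≥0∞))
    * (Measure.addHaar : Measure GG) univ
  have hC : C ≠ ⊤ := by
    simp only [C]
    exact ENNReal.mul_ne_top (ENNReal.sum_ne_top.2 (fun n _ => ENNReal.natCast_ne_top _))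
      (measure_ne_top _ _)
  have hlim : Tendsto (fun t : unitInterval => C * ENNReal.ofReal |(t : ℝ) - (t₀ : ℝ)|)
      (𝓝 t₀) (𝓝 0) := by
    have h2 : Tendsto (fun t : unitInterval => ENNReal.ofReal |(t : ℝ) - (t₀ : ℝ)|)
        (𝓝 t₀) (𝓝 0) := by
      have h3 : Continuous (fun t : unitInterval => ENNReal.ofReal |(t : ℝ) - (t₀ : ℝ)|) :=
        ENNReal.continuous_ofReal.comp (by fun_prop)
      have h4 := h3.tendsto t₀
      simpa using h4
    have h5 := ENNReal.Tendsto.const_mul h2 (Or.inr hC)
    simpa using h5
  filter_upwards [hlim.eventually_lt_const hε] with t ht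
  rw [Eval.mem_N]
  refine lt_of_le_of_lt (submC.le_of_ae (t := {ω | pevC c ω (MvPolynomial.X t)
    - pevC c ω (MvPolynomial.X t₀) ∉ U}) ?_) (lt_of_le_of_lt ?_ ht)
  · have hne := pevC_ne c hc hci
    filter_upwards [(evalC c hc hci).sub (xx E t) (xx E t₀), evf_alg hne (MvPolynomial.X t),
      evf_alg hne (MvPolynomial.X t₀)] with x hx1 hx2 hx3 hx4
    change (evalC c hc hci).ev (xx E t - xx E t₀) x ∉ U at hx4
    change (evalC c hc hci).ev (xx E t) x = _ at hx2
    change (evalC c hc hci).ev (xx E t₀) x = _ at hx3
    change pevC c x (MvPolynomial.X t) - pevC c x (MvPolynomial.X t₀) ∉ U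
    rwa [hx1, hx2, hx3] at hx4
  · have hsub : {ω : ℝ × GG | pevC c ω (MvPolynomial.X t) - pevC c ω (MvPolynomial.X t₀) ∉ U}
        ⊆ (⋃ n ∈ Finset.range M,
          {θ : ℝ | ⌊2 ^ n * (θ + t)⌋₊ ≠ ⌊2 ^ n * (θ + t₀)⌋₊}) ×ˢ (univ : Set GG) := by
      intro ω hω
      refine ⟨?_, trivial⟩
      by_contra hcon
      simp only [Set.mem_iUnion, Finset.mem_range, exists_prop, not_exists, not_and,
        Set.mem_ofPred_eq, not_not] at hcon
      apply hω
      simp only [pevC, MvPolynomial.eval_X]
      apply hM
      intro n hn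
      simp only [proc]
      rw [hcon n hn]
    refine (measure_mono hsub).trans ?_
    rw [muC, Measure.prod_prod]
    simp only [C]
    rw [mul_right_comm]
    refine mul_le_mul_left ?_ _
    refine (measure_biUnion_finset_le _ _).trans ?_
    rw [Finset.sum_mul]
    refine Finset.sum_le_sum fun n _ => ?_
    rw [Measure.restrict_apply' measurableSet_Icc]
    exact volume_bad n t₀ t t₀.2 t.2

/-- **Topological fields containing a Cantor set.** -/
theorem pathGood_cantor (c : CC → E) (hc : Continuous c) (hci : Function.Injective c) :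
    PathGood E inferInstance := by
  refine ⟨(evalC c hc hci).base.top, (evalC c hc hci).isTopologicalDivisionRing, ?_,
    continuous_xxC c hc hci⟩
  refine (evalC c hc hci).isInducing_const (jj E) (RingHom.id E) IsInducing.id submC_univ
    (fun a => ?_)
  filter_upwards [evf_alg (pevC_ne c hc hci) (MvPolynomial.C a)] with x hx
  change (evalC c hc hci).ev (jj E a) x = _ at hx
  rw [hx]
  simp [pevC]

end process

/-- `PathGood` passes to subfields -/
theorem PathGood.comap {F E : Type*} [Field F] [Field E] {τ : TopologicalSpace F}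
    {σ : TopologicalSpace E} (φ : F →+* E) (hφ : @IsInducing F E τ σ φ) (h : PathGood E σ) :
    PathGood F τ := by
  obtain ⟨t, h1, h2, h3⟩ := h
  have hinj : Function.Injective (MvPolynomial.map (σ := unitInterval) φ) :=
    MvPolynomial.map_injective _ φ.injective
  let g : KK F →+* KK E := IsFractionRing.map hinj
  have hgP : ∀ P : MvPolynomial unitInterval F, g (algebraMap _ (KK F) P)
      = algebraMap _ (KK E) (MvPolynomial.map φ P) := fun P => IsLocalization.map_eq _ P
  have hgj : ∀ a, g (jj F a) = jj E (φ a) := by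
    intro a
    simp only [jj, RingHom.comp_apply]
    rw [hgP, MvPolynomial.map_C]
  have hgx : ∀ a, g (xx F a) = xx E a := by
    intro a
    simp only [xx]
    rw [hgP, MvPolynomial.map_X]
  letI := t
  letI : TopologicalSpace (KK F) := t.induced g
  have hgi : IsInducing g := ⟨rfl⟩
  haveI : ContinuousMul (KK F) := continuousMul_induced g
  haveI : IsTopologicalAddGroup (KK F) := topologicalAddGroup_induced g
  haveI : IsTopologicalRing (KK F) := {}
  have hinv : ContinuousInv₀ (KK F) := by
    refine ⟨fun a ha => ?_⟩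
    rw [hgi.continuousAt_iff]
    have h4 : (g ∘ fun x : KK F => x⁻¹) = (fun x : KK E => x⁻¹) ∘ g := by
      funext x
      simp
    have h5 : g a ≠ 0 := by rwa [Ne, map_eq_zero]
    have h6 : ContinuousAt ((fun x : KK E => x⁻¹) ∘ g) a :=
      ContinuousAt.comp (continuousAt_inv₀ h5) hgi.continuous.continuousAt
    rw [← h4] at h6
    exact h6
  refine ⟨t.induced g, { toContinuousInv₀ := hinv }, ?_, ?_⟩
  · refine @IsInducing.mk F (KK F) τ (t.induced g) _ ?_
    rw [induced_compose]
    have h4 : (g ∘ jj F : F → KK E) = jj E ∘ φ := by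
      funext a
      exact hgj a
    rw [h4, ← induced_compose, ← h2.eq_induced]
    exact hφ.eq_induced
  · rw [continuous_induced_rng]
    have h4 : (g ∘ xx F : unitInterval → KK E) = xx E := by
      funext a
      exact hgx a
    rw [h4]
    exact h3

end Pool.Agent.TopF
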