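import Pool.Agent.TopF.Countable
import Pool.Agent.TopF.ValTree

/-!
# Every field topology on a countable field is a supremum of first countable field topologies
-/

set_option autoImplicit false

open Topology Filter Set

namespace Pool.Agent.TopF

section

variable {F : Type*} [Field F] [τ : TopologicalSpace F] [IsTopologicalDivisionRing F]

theorem coarse_step (e : ℕ → F) (n : ℕ) (W : Set F) (hW : W ∈ 𝓝 (0 : F)) :
    ∃ V ∈ 𝓝 (0 : F), V ⊆ W ∧ (∀ a ∈ V, ∀ b ∈ V, a + b ∈ W) ∧ (∀ a ∈ V, -a ∈ W) ∧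
      (∀ a ∈ V, ∀ b ∈ V, a * b ∈ W) ∧ (∀ j ≤ n, ∀ a ∈ V, e j * a ∈ W) ∧
      (∀ a ∈ V, (1 + a)⁻¹ - 1 ∈ W) := by
  have hadd : Tendsto (fun p : F × F => p.1 + p.2) (𝓝 0 ×ˢ 𝓝 0) (𝓝 0) := by
    have := (continuous_add (M := F)).tendsto (0, 0)
    rwa [nhds_prod_eq, add_zero] at this
  have hmul : Tendsto (fun p : F × F => p.1 * p.2) (𝓝 0 ×ˢ 𝓝 0) (𝓝 0) := by
    have := (continuous_mul (M := F)).tendsto (0, 0)
    rwa [nhds_prod_eq, mul_zero] at this
  have hneg : Tendsto (fun p : F => -p) (𝓝 0) (𝓝 0) := by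
    have := (continuous_neg (G := F)).tendsto 0
    rwa [neg_zero] at this
  have hinv : Tendsto (fun p : F => (1 + p)⁻¹ - 1) (𝓝 0) (𝓝 0) := by
    have h2 : Tendsto (fun p : F => 1 + p) (𝓝 0) (𝓝 1) := by
      have := (continuous_const_add (1 : F)).tendsto 0
      rwa [add_zero] at this
    have h3 : Tendsto (fun p : F => p⁻¹) (𝓝 1) (𝓝 1) := by
      have := (continuousAt_inv₀ (one_ne_zero (α := F))).tendsto
      rwa [inv_one] at this
    have h4 := (h3.comp h2).sub_const 1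
    simpa using h4
  have hsm : ∀ᶠ a in 𝓝 (0 : F), ∀ j ∈ Finset.range (n + 1), e j * a ∈ W := by
    rw [Filter.eventually_all_finset]
    intro j _
    have : Tendsto (fun p : F => e j * p) (𝓝 0) (𝓝 0) := by
      have := (continuous_const_mul (e j)).tendsto 0
      rwa [mul_zero] at this
    exact this hW
  obtain ⟨V₁, hV₁, V₂, hV₂, h12⟩ := mem_prod_iff.1 (hadd hW)
  obtain ⟨V₃, hV₃, V₄, hV₄, h34⟩ := mem_prod_iff.1 (hmul hW)
  refine ⟨W ∩ (V₁ ∩ V₂) ∩ (V₃ ∩ V₄) ∩ ((fun p : F => -p) ⁻¹' W) ∩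
    ({a | ∀ j ∈ Finset.range (n + 1), e j * a ∈ W} ∩ (fun p : F => (1 + p)⁻¹ - 1) ⁻¹' W),
    inter_mem (inter_mem (inter_mem (inter_mem hW (inter_mem hV₁ hV₂)) (inter_mem hV₃ hV₄))
      (hneg hW)) (inter_mem hsm (hinv hW)), ?_, ?_, ?_, ?_, ?_, ?_⟩
  · intro a ha
    exact ha.1.1.1.1
  · intro a ha b hb
    exact h12 (Set.mk_mem_prod ha.1.1.1.2.1 hb.1.1.1.2.2)
  · intro a ha
    exact ha.1.2
  · intro a ha b hb
    exact h34 (Set.mk_mem_prod ha.1.1.2.1 hb.1.1.2.2)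
  · intro j hj a ha
    exact ha.2.1 j (Finset.mem_range.2 (Nat.lt_succ_of_le hj))
  · intro a ha
    exact ha.2.2

theorem exists_coarse_seq (e : ℕ → F) (W : Set F) (hW : W ∈ 𝓝 (0 : F)) :
    ∃ U : ℕ → Set F, (∀ n, U n ∈ 𝓝 (0 : F)) ∧ U 0 ⊆ W ∧ (∀ n, U (n + 1) ⊆ U n) ∧
      (∀ n, ∀ a ∈ U (n + 1), ∀ b ∈ U (n + 1), a + b ∈ U n) ∧
      (∀ n, ∀ a ∈ U (n + 1), -a ∈ U n) ∧
      (∀ n, ∀ a ∈ U (n + 1), ∀ b ∈ U (n + 1), a * b ∈ U n) ∧
      (∀ n, ∀ j ≤ n, ∀ a ∈ U (n + 1), e j * a ∈ U n) ∧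
      (∀ n, ∀ a ∈ U (n + 1), (1 + a)⁻¹ - 1 ∈ U n) := by
  choose V hV h1 h2 h3 h4 h5 h6 using fun (n : ℕ) (W : {W : Set F // W ∈ 𝓝 (0 : F)}) =>
    coarse_step e n W.1 W.2
  let U : ℕ → {W : Set F // W ∈ 𝓝 (0 : F)} := fun n =>
    Nat.rec ⟨W, hW⟩ (fun n W => ⟨V n W, hV n W⟩) n
  have hU : ∀ n, (U (n + 1)).1 = V n (U n) := fun n => rfl
  refine ⟨fun n => (U n).1, fun n => (U n).2, Subset.rfl, ?_, ?_, ?_, ?_, ?_, ?_⟩
  · intro n
    simp only [hU]
    exact h1 n (U n)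
  · intro n
    simp only [hU]
    exact h2 n (U n)
  · intro n
    simp only [hU]
    exact h3 n (U n)
  · intro n
    simp only [hU]
    exact h4 n (U n)
  · intro n
    simp only [hU]
    exact h5 n (U n)
  · intro n
    simp only [hU]
    exact h6 n (U n)

/-- each neighbourhood of zero in a countable nondiscrete topological field is a neighbourhood of
zero for a coarser field topology which is good -/
theorem exists_coarse_good [Countable F] (hinf : ∀ W ∈ 𝓝 (0 : F), W.Infinite)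
    (W : Set F) (hW : W ∈ 𝓝 (0 : F)) : ∃ t : TopologicalSpace F,
      @IsTopologicalDivisionRing F _ t ∧ PathGood F t ∧ W ∈ @nhds F t 0 ∧
      @nhds F τ 0 ≤ @nhds F t 0 := by
  obtain ⟨e, he⟩ := exists_surjective_nat F
  obtain ⟨U, hU, hU0, hUmono, hUadd, hUneg, hUmul, hUsmul, hUinv⟩ := exists_coarse_seq e W hW
  have hanti : ∀ m n, m ≤ n → U n ⊆ U m := by
    intro m n hmn
    induction n, hmn using Nat.le_induction with
    | base => exact Subset.rfl
    | succ n _ ih => exact (hUmono n).trans ih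
  let β : FieldBase F :=
    { B := Set.range U
      ne := ⟨_, 0, rfl⟩
      inter := by
        rintro _ ⟨m, rfl⟩ _ ⟨n, rfl⟩
        exact ⟨_, ⟨max m n, rfl⟩, subset_inter (hanti _ _ (le_max_left _ _))
          (hanti _ _ (le_max_right _ _))⟩
      zero := by
        rintro _ ⟨m, rfl⟩
        exact mem_of_mem_nhds (hU m)
      add := by
        rintro _ ⟨m, rfl⟩
        exact ⟨_, ⟨m + 1, rfl⟩, hUadd m⟩
      neg := by
        rintro _ ⟨m, rfl⟩
        exact ⟨_, ⟨m + 1, rfl⟩, hUneg m⟩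
      mul := by
        rintro _ ⟨m, rfl⟩
        exact ⟨_, ⟨m + 1, rfl⟩, hUmul m⟩
      smul := by
        rintro x _ ⟨m, rfl⟩
        obtain ⟨j, rfl⟩ := he x
        refine ⟨_, ⟨max m j + 1, rfl⟩, fun a ha => ?_⟩
        exact hanti _ _ (le_max_left m j) (hUsmul (max m j) j (le_max_right _ _) a ha)
      inv := by
        rintro _ ⟨m, rfl⟩
        exact ⟨_, ⟨m + 1, rfl⟩, fun a ha _ => hUinv m a ha⟩ }
  have hb := β.nhds_zero
  have hle : 𝓝 (0 : F) ≤ @nhds F β.top 0 := by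
    rw [hb.ge_iff]
    rintro _ ⟨n, rfl⟩
    exact hU n
  refine ⟨β.top, β.isTopologicalDivisionRing, ?_, ?_, hle⟩
  · letI : TopologicalSpace F := β.top
    haveI : IsTopologicalDivisionRing F := β.isTopologicalDivisionRing
    obtain ⟨y, hy⟩ := exists_treeData U (fun n => hb.mem_of_mem ⟨n, rfl⟩)
      (fun W hW => by
        obtain ⟨_, ⟨n, rfl⟩, h⟩ := hb.mem_iff.1 hW
        exact ⟨n, h⟩) hUadd (fun W hW => hinf W (hle hW))
    exact hy.pathGood IsInducing.id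
  · exact Filter.mem_of_superset (hb.mem_of_mem ⟨0, rfl⟩) hU0

/-- Nondiscrete countable topological fields. -/
theorem pathGood_countable [Countable F] (hinf : ∀ W ∈ 𝓝 (0 : F), W.Infinite) :
    PathGood F inferInstance := by
  choose t ht1 ht2 ht3 ht4 using fun W : {W : Set F // W ∈ 𝓝 (0 : F)} =>
    exists_coarse_good hinf W.1 W.2
  have h1 := pathGood_iInf t ht2
  have h2 : (inferInstance : TopologicalSpace F) = ⨅ W, t W := by
    have hd := isTopologicalDivisionRing_iInf t ht1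
    refine IsTopologicalAddGroup.ext (G := F) inferInstance
      (@IsTopologicalRing.to_topologicalAddGroup F _ (⨅ W, t W) hd.toIsTopologicalRing) ?_
    rw [nhds_iInf]
    apply le_antisymm
    · exact le_iInf ht4
    · intro W hW
      exact Filter.mem_iInf_of_mem ⟨W, hW⟩ (ht3 ⟨W, hW⟩)
  rw [h2]
  exact h1

end

end Pool.Agent.TopF
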