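import Pool.Agent.TopF.Tree

/-!
# Tree data in countable first countable topological fields
-/

set_option autoImplicit false

open Topology Filter Set MeasureTheory
open scoped ENNReal

namespace Pool.Agent.TopF

section

variable {F : Type*} [Field F]

theorem S_finite (g : ℕ → ℕ → F) (n : ℕ) :
    {z : F | ∃ b ∈ Icc (0 : ℝ) 2, S g n b = z}.Finite := by
  have hfin : ((fun (b : ℝ) (m : Fin n) => ⌊2 ^ (m : ℕ) * b⌋₊) '' Icc (0 : ℝ) 2).Finite := by
    have : (fun (b : ℝ) (m : Fin n) => ⌊2 ^ (m : ℕ) * b⌋₊) '' Icc (0 : ℝ) 2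
        ⊆ {l : Fin n → ℕ | ∀ m : Fin n, l m ∈ Set.Iio (2 ^ ((m : ℕ) + 1) + 1)} := by
      rintro _ ⟨b, hb, rfl⟩ m
      exact floor_lt hb
    refine Set.Finite.subset ?_ this
    exact Set.Finite.pi' fun _ => Set.finite_Iio _
  refine (hfin.image (fun l => ∑ m : Fin n, g m (l m))).subset ?_
  rintro z ⟨b, hb, rfl⟩
  refine ⟨_, ⟨b, hb, rfl⟩, ?_⟩
  simp only [S, Finset.sum_range]

/-- pairs (tuple of partial sums, tuple of labels) at stage `n` -/
def Cpat (r : ℕ) (g : ℕ → ℕ → F) (n : ℕ) : Set ((Fin r → F) × (Fin r → ℕ)) :=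
  {c | ∃ b : Fin r → ℝ, (∀ i, b i ∈ Icc (0 : ℝ) 2) ∧ c.1 = (fun i => S g n (b i)) ∧
    c.2 = (fun i => ⌊2 ^ n * b i⌋₊)}

theorem Cpat_finite (r : ℕ) (g : ℕ → ℕ → F) (n : ℕ) : (Cpat r g n).Finite := by
  have h1 : {s : Fin r → F | ∀ i, s i ∈ {z : F | ∃ b ∈ Icc (0 : ℝ) 2, S g n b = z}}.Finite :=
    Set.Finite.pi' fun _ => S_finite g n
  have h2 : {l : Fin r → ℕ | ∀ i, l i ∈ Set.Iio (2 ^ (n + 1) + 1)}.Finite :=
    Set.Finite.pi' fun _ => Set.finite_Iio _
  refine (h1.prod h2).subset ?_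
  rintro ⟨s, l⟩ ⟨b, hb, hs, hl⟩
  simp only at hs hl
  subst hs hl
  exact ⟨fun i => ⟨b i, hb i, rfl⟩, fun i => floor_lt (hb i)⟩

variable [TopologicalSpace F] [IsTopologicalDivisionRing F]

theorem exists_nhd_of_poly {r : ℕ} (p : MvPolynomial (Fin r) F) (s : Fin r → F) (U : Set F)
    (hU : U ∈ 𝓝 (0 : F)) : ∃ V ∈ 𝓝 (0 : F), ∀ z : Fin r → F, (∀ i, z i ∈ V) →
      MvPolynomial.eval s p ≠ 0 →
      MvPolynomial.eval (fun i => s i + z i) p - MvPolynomial.eval s p ∈ U ∧
      (MvPolynomial.eval (fun i => s i + z i) p)⁻¹ - (MvPolynomial.eval s p)⁻¹ ∈ U := by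
  by_cases hne : MvPolynomial.eval s p = 0
  · exact ⟨univ, univ_mem, fun z _ h => absurd hne h⟩
  have hc : Continuous (fun z : Fin r → F => MvPolynomial.eval (fun i => s i + z i) p) := by
    have h1 := MvPolynomial.continuous_eval p
    have h2 : Continuous (fun z : Fin r → F => (fun i => s i + z i)) := by fun_prop
    exact h1.comp h2
  have h0 : MvPolynomial.eval (fun i => s i + (0 : Fin r → F) i) p = MvPolynomial.eval s p := by
    simp
  have ht : Tendsto (fun z : Fin r → F => MvPolynomial.eval (fun i => s i + z i) p) (𝓝 0)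
      (𝓝 (MvPolynomial.eval s p)) := by
    have := hc.tendsto 0
    rwa [h0] at this
  have ht1 : Tendsto (fun z : Fin r → F => MvPolynomial.eval (fun i => s i + z i) p
      - MvPolynomial.eval s p) (𝓝 0) (𝓝 0) := by
    have := ht.sub_const (MvPolynomial.eval s p)
    rwa [sub_self] at this
  have ht2 : Tendsto (fun z : Fin r → F => (MvPolynomial.eval (fun i => s i + z i) p)⁻¹
      - (MvPolynomial.eval s p)⁻¹) (𝓝 0) (𝓝 0) := by
    have := (ht.inv₀ hne).sub_const (MvPolynomial.eval s p)⁻¹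
    rwa [sub_self] at this
  have hev : {z : Fin r → F | MvPolynomial.eval (fun i => s i + z i) p
      - MvPolynomial.eval s p ∈ U ∧ (MvPolynomial.eval (fun i => s i + z i) p)⁻¹
      - (MvPolynomial.eval s p)⁻¹ ∈ U} ∈ 𝓝 (0 : Fin r → F) := inter_mem (ht1 hU) (ht2 hU)
  rw [nhds_pi, Filter.mem_pi] at hev
  obtain ⟨J, -, t, ht, htI⟩ := hev
  refine ⟨⋂ i, t i, ?_, fun z hz _ => ?_⟩
  · rw [Filter.iInter_mem]
    intro i
    exact ht i
  · have := htI (show z ∈ J.pi t from fun i _ => Set.mem_iInter.1 (hz i) i)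
    exact this

omit [TopologicalSpace F] [IsTopologicalDivisionRing F] in
theorem eval_bind {σ τ : Type*} (p : MvPolynomial σ F) (g : σ → MvPolynomial τ F) (row : τ → F) :
    MvPolynomial.eval row (MvPolynomial.bind₁ g p)
      = MvPolynomial.eval (fun i => MvPolynomial.eval row (g i)) p := by
  simp only [MvPolynomial.eval, MvPolynomial.eval₂Hom_bind₁]

theorem exists_row (hinf : ∀ W ∈ 𝓝 (0 : F), W.Infinite)
    (e : ℕ → Σ r : ℕ, MvPolynomial (Fin r) F) (U : Set F) (hU : U ∈ 𝓝 (0 : F))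
    (g : ℕ → ℕ → F) (n : ℕ) : ∃ row : ℕ → F, (∀ j, row j ∈ U) ∧
      ∀ k ≤ n, (e k).2 ≠ 0 → ∀ c ∈ Cpat (e k).1 g n, Function.Injective c.2 →
        MvPolynomial.eval (fun i => c.1 i + row (c.2 i)) (e k).2 ≠ 0 ∧
        (MvPolynomial.eval c.1 (e k).2 ≠ 0 →
          MvPolynomial.eval (fun i => c.1 i + row (c.2 i)) (e k).2
            - MvPolynomial.eval c.1 (e k).2 ∈ U ∧
          (MvPolynomial.eval (fun i => c.1 i + row (c.2 i)) (e k).2)⁻¹
            - (MvPolynomial.eval c.1 (e k).2)⁻¹ ∈ U) := by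
  classical
  haveI : Infinite F := Set.infinite_univ_iff.1 (hinf univ univ_mem)
  choose V hV hVc using fun (k : ℕ) (c : (Fin (e k).1 → F) × (Fin (e k).1 → ℕ)) =>
    exists_nhd_of_poly (e k).2 c.1 U hU
  let V' : Set F := U ∩ ⋂ k ∈ Finset.range (n + 1), ⋂ c ∈ Cpat (e k).1 g n, V k c
  have hV' : V' ∈ 𝓝 (0 : F) := by
    refine inter_mem hU ?_
    rw [Filter.biInter_finset_mem]
    intro k _
    rw [Filter.biInter_mem (Cpat_finite _ g n)]
    intro c _
    exact hV k c
  -- the polynomials in the entries of the row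
  let q : (k : ℕ) → ((Fin (e k).1 → F) × (Fin (e k).1 → ℕ)) → MvPolynomial ℕ F := fun k c =>
    if (e k).2 ≠ 0 ∧ Function.Injective c.2 then
      MvPolynomial.bind₁ (fun i => MvPolynomial.C (c.1 i) + MvPolynomial.X (c.2 i)) (e k).2
    else 1
  have hqev : ∀ (k : ℕ) (c : (Fin (e k).1 → F) × (Fin (e k).1 → ℕ)) (row : ℕ → F),
      MvPolynomial.eval row (MvPolynomial.bind₁
        (fun i => MvPolynomial.C (c.1 i) + MvPolynomial.X (c.2 i)) (e k).2)
        = MvPolynomial.eval (fun i => c.1 i + row (c.2 i)) (e k).2 := by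
    intro k c row
    rw [eval_bind]
    simp
  have hq0 : ∀ k c, q k c ≠ 0 := by
    intro k c
    simp only [q]
    split_ifs with h
    · obtain ⟨hne, hinj⟩ := h
      intro h0
      apply hne
      apply MvPolynomial.funext
      intro z
      rw [map_zero]
      have h1 := hqev k c (Function.extend c.2 (fun i => z i - c.1 i) 0)
      rw [h0, map_zero] at h1
      rw [h1]
      congr 2
      funext i
      rw [hinj.extend_apply]
      ring
    · exact one_ne_zero
  let Q : MvPolynomial ℕ F := ∏ k ∈ Finset.range (n + 1), ∏ c ∈ (Cpat_finite (e k).1 g n).toFinset,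
    q k c
  have hQ : Q ≠ 0 := by
    rw [Finset.prod_ne_zero_iff]
    intro k _
    rw [Finset.prod_ne_zero_iff]
    intro c _
    exact hq0 k c
  have hex : ∃ row : ℕ → F, (∀ j, row j ∈ V') ∧ MvPolynomial.eval row Q ≠ 0 := by
    by_contra hcon
    push Not at hcon
    apply hQ
    apply MvPolynomial.funext_set (fun _ => V') (fun _ => hinf V' hV')
    intro x hx
    rw [map_zero]
    exact hcon x (fun j => hx j (Set.mem_univ j))
  obtain ⟨row, hrow, hrowQ⟩ := hex
  refine ⟨row, fun j => (hrow j).1, fun k hk hne c hc hinj => ⟨?_, ?_⟩⟩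
  · rw [← hqev k c row]
    intro h0
    apply hrowQ
    simp only [Q, map_prod]
    apply Finset.prod_eq_zero (Finset.mem_range.2 (Nat.lt_succ_of_le hk))
    apply Finset.prod_eq_zero ((Set.Finite.mem_toFinset _).2 hc)
    simp only [q]
    rw [if_pos ⟨hne, hinj⟩]
    exact h0
  · intro hne0
    refine hVc k c (fun i => row (c.2 i)) (fun i => ?_) hne0
    have h1 := (hrow (c.2 i)).2
    simp only [Set.mem_iInter, Finset.mem_range] at h1
    exact h1 k (Nat.lt_succ_of_le hk) c hc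

omit [TopologicalSpace F] [IsTopologicalDivisionRing F] in
theorem tele (U : ℕ → Set F) (hadd : ∀ n, ∀ a ∈ U (n + 1), ∀ b ∈ U (n + 1), a + b ∈ U n)
    (h0 : ∀ n, (0 : F) ∈ U n) (a : ℕ → F) (M : ℕ) (h : ∀ n ≥ M + 1, a (n + 1) - a n ∈ U n) :
    ∀ N ≥ M + 1, a N - a (M + 1) ∈ U M := by
  have key : ∀ k : ℕ, ∀ z ∈ U (M + k), a (M + 1 + k) - a (M + 1) + z ∈ U M := by
    intro k
    induction k with
    | zero => intro z hz; simpa using hz
    | succ k ih =>
      intro z hz
      have h1 := h (M + 1 + k) (by omega)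
      have h2 : a (M + 1 + (k + 1)) - a (M + 1) + z
          = a (M + 1 + k) - a (M + 1) + ((a (M + 1 + k + 1) - a (M + 1 + k)) + z) := by
        rw [show M + 1 + (k + 1) = M + 1 + k + 1 by ring]
        ring
      rw [h2]
      apply ih
      apply hadd (M + k)
      · rw [show M + k + 1 = M + 1 + k by ring]
        exact h1
      · exact hz
  intro N hN
  obtain ⟨k, rfl⟩ := Nat.exists_eq_add_of_le hN
  have := key k 0 (h0 _)
  simpa using this

theorem exists_treeData [Countable F] (U : ℕ → Set F) (hU : ∀ n, U n ∈ 𝓝 (0 : F))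
    (hbasis : ∀ W ∈ 𝓝 (0 : F), ∃ n, U n ⊆ W)
    (hadd : ∀ n, ∀ a ∈ U (n + 1), ∀ b ∈ U (n + 1), a + b ∈ U n)
    (hinf : ∀ W ∈ 𝓝 (0 : F), W.Infinite) :
    ∃ y : ℕ → ℕ → F, TreeData (RingHom.id F) y := by
  classical
  have h0 : ∀ n, (0 : F) ∈ U n := fun n => mem_of_mem_nhds (hU n)
  haveI hcount : ∀ r : ℕ, Countable (MvPolynomial (Fin r) F) := by
    intro r
    rw [← Cardinal.mk_le_aleph0_iff]
    refine MvPolynomial.cardinalMk_le_max_lift.trans ?_
    simp
  obtain ⟨e, he⟩ := exists_surjective_nat (Σ r : ℕ, MvPolynomial (Fin r) F)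
  choose rw1 hrw1 hrw2 using fun (n : ℕ) (g : ℕ → ℕ → F) => exists_row hinf e (U n) (hU n) g n
  let G : ℕ → (ℕ → ℕ → F) := fun n => Nat.rec (fun _ _ => 0) (fun n g => Function.update g n (rw1 n g)) n
  have hG : ∀ n, G (n + 1) = Function.update (G n) n (rw1 n (G n)) := fun n => rfl
  let y : ℕ → ℕ → F := fun n => rw1 n (G n)
  have hGy : ∀ n m, m < n → G n m = y m := by
    intro n
    induction n with
    | zero => intro m hm; omega
    | succ n ih =>
      intro m hm
      rw [hG]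
      by_cases hmn : m = n
      · subst hmn
        simp [y]
      · rw [Function.update_of_ne hmn]
        exact ih m (by omega)
  have hSG : ∀ n b, S (G n) n b = S y n b := by
    intro n b
    simp only [S]
    refine Finset.sum_congr rfl fun m hm => ?_
    rw [hGy n m (Finset.mem_range.1 hm)]
  have hyU : ∀ n j, y n j ∈ U n := fun n j => hrw1 n (G n) j
  have hS1 : ∀ n b, S y (n + 1) b = S y n b + y n ⌊2 ^ n * b⌋₊ := by
    intro n b
    simp only [S, Finset.sum_range_succ]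
  -- the main property
  have key : ∀ n k, k ≤ n → (e k).2 ≠ 0 → ∀ b : Fin (e k).1 → ℝ, (∀ i, b i ∈ Icc (0 : ℝ) 2) →
      Function.Injective (fun i => ⌊2 ^ n * b i⌋₊) →
      MvPolynomial.eval (fun i => S y (n + 1) (b i)) (e k).2 ≠ 0 ∧
      (MvPolynomial.eval (fun i => S y n (b i)) (e k).2 ≠ 0 →
        MvPolynomial.eval (fun i => S y (n + 1) (b i)) (e k).2
          - MvPolynomial.eval (fun i => S y n (b i)) (e k).2 ∈ U n ∧
        (MvPolynomial.eval (fun i => S y (n + 1) (b i)) (e k).2)⁻¹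
          - (MvPolynomial.eval (fun i => S y n (b i)) (e k).2)⁻¹ ∈ U n) := by
    intro n k hk hne b hb hinj
    have := hrw2 n (G n) k hk hne (fun i => S y n (b i), fun i => ⌊2 ^ n * b i⌋₊)
      ⟨b, hb, by funext i; exact (hSG n (b i)).symm, rfl⟩ hinj
    simp only [hS1]
    exact this
  -- separation of labels
  have hsep : ∀ (r : ℕ) (f : Fin r → unitInterval), Function.Injective f → ∃ m : ℕ, ∀ n ≥ m,
      ∀ ω ∈ Icc (0 : ℝ) 1, Function.Injective (fun i => ⌊2 ^ n * (ω + (f i : ℝ))⌋₊) := by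
    intro r f hf
    have h1 : ∀ i j : Fin r, ∃ m : ℕ, i ≠ j → 1 ≤ 2 ^ m * |(f i : ℝ) - f j| := by
      intro i j
      by_cases hij : i = j
      · exact ⟨0, fun h => absurd hij h⟩
      · have hpos : 0 < |(f i : ℝ) - f j| := by
          rw [abs_pos, sub_ne_zero]
          intro h
          exact hij (hf (Subtype.ext h))
        obtain ⟨m, hm⟩ := pow_unbounded_of_one_lt (1 / |(f i : ℝ) - f j|) (one_lt_two)
        refine ⟨m, fun _ => ?_⟩
        rw [div_lt_iff₀ hpos] at hm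
        exact hm.le
    choose m hm using h1
    refine ⟨∑ i, ∑ j, m i j, fun n hn ω hω i j hij => ?_⟩
    by_contra hne
    have h2 := hm i j hne
    have h3 : m i j ≤ n := by
      refine le_trans ?_ hn
      refine le_trans ?_ (Finset.single_le_sum (f := fun i => ∑ j, m i j)
        (fun _ _ => Nat.zero_le _) (Finset.mem_univ i))
      exact Finset.single_le_sum (f := fun j => m i j) (fun _ _ => Nat.zero_le _)
        (Finset.mem_univ j)
    have h4 : (1 : ℝ) ≤ 2 ^ n * |(f i : ℝ) - f j| :=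
      h2.trans (mul_le_mul_of_nonneg_right (pow_le_pow_right₀ one_le_two h3) (abs_nonneg _))
    simp only at hij
    have hfi := (f i).2
    have hfj := (f j).2
    have a1 := Nat.floor_le (show (0 : ℝ) ≤ 2 ^ n * (ω + (f i : ℝ)) from
      mul_nonneg (by positivity) (by linarith [hω.1, hfi.1]))
    have a2 := Nat.lt_floor_add_one (2 ^ n * (ω + (f i : ℝ)))
    have a3 := Nat.floor_le (show (0 : ℝ) ≤ 2 ^ n * (ω + (f j : ℝ)) from
      mul_nonneg (by positivity) (by linarith [hω.1, hfj.1]))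
    have a4 := Nat.lt_floor_add_one (2 ^ n * (ω + (f j : ℝ)))
    rw [hij] at a1 a2
    have h5 : |2 ^ n * (ω + (f i : ℝ)) - 2 ^ n * (ω + (f j : ℝ))| < 1 := by
      rw [abs_sub_lt_iff]
      constructor <;> linarith
    have h6 : |2 ^ n * (ω + (f i : ℝ)) - 2 ^ n * (ω + (f j : ℝ))|
        = 2 ^ n * |(f i : ℝ) - f j| := by
      rw [show (2 : ℝ) ^ n * (ω + (f i : ℝ)) - 2 ^ n * (ω + (f j : ℝ))
        = 2 ^ n * ((f i : ℝ) - f j) by ring, abs_mul, abs_of_pos (by positivity)]
    linarith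
  -- consequences for polynomials in the variables indexed by `[0,1]`
  have main : ∀ P : MvPolynomial unitInterval F, P ≠ 0 → ∃ N₀ : ℕ, ∀ N ≥ N₀, ∀ ω ∈ Icc (0 : ℝ) 1,
      pev (RingHom.id F) y (N, ω) P ≠ 0 ∧
      pev (RingHom.id F) y (N + 1, ω) P - pev (RingHom.id F) y (N, ω) P ∈ U N ∧
      (pev (RingHom.id F) y (N + 1, ω) P)⁻¹ - (pev (RingHom.id F) y (N, ω) P)⁻¹ ∈ U N := by
    intro P hP
    obtain ⟨r, f, hf, q, rfl⟩ := MvPolynomial.exists_fin_rename P
    have hq : q ≠ 0 := by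
      rintro rfl
      exact hP (map_zero _)
    obtain ⟨k, hk⟩ := he ⟨r, q⟩
    obtain ⟨m, hm⟩ := hsep r f hf
    have hpev : ∀ (N : ℕ) (ω : ℝ), pev (RingHom.id F) y (N, ω) (MvPolynomial.rename f q)
        = MvPolynomial.eval (fun i => S y N (ω + (f i : ℝ))) q := by
      intro N ω
      simp only [pev, MvPolynomial.coe_eval₂Hom, MvPolynomial.eval₂_rename, MvPolynomial.eval]
      rfl
    have key' : ∀ n, k ≤ n → m ≤ n → ∀ ω ∈ Icc (0 : ℝ) 1,
        MvPolynomial.eval (fun i => S y (n + 1) (ω + (f i : ℝ))) q ≠ 0 ∧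
        (MvPolynomial.eval (fun i => S y n (ω + (f i : ℝ))) q ≠ 0 →
          MvPolynomial.eval (fun i => S y (n + 1) (ω + (f i : ℝ))) q
            - MvPolynomial.eval (fun i => S y n (ω + (f i : ℝ))) q ∈ U n ∧
          (MvPolynomial.eval (fun i => S y (n + 1) (ω + (f i : ℝ))) q)⁻¹
            - (MvPolynomial.eval (fun i => S y n (ω + (f i : ℝ))) q)⁻¹ ∈ U n) := by
      intro n hkn hmn ω hω
      have h1 := key n k hkn
      rw [hk] at h1
      refine h1 hq (fun i => ω + (f i : ℝ)) (fun i => ?_) (hm n hmn ω hω)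
      have := (f i).2
      constructor
      · linarith [hω.1, this.1]
      · linarith [hω.2, this.2]
    refine ⟨max k m + 1, fun N hN ω hω => ?_⟩
    obtain ⟨n, rfl⟩ : ∃ n, N = n + 1 := ⟨N - 1, by omega⟩
    have hkn : k ≤ n := by omega
    have hmn : m ≤ n := by omega
    simp only [hpev]
    have hne := (key' n hkn hmn ω hω).1
    exact ⟨hne, (key' (n + 1) (by omega) (by omega) ω hω).2 hne⟩
  refine ⟨y, ?_, ?_, ?_, ?_⟩
  · intro P hP
    obtain ⟨N₀, h⟩ := main P hP
    exact ⟨N₀, fun N hN ω hω => (h N hN ω hω).1⟩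
  · intro P hP W hW
    obtain ⟨N₀, h⟩ := main P hP
    obtain ⟨n₀, hn₀⟩ := hbasis W hW
    refine ⟨N₀ + n₀ + 1, fun N hN ω hω => ?_⟩
    have hUs : U (N₀ + n₀) ⊆ U n₀ := by
      have hmono : ∀ k, U (n₀ + k) ⊆ U n₀ := by
        intro k
        induction k with
        | zero => exact Subset.rfl
        | succ k ih =>
          intro z hz
          apply ih
          have := hadd (n₀ + k) z hz 0 (h0 _)
          rwa [add_zero] at this
      rw [add_comm]
      exact hmono N₀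
    exact hn₀ (hUs (tele U hadd h0 (fun N => pev (RingHom.id F) y (N, ω) P) (N₀ + n₀)
      (fun n hn => (h n (by omega) ω hω).2.1) N hN))
  · intro P hP W hW
    obtain ⟨N₀, h⟩ := main P hP
    obtain ⟨n₀, hn₀⟩ := hbasis W hW
    refine ⟨N₀ + n₀ + 1, fun N hN ω hω => ?_⟩
    have hUs : U (N₀ + n₀) ⊆ U n₀ := by
      have hmono : ∀ k, U (n₀ + k) ⊆ U n₀ := by
        intro k
        induction k with
        | zero => exact Subset.rfl
        | succ k ih =>
          intro z hz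
          apply ih
          have := hadd (n₀ + k) z hz 0 (h0 _)
          rwa [add_zero] at this
      rw [add_comm]
      exact hmono N₀
    exact hn₀ (hUs (tele U hadd h0 (fun N => (pev (RingHom.id F) y (N, ω) P)⁻¹) (N₀ + n₀)
      (fun n hn => (h n (by omega) ω hω).2.2) N hN))
  · intro W hW
    obtain ⟨n₀, hn₀⟩ := hbasis W hW
    refine ⟨n₀ + 1, fun N hN b _ => ?_⟩
    exact hn₀ (tele U hadd h0 (fun N => S y N b) n₀ (fun n _ => by
      simp only [hS1, add_sub_cancel_left]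
      exact hyU n _) N hN)

end

end Pool.Agent.TopF
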