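import Pool.Agent.TopF.Coarse

/-!
# Discrete fields
-/

set_option autoImplicit false

open Topology Filter Set
open scoped WithZero

namespace Pool.Agent.TopF

theorem xval_C (F : Type*) [Field F] (a : F) (ha : a ≠ 0) :
    (Polynomial.idealX F).valuation (RatFunc F) (RatFunc.C a) = 1 := by
  have h1 : ∀ b : F, (Polynomial.idealX F).valuation (RatFunc F) (RatFunc.C b) ≤ 1 := by
    intro b
    have : (RatFunc.C b : RatFunc F) = algebraMap (Polynomial F) (RatFunc F) (Polynomial.C b) := by
      simp
    rw [this]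
    exact IsDedekindDomain.HeightOneSpectrum.valuation_le_one _ _
  have h2 : (Polynomial.idealX F).valuation (RatFunc F) (RatFunc.C a)
      * (Polynomial.idealX F).valuation (RatFunc F) (RatFunc.C a⁻¹) = 1 := by
    rw [← map_mul, ← map_mul, mul_inv_cancel₀ ha, map_one, map_one]
  have h3 := h1 a
  have h4 := h1 a⁻¹
  apply le_antisymm h3
  by_contra hcon
  have hlt : (Polynomial.idealX F).valuation (RatFunc F) (RatFunc.C a) < 1 := not_le.1 hcon
  have : (Polynomial.idealX F).valuation (RatFunc F) (RatFunc.C a)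
      * (Polynomial.idealX F).valuation (RatFunc F) (RatFunc.C a⁻¹) < 1 :=
    mul_lt_one_of_lt_of_le hlt h4
  exact this.ne h2

theorem pathGood_discrete (F : Type*) [Field F] [τ : TopologicalSpace F] [DiscreteTopology F] :
    PathGood F τ := by
  let v := (Polynomial.idealX F).valuation (RatFunc F)
  let c : ℕ → RatFunc F := fun n => RatFunc.X ^ n
  have hvX : ∀ n, v (c n) = WithZero.exp (-(n : ℤ)) := by
    intro n
    simp only [c, v, map_pow, Polynomial.valuation_X_eq_neg_one]
    rw [← WithZero.exp_nsmul]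
    congr 1
    simp
  have hc : ∀ n, c n ≠ 0 := fun n => pow_ne_zero _ RatFunc.X_ne_zero
  have hc1 : ∀ n, v (c n) ≤ 1 := by
    intro n
    rw [hvX, ← WithZero.exp_zero, WithZero.exp_le_exp]
    omega
  have hanti : Antitone (fun n => v (c n)) := by
    intro m n hmn
    simp only [hvX, WithZero.exp_le_exp]
    omega
  have hcof : ∀ a : RatFunc F, a ≠ 0 → ∃ n, v (c n) < v a := by
    intro a ha
    obtain ⟨n, hn⟩ := WithZero.exists_exp_neg_natCast_lt ((Valuation.ne_zero_iff v).2 ha)
    exact ⟨n, by rw [hvX]; exact hn⟩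
  letI : TopologicalSpace (GE (RatFunc F)) := (valBase (gaussFrac (ι := ℕ × ℕ) v)).top
  haveI : IsTopologicalDivisionRing (GE (RatFunc F)) :=
    (valBase (gaussFrac (ι := ℕ × ℕ) v)).isTopologicalDivisionRing
  haveI : IsTopologicalDivisionRing F :=
    { toIsTopologicalRing := inferInstance
      toContinuousInv₀ := ⟨fun a _ => continuous_of_discreteTopology.continuousAt⟩ }
  refine ((treeData_val v c hc hc1 hanti hcof).comp (RatFunc.C : F →+* RatFunc F)).pathGood ?_
  apply isInducing_of_zero
  rw [nhds_discrete]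
  apply le_antisymm
  · rw [← map_le_iff_le_comap, Filter.map_pure, map_zero]
    exact pure_le_nhds 0
  · rw [Filter.le_pure_iff, mem_comap]
    refine ⟨{x | gaussFrac v x < gaussFrac v 1}, (valBase_mem _).2 ⟨1, one_ne_zero, Subset.rfl⟩,
      fun x hx => ?_⟩
    by_contra hne
    have hx0 : x ≠ 0 := hne
    simp only [Set.mem_preimage, Set.mem_ofPred_eq, RingHom.comp_apply, w_gphi, map_one] at hx
    have h1 := xval_C F x hx0
    change v (RatFunc.C x) < 1 at hx
    change v (RatFunc.C x) = 1 at h1
    exact hx.ne h1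

end Pool.Agent.TopF
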