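import Pool.Agent.TopF.PExt
import Pool.Agent.TopF.Coarse
import Pool.Agent.TopF.Cantor

/-!
# Classes of topological fields which embed in connected topological fields
-/

set_option autoImplicit false

open Topology Filter Set

namespace Pool.Agent.TopF

/-- `τ` is the topology of the valuation `v`: the sets `{x | v x < v a}` with `a ≠ 0` are a base of
neighbourhoods of zero. -/
def IsValuationTopology {F Γ₀ : Type} [Field F] [LinearOrderedCommGroupWithZero Γ₀]
    (v : Valuation F Γ₀) (τ : TopologicalSpace F) : Prop :=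
  @IsTopologicalDivisionRing F _ τ ∧
    ∀ W : Set F, W ∈ @nhds F τ 0 ↔ ∃ a : F, a ≠ 0 ∧ {x | v x < v a} ⊆ W

/-- The smallest class of field topologies which contains all field topologies of countable fields,
the topologies of valuations of countable cofinality, the Hausdorff field topologies for which
there is a Cantor set in the field, and which is closed under passing to subfields and under
suprema of arbitrary families of topologies on the same field. -/
inductive Tame : ∀ (F : Type) [Field F], TopologicalSpace F → Prop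
  | countable (F : Type) [Field F] [Countable F] (τ : TopologicalSpace F)
      (h : @IsTopologicalDivisionRing F _ τ) : Tame F τ
  | valuation (F Γ₀ : Type) [Field F] [LinearOrderedCommGroupWithZero Γ₀] (v : Valuation F Γ₀)
      (τ : TopologicalSpace F) (h : IsValuationTopology v τ)
      (c : ℕ → F) (hc : ∀ n, c n ≠ 0) (hcof : ∀ a : F, a ≠ 0 → ∃ n, v (c n) < v a) : Tame F τ
  | cantor (F : Type) [Field F] (τ : TopologicalSpace F) (h : @IsTopologicalDivisionRing F _ τ)
      (hT : @T2Space F τ) (c : (ℕ → Bool) → F) (hc : @Continuous (ℕ → Bool) F _ τ c)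
      (hci : Function.Injective c) : Tame F τ
  | sub (F E : Type) [Field F] [Field E] (τ : TopologicalSpace F) (σ : TopologicalSpace E)
      (φ : F →+* E) (hφ : @IsInducing F E τ σ φ) (hE : Tame E σ) : Tame F τ
  | sup (F ι : Type) [Field F] (τ : ι → TopologicalSpace F) (h : ∀ i, Tame F (τ i)) :
      Tame F (⨅ i, τ i)

section

variable {F : Type} [Field F]

theorem t1_or_top [TopologicalSpace F] [IsTopologicalDivisionRing F]
    (h : ∃ W ∈ 𝓝 (0 : F), W ≠ Set.univ) : ∀ x : F, x ≠ 0 → ∃ V ∈ 𝓝 (0 : F), x ∉ V := by
  obtain ⟨W, hW, hWne⟩ := h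
  intro x hx
  obtain ⟨y, hy⟩ := (Set.ne_univ_iff_exists_notMem W).1 hWne
  have h1 : Tendsto (fun w : F => y * x⁻¹ * w) (𝓝 0) (𝓝 0) := by
    have := (continuous_const_mul (y * x⁻¹)).tendsto 0
    rwa [mul_zero] at this
  refine ⟨_, h1 hW, fun h => hy ?_⟩
  simp only [Set.mem_preimage] at h
  rwa [mul_assoc, inv_mul_cancel₀ hx, mul_one] at h

theorem t2_of_nonuniv [TopologicalSpace F] [IsTopologicalDivisionRing F]
    (h : ∃ W ∈ 𝓝 (0 : F), W ≠ Set.univ) : T2Space F :=
  IsTopologicalAddGroup.t2Space_of_zero_sep (t1_or_top h)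

theorem eq_top_of_univ [τ : TopologicalSpace F] [IsTopologicalDivisionRing F]
    (hT : ∀ W ∈ 𝓝 (0 : F), W = Set.univ) : τ = ⊤ := by
  rw [TopologicalSpace.ext_iff_isClosed]
  have htop : ∀ s : Set F, IsOpen s → s = ∅ ∨ s = Set.univ := by
    intro s hs
    by_cases hne : s = ∅
    · exact Or.inl hne
    · right
      obtain ⟨x, hx⟩ := Set.nonempty_iff_ne_empty.2 hne
      have h1 : {w : F | x + w ∈ s} ∈ 𝓝 (0 : F) := by
        have : Tendsto (fun w : F => x + w) (𝓝 0) (𝓝 x) := by
          have := (continuous_const_add x).tendsto 0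
          rwa [add_zero] at this
        exact this (hs.mem_nhds hx)
      have h2 := hT _ h1
      refine Set.eq_univ_of_forall fun y => ?_
      have h3 : y - x ∈ {w : F | x + w ∈ s} := by rw [h2]; trivial
      simpa using h3
  intro s
  constructor
  · intro hs
    rcases htop sᶜ hs.isOpen_compl with h | h
    · rw [Set.compl_empty_iff.1 h]
      exact @isClosed_univ F ⊤
    · rw [Set.compl_univ_iff.1 h]
      exact @isClosed_empty F ⊤
  · intro hs
    have hs' : @IsOpen F ⊤ sᶜ := hs.isOpen_compl
    rw [TopologicalSpace.isOpen_top_iff] at hs'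
    rcases hs' with h | h
    · rw [Set.compl_empty_iff.1 h]
      exact isClosed_univ
    · rw [Set.compl_univ_iff.1 h]
      exact isClosed_empty

theorem pathGood_top (F : Type) [Field F] : PathGood F ⊤ := by
  refine ⟨⊤, ?_, ?_, ?_⟩
  · letI : TopologicalSpace (KK F) := ⊤
    exact { continuous_add := continuous_top
            continuous_mul := continuous_top
            continuous_neg := continuous_top
            continuousAt_inv₀ := fun a _ => continuous_top.continuousAt }
  · refine @IsInducing.mk F (KK F) ⊤ ⊤ _ ?_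
    rw [induced_top]
  · exact continuous_top

theorem infinite_nhds [TopologicalSpace F] [IsTopologicalDivisionRing F]
    (h : ∃ W ∈ 𝓝 (0 : F), W ≠ Set.univ) (hd : ¬ DiscreteTopology F) :
    ∀ W ∈ 𝓝 (0 : F), W.Infinite := by
  intro W hW hfin
  apply hd
  choose! V hV hxV using t1_or_top h
  rw [discreteTopology_iff_isOpen_singleton_zero, isOpen_singleton_iff_nhds_eq_pure]
  refine le_antisymm ?_ (pure_le_nhds 0)
  rw [Filter.le_pure_iff]
  have h2 : (⋂ x ∈ {x ∈ W | x ≠ 0}, V x) ∈ 𝓝 (0 : F) := by
    rw [Filter.biInter_mem (hfin.subset (Set.sep_subset _ _))]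
    intro x hx
    exact hV x hx.2
  refine Filter.mem_of_superset (inter_mem hW h2) (fun x hx => ?_)
  by_contra hne
  have hne' : x ≠ 0 := hne
  exact hxV x hne' (Set.mem_iInter₂.1 hx.2 x ⟨hx.1, hne'⟩)

theorem pathGood_of_countable [Countable F] [τ : TopologicalSpace F]
    [IsTopologicalDivisionRing F] : PathGood F τ := by
  by_cases h : ∃ W ∈ 𝓝 (0 : F), W ≠ Set.univ
  · by_cases hd : DiscreteTopology F
    · exact pathGood_discrete F
    · exact pathGood_countable (infinite_nhds h hd)
  · push Not at h
    rw [eq_top_of_univ h]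
    exact pathGood_top F

theorem exists_antitone {Γ₀ : Type} [LinearOrderedCommGroupWithZero Γ₀] (v : Valuation F Γ₀)
    (c : ℕ → F) (hc : ∀ n, c n ≠ 0) : ∃ d : ℕ → F, (∀ n, d n ≠ 0) ∧ (∀ n, v (d n) ≤ 1) ∧
      Antitone (fun n => v (d n)) ∧ ∀ n, v (d (n + 1)) ≤ v (c n) := by
  classical
  let d : ℕ → F := fun n => Nat.rec 1 (fun n x => if v (c n) < v x then c n else x) n
  have hd0 : d 0 = 1 := rfl
  have hds : ∀ n, d (n + 1) = if v (c n) < v (d n) then c n else d n := fun n => rfl
  have hanti : Antitone (fun n => v (d n)) := by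
    refine antitone_nat_of_succ_le fun n => ?_
    rw [hds]
    split_ifs with h
    · exact h.le
    · exact le_rfl
  refine ⟨d, ?_, ?_, hanti, ?_⟩
  · intro n
    induction n with
    | zero => rw [hd0]; exact one_ne_zero
    | succ n ih =>
      rw [hds]
      split_ifs
      · exact hc n
      · exact ih
  · intro n
    have := hanti (Nat.zero_le n)
    simpa [hd0] using this
  · intro n
    rw [hds]
    split_ifs with h
    · exact le_rfl
    · exact not_lt.1 h

theorem Tame.pathGood {F : Type} {iF : Field F} {τ : TopologicalSpace F} (h : @Tame F iF τ) :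
    PathGood F τ := by
  induction h with
  | countable F τ h =>
    letI := τ
    haveI := h
    exact pathGood_of_countable
  | valuation F Γ₀ v τ h c hc hcof =>
    letI := τ
    haveI := h.1
    obtain ⟨d, hd, hd1, hanti, hdc⟩ := exists_antitone v c hc
    refine pathGood_val v h.2 d hd hd1 hanti (fun a ha => ?_)
    obtain ⟨n, hn⟩ := hcof a ha
    exact ⟨n + 1, (hdc n).trans_lt hn⟩
  | cantor F τ h hT c hc hci =>
    letI := τ
    haveI := h
    let e : ZMod 2 → Bool := fun x => decide (x = 1)
    have he : Function.Injective e := by decide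
    have hec : Continuous e := continuous_of_discreteTopology
    exact pathGood_cantor (fun x : CC => c (fun n => e (x n)))
      (hc.comp (continuous_pi fun n => hec.comp (continuous_apply n)))
      (fun x y hxy => by
        have h1 := hci hxy
        funext n
        exact he (congrFun h1 n))
  | sub F E τ σ φ hφ _ ih => exact PathGood.comap φ hφ ih
  | sup F ι τ _ ih => exact pathGood_iInf τ ih

/-- the dichotomy for valuation topologies -/
theorem valuation_dichotomy {Γ₀ : Type} [LinearOrderedCommGroupWithZero Γ₀] (v : Valuation F Γ₀)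
    (τ : TopologicalSpace F) (h : IsValuationTopology v τ) :
    Tame F τ ∨ CountableInterFilter (@nhds F τ 0) := by
  by_cases hc : ∃ c : ℕ → F, (∀ n, c n ≠ 0) ∧ ∀ a : F, a ≠ 0 → ∃ n, v (c n) < v a
  · obtain ⟨c, hc, hcof⟩ := hc
    exact Or.inl (Tame.valuation F Γ₀ v τ h c hc hcof)
  · right
    push Not at hc
    letI := τ
    refine ⟨fun S hS hmem => ?_⟩
    rcases S.eq_empty_or_nonempty with rfl | hne
    · simp
    choose a ha haW using fun s : S => (h.2 s.1).1 (hmem s.1 s.2)
    haveI : Countable S := hS.to_subtype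
    haveI : Nonempty S := hne.to_subtype
    obtain ⟨g, hg⟩ := exists_surjective_nat S
    obtain ⟨b, hb, hbc⟩ := hc (fun n => a (g n)) (fun n => ha _)
    refine (h.2 _).2 ⟨b, hb, fun x hx s hs => ?_⟩
    obtain ⟨n, hn⟩ := hg ⟨s, hs⟩
    have h1 := hbc n
    have h2 : v x < v (a ⟨s, hs⟩) := by
      rw [← hn]
      exact lt_of_lt_of_le hx h1
    exact haW ⟨s, hs⟩ h2

/-- completely metrizable topological fields are discrete or contain a Cantor set -/
theorem completelyMetrizable_dichotomy [τ : TopologicalSpace F] [IsTopologicalDivisionRing F]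
    [TopologicalSpace.IsCompletelyMetrizableSpace F] :
    Tame F τ ∨ CountableInterFilter (𝓝 (0 : F)) := by
  by_cases hd : DiscreteTopology F
  · right
    rw [nhds_discrete]
    refine ⟨fun S _ hS => ?_⟩
    rw [Filter.mem_pure]
    intro s hs
    exact Filter.mem_pure.1 (hS s hs)
  · left
    obtain ⟨m, hm, hc⟩ := (inferInstance : TopologicalSpace.IsCompletelyMetrizableSpace F)
    subst hm
    letI := m
    haveI := hc
    have hacc : ∀ x : F, AccPt x (𝓟 Set.univ) := by
      intro x
      rw [accPt_iff_nhds]
      intro W hW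
      by_contra hcon
      push Not at hcon
      apply hd
      rw [discreteTopology_iff_isOpen_singleton_zero, isOpen_singleton_iff_nhds_eq_pure]
      refine le_antisymm ?_ (pure_le_nhds 0)
      rw [Filter.le_pure_iff]
      have h1 : Tendsto (fun w : F => x + w) (𝓝 0) (𝓝 x) := by
        have := (continuous_const_add x).tendsto 0
        rwa [add_zero] at this
      refine Filter.mem_of_superset (h1 hW) (fun w hw => ?_)
      have h2 := hcon (x + w) ⟨hw, Set.mem_univ _⟩
      simpa using h2
    have hperf : Perfect (Set.univ : Set F) := ⟨isClosed_univ, fun x _ => hacc x⟩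
    obtain ⟨f, -, hf, hfi⟩ := hperf.exists_nat_bool_injection ⟨0, trivial⟩
    exact Tame.cantor F _ inferInstance inferInstance f hf hfi

/-- inducing maps out of Hausdorff topological fields are embeddings in Hausdorff fields -/
theorem embed_of_inducing {K : Type} [Field K] [TopologicalSpace K] [IsTopologicalDivisionRing K]
    [TopologicalSpace F] [IsTopologicalDivisionRing F] [T2Space F] (f : F →+* K)
    (hf : IsInducing f) : T2Space K ∧ IsEmbedding f := by
  refine ⟨t2_of_nonuniv ?_, hf, f.injective⟩
  have h1 : {x : F | x ≠ 1} ∈ 𝓝 (0 : F) := isOpen_ne.mem_nhds zero_ne_one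
  rw [hf.nhds_eq_comap, mem_comap, map_zero] at h1
  obtain ⟨W, hW, h⟩ := h1
  refine ⟨W, hW, fun hu => ?_⟩
  have : (1 : F) ∈ f ⁻¹' W := by rw [hu]; trivial
  exact h this rfl

/-- the main theorem -/
theorem main_embedding (F : Type) [Field F] [τ : TopologicalSpace F] [IsTopologicalDivisionRing F]
    [T2Space F] (h : Tame F τ ∨ CountableInterFilter (𝓝 (0 : F)) ∨
      TopologicalSpace.IsCompletelyMetrizableSpace F ∨
      ∃ (Γ₀ : Type) (_ : LinearOrderedCommGroupWithZero Γ₀) (v : Valuation F Γ₀),
        IsValuationTopology v τ) :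
    ∃ (K : Type) (_ : Field K) (_ : TopologicalSpace K), IsTopologicalDivisionRing K ∧
      T2Space K ∧ ConnectedSpace K ∧ ∃ f : F →+* K, IsEmbedding f := by
  have key : Tame F τ ∨ CountableInterFilter (𝓝 (0 : F)) := by
    rcases h with h | h | h | ⟨Γ₀, i, v, h⟩
    · exact Or.inl h
    · exact Or.inr h
    · exact completelyMetrizable_dichotomy
    · exact valuation_dichotomy v τ h
  rcases key with h | h
  · obtain ⟨t, h1, h2, h3⟩ := h.pathGood.exists
    letI := t
    obtain ⟨h4, h5⟩ := embed_of_inducing (jj F) h3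
    exact ⟨KK F, inferInstance, t, h1, h4, inferInstance, jj F, h5⟩
  · obtain ⟨K, iF, iT, h1, h2, f, h3⟩ := exists_connected_of_countableInter F h
    obtain ⟨h4, h5⟩ := embed_of_inducing f h3
    exact ⟨K, iF, iT, h1, h4, h2, f, h5⟩

end

end Pool.Agent.TopF
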