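import Pool.Agent.TopF.Meas

/-!
# Evaluations of the fraction field of a domain from evaluations of the domain
-/

set_option autoImplicit false

open Topology Filter Set
open scoped ENNReal

namespace Pool.Agent.TopF

section

variable {R E X : Type*} [CommRing R] [IsDomain R] [Field E]

theorem exists_frac (a : FractionRing R) : ∃ p : R × R,
    p.2 ≠ 0 ∧ algebraMap R (FractionRing R) p.1 = a * algebraMap R (FractionRing R) p.2 := by
  obtain ⟨x, z, hz, h⟩ := IsFractionRing.div_surjective R a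
  have hz0 : z ≠ 0 := nonZeroDivisors.ne_zero hz
  refine ⟨(x, z), hz0, ?_⟩
  have : algebraMap R (FractionRing R) z ≠ 0 := by
    simpa using hz0
  rw [← h]
  field_simp

/-- a numerator -/
noncomputable def nmr (a : FractionRing R) : R := (exists_frac a).choose.1

/-- a denominator -/
noncomputable def dnr (a : FractionRing R) : R := (exists_frac a).choose.2

theorem dnr_ne (a : FractionRing R) : dnr a ≠ 0 := (exists_frac a).choose_spec.1

theorem nmr_eq (a : FractionRing R) :
    algebraMap R (FractionRing R) (nmr a) = a * algebraMap R (FractionRing R) (dnr a) :=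
  (exists_frac a).choose_spec.2

/-- evaluation of fractions -/
noncomputable def evf (h : X → R →+* E) (a : FractionRing R) (x : X) : E :=
  h x (nmr a) / h x (dnr a)

variable {μ : Subm X} {h : X → R →+* E}

theorem evf_eq (hne : ∀ P : R, P ≠ 0 → ∀ᶠ x in μ.ae, h x P ≠ 0) {P Q : R} (hQ : Q ≠ 0)
    (a : FractionRing R) (ha : algebraMap R (FractionRing R) P = a * algebraMap R (FractionRing R) Q) :
    ∀ᶠ x in μ.ae, evf h a x = h x P / h x Q := by
  have h1 : nmr a * Q = P * dnr a := by
    apply IsFractionRing.injective R (FractionRing R)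
    rw [map_mul, map_mul, ha, nmr_eq]
    ring
  filter_upwards [hne _ hQ, hne _ (dnr_ne a)] with x hx1 hx2
  rw [evf, div_eq_div_iff hx2 hx1, ← map_mul, ← map_mul, h1]

theorem evf_alg (hne : ∀ P : R, P ≠ 0 → ∀ᶠ x in μ.ae, h x P ≠ 0) (P : R) :
    ∀ᶠ x in μ.ae, evf h (algebraMap R (FractionRing R) P) x = h x P := by
  filter_upwards [evf_eq hne (P := P) (Q := 1) one_ne_zero (algebraMap R (FractionRing R) P)
    (by rw [map_one, mul_one])] with x hx
  rw [hx, map_one, div_one]

theorem evf_add (hne : ∀ P : R, P ≠ 0 → ∀ᶠ x in μ.ae, h x P ≠ 0) (a b : FractionRing R) :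
    ∀ᶠ x in μ.ae, evf h (a + b) x = evf h a x + evf h b x := by
  have h1 : algebraMap R (FractionRing R) (nmr a * dnr b + nmr b * dnr a)
      = (a + b) * algebraMap R (FractionRing R) (dnr a * dnr b) := by
    rw [map_add, map_mul, map_mul, map_mul, nmr_eq, nmr_eq]
    ring
  filter_upwards [evf_eq hne (mul_ne_zero (dnr_ne a) (dnr_ne b)) (a + b) h1, hne _ (dnr_ne a),
    hne _ (dnr_ne b)] with x hx h1 h2
  rw [hx, evf, evf, map_add, map_mul, map_mul, map_mul]
  field_simp

theorem evf_mul (hne : ∀ P : R, P ≠ 0 → ∀ᶠ x in μ.ae, h x P ≠ 0) (a b : FractionRing R) :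
    ∀ᶠ x in μ.ae, evf h (a * b) x = evf h a x * evf h b x := by
  have h1 : algebraMap R (FractionRing R) (nmr a * nmr b)
      = (a * b) * algebraMap R (FractionRing R) (dnr a * dnr b) := by
    rw [map_mul, map_mul, nmr_eq, nmr_eq]
    ring
  filter_upwards [evf_eq hne (mul_ne_zero (dnr_ne a) (dnr_ne b)) (a * b) h1, hne _ (dnr_ne a),
    hne _ (dnr_ne b)] with x hx h1 h2
  rw [hx, evf, evf, map_mul, map_mul]
  field_simp

/-- the evaluation structure on the fraction field -/
noncomputable def fracEval [TopologicalSpace E] (μ : Subm X) (h : X → R →+* E)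
    (hne : ∀ P : R, P ≠ 0 → ∀ᶠ x in μ.ae, h x P ≠ 0)
    (hb : ∀ P Q : R, Q ≠ 0 → ∀ U ∈ 𝓝 (0 : E), ∀ ε : ℝ≥0∞, 0 < ε → ∃ V ∈ 𝓝 (0 : E),
      μ.m {x | ∃ v ∈ V, h x P / h x Q * v ∉ U} < ε) :
    Eval (FractionRing R) E X μ where
  ev := evf h
  add := evf_add hne
  mul := evf_mul hne
  one := by
    filter_upwards [evf_alg hne 1] with x hx
    rwa [map_one, map_one] at hx
  bdd := fun a U hU ε hε => hb (nmr a) (dnr a) (dnr_ne a) U hU ε hε

end

end Pool.Agent.TopF
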