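import Pool.Agent.TopF.Tree

/-!
# Gauss valuations on polynomial rings in arbitrarily many variables
-/

set_option autoImplicit false

open Topology Filter Set

namespace Pool.Agent.TopF

section

variable {K Γ₀ : Type*} [Field K] [LinearOrderedCommGroupWithZero Γ₀]

/-- The base of neighbourhoods of zero of the topology of a valuation. -/
def valBase (v : Valuation K Γ₀) : FieldBase K where
  B := {S | ∃ a : K, a ≠ 0 ∧ S = {x | v x < v a}}
  ne := ⟨_, 1, one_ne_zero, rfl⟩
  inter := by
    rintro _ ⟨a, ha, rfl⟩ _ ⟨b, hb, rfl⟩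
    rcases le_total (v a) (v b) with h | h
    · exact ⟨_, ⟨a, ha, rfl⟩, fun x hx => ⟨hx, lt_of_lt_of_le hx h⟩⟩
    · exact ⟨_, ⟨b, hb, rfl⟩, fun x hx => ⟨lt_of_lt_of_le hx h, hx⟩⟩
  zero := by
    rintro _ ⟨a, ha, rfl⟩
    simp only [Set.mem_ofPred_eq, map_zero]
    exact zero_lt_iff.2 ((Valuation.ne_zero_iff v).2 ha)
  add := by
    rintro _ ⟨a, ha, rfl⟩
    exact ⟨_, ⟨a, ha, rfl⟩, fun x hx y hy => v.map_add_lt hx hy⟩
  neg := by
    rintro _ ⟨a, ha, rfl⟩
    refine ⟨_, ⟨a, ha, rfl⟩, fun x hx => ?_⟩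
    simp only [Set.mem_ofPred_eq, Valuation.map_neg]
    exact hx
  mul := by
    rintro _ ⟨a, ha, rfl⟩
    rcases le_total (v a) 1 with h | h
    · refine ⟨_, ⟨a, ha, rfl⟩, fun x hx y hy => ?_⟩
      simp only [Set.mem_ofPred_eq, map_mul] at hx hy ⊢
      calc v x * v y ≤ 1 * v y := by gcongr; exact hx.le.trans h
        _ = v y := one_mul _
        _ < v a := hy
    · refine ⟨_, ⟨1, one_ne_zero, rfl⟩, fun x hx y hy => ?_⟩
      simp only [Set.mem_ofPred_eq, map_mul, map_one] at hx hy ⊢
      calc v x * v y ≤ 1 * v y := by gcongr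
        _ = v y := one_mul _
        _ < 1 := hy
        _ ≤ v a := h
  smul := by
    rintro z _ ⟨a, ha, rfl⟩
    by_cases hz : z = 0
    · refine ⟨_, ⟨1, one_ne_zero, rfl⟩, fun x hx => ?_⟩
      simp only [Set.mem_ofPred_eq, hz, zero_mul, map_zero]
      exact zero_lt_iff.2 ((Valuation.ne_zero_iff v).2 ha)
    · refine ⟨_, ⟨a / z, div_ne_zero ha hz, rfl⟩, fun x hx => ?_⟩
      have hz' : v z ≠ 0 := (Valuation.ne_zero_iff v).2 hz
      simp only [Set.mem_ofPred_eq, map_mul, map_div₀] at hx ⊢
      rw [lt_div_iff₀ (zero_lt_iff.2 hz')] at hx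
      rwa [mul_comm]
  inv := by
    rintro _ ⟨a, ha, rfl⟩
    have key : ∀ x : K, v x < 1 → v x < v a → v ((1 + x)⁻¹ - 1) < v a := by
      intro x hx1 hxa
      have h1 : v (1 + x) = 1 := v.map_one_add_of_lt hx1
      have h2 : (1 : K) + x ≠ 0 := by
        intro h
        rw [h, map_zero] at h1
        exact zero_ne_one h1
      have h3 : (1 + x)⁻¹ - 1 = -(x * (1 + x)⁻¹) := by
        field_simp
        ring
      rw [h3, Valuation.map_neg, map_mul, map_inv₀, h1, inv_one, mul_one]
      exact hxa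
    rcases le_total (v a) 1 with h | h
    · exact ⟨_, ⟨a, ha, rfl⟩, fun x hx _ => key x (lt_of_lt_of_le hx h) hx⟩
    · refine ⟨_, ⟨1, one_ne_zero, rfl⟩, fun x hx _ => ?_⟩
      simp only [Set.mem_ofPred_eq, map_one] at hx
      exact key x hx (lt_of_lt_of_le hx h)

/-- the topology of a valuation is the usual one -/
theorem valued_nhds_zero [hv : Valued K Γ₀] (s : Set K) :
    s ∈ 𝓝 (0 : K) ↔ ∃ a : K, a ≠ 0 ∧ {x | Valued.v x < Valued.v a} ⊆ s := by
  rw [Valued.mem_nhds_zero]
  constructor
  · rintro ⟨γ, hγ⟩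
    obtain ⟨a, ha⟩ := MonoidWithZeroHom.ValueGroup₀.restrict₀_surjective
      (MonoidWithZeroHom.ofClass (Valued.v (R := K) (Γ₀ := Γ₀))) γ.1
    have ha' : (Valued.v (R := K)).restrict a = γ.1 := ha
    refine ⟨a, ?_, fun x hx => hγ ?_⟩
    · rintro rfl
      rw [map_zero] at ha'
      exact γ.ne_zero ha'.symm
    · simp only [Set.mem_ofPred_eq]
      rw [← ha', Valuation.restrict_lt_iff]
      exact hx
  · rintro ⟨a, ha, h⟩
    have h0 : (Valued.v (R := K)).restrict a ≠ 0 := by
      rw [Ne, Valuation.restrict_eq_zero_iff]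
      exact (Valuation.ne_zero_iff _).2 ha
    refine ⟨Units.mk0 _ h0, fun x hx => h ?_⟩
    simp only [Set.mem_ofPred_eq, Units.val_mk0] at hx ⊢
    rwa [Valuation.restrict_lt_iff] at hx

end

section gauss

variable {F Γ₀ ι : Type*} [Field F] [LinearOrderedCommGroupWithZero Γ₀] (v : Valuation F Γ₀)

/-- the maximum of the valuations of the coefficients -/
noncomputable def gv (P : MvPolynomial ι F) : Γ₀ := P.support.sup (fun m => v (P.coeff m))

theorem le_gv (P : MvPolynomial ι F) (m : ι →₀ ℕ) : v (P.coeff m) ≤ gv v P := by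
  by_cases h : m ∈ P.support
  · exact Finset.le_sup (f := fun m => v (P.coeff m)) h
  · rw [MvPolynomial.notMem_support_iff.1 h, map_zero]
    exact zero_le

theorem gv_le {P : MvPolynomial ι F} {g : Γ₀} (h : ∀ m, v (P.coeff m) ≤ g) : gv v P ≤ g :=
  Finset.sup_le fun m _ => h m

theorem exists_gv {P : MvPolynomial ι F} (hP : P ≠ 0) :
    ∃ m ∈ P.support, v (P.coeff m) = gv v P := by
  obtain ⟨m, hm, h⟩ := Finset.exists_mem_eq_sup P.support
    (MvPolynomial.support_nonempty.2 hP) (fun m => v (P.coeff m))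
  exact ⟨m, hm, h.symm⟩

theorem gv_zero : gv v (0 : MvPolynomial ι F) = 0 := by
  apply le_antisymm
  · apply gv_le
    intro m
    rw [MvPolynomial.coeff_zero, map_zero]
  · exact zero_le

theorem gv_ne_zero {P : MvPolynomial ι F} (hP : P ≠ 0) : gv v P ≠ 0 := by
  obtain ⟨m, hm, h⟩ := exists_gv v hP
  rw [← h]
  exact (Valuation.ne_zero_iff v).2 (MvPolynomial.mem_support_iff.1 hm)

theorem gv_C (a : F) : gv v (MvPolynomial.C a : MvPolynomial ι F) = v a := by
  classical
  apply le_antisymm
  · apply gv_le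
    intro m
    rw [MvPolynomial.coeff_C]
    split_ifs
    · exact le_rfl
    · rw [map_zero]; exact zero_le
  · have := le_gv v (MvPolynomial.C a : MvPolynomial ι F) 0
    simpa using this

theorem gv_X (i : ι) : gv v (MvPolynomial.X i : MvPolynomial ι F) = 1 := by
  classical
  apply le_antisymm
  · apply gv_le
    intro m
    rw [MvPolynomial.coeff_X]
    split_ifs
    · rw [map_one]
    · rw [map_zero]; exact zero_le
  · have := le_gv v (MvPolynomial.X i : MvPolynomial ι F) (Finsupp.single i 1)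
    simpa using this

theorem gv_add_le (P Q : MvPolynomial ι F) : gv v (P + Q) ≤ max (gv v P) (gv v Q) := by
  apply gv_le
  intro m
  rw [MvPolynomial.coeff_add]
  exact (v.map_add _ _).trans (max_le_max (le_gv v P m) (le_gv v Q m))

theorem gv_mul (P Q : MvPolynomial ι F) : gv v (P * Q) = gv v P * gv v Q := by
  classical
  by_cases hP : P = 0
  · rw [hP, zero_mul, gv_zero, zero_mul]
  by_cases hQ : Q = 0
  · rw [hQ, mul_zero, gv_zero, mul_zero]
  apply le_antisymm
  · apply gv_le
    intro m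
    rw [MvPolynomial.coeff_mul]
    apply v.map_sum_le
    intro x _
    rw [map_mul]
    exact mul_le_mul' (le_gv v P _) (le_gv v Q _)
  · -- the maximal coefficients
    let A : Finset (ι →₀ ℕ) := P.support.filter (fun m => v (P.coeff m) = gv v P)
    let B : Finset (ι →₀ ℕ) := Q.support.filter (fun m => v (Q.coeff m) = gv v Q)
    have hA : A.Nonempty := by
      obtain ⟨m, hm, h⟩ := exists_gv v hP
      exact ⟨m, Finset.mem_filter.2 ⟨hm, h⟩⟩
    have hB : B.Nonempty := by
      obtain ⟨m, hm, h⟩ := exists_gv v hQ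
      exact ⟨m, Finset.mem_filter.2 ⟨hm, h⟩⟩
    obtain ⟨a, ha, b, hb, hab⟩ := UniqueSums.uniqueAdd_of_nonempty hA hB
    have haP : v (P.coeff a) = gv v P := (Finset.mem_filter.1 ha).2
    have hbQ : v (Q.coeff b) = gv v Q := (Finset.mem_filter.1 hb).2
    have hg0 : gv v P * gv v Q ≠ 0 := mul_ne_zero (gv_ne_zero v hP) (gv_ne_zero v hQ)
    have hmem : ((a, b) : (ι →₀ ℕ) × (ι →₀ ℕ)) ∈ Finset.HasAntidiagonal.antidiagonal (a + b) :=
      Finset.HasAntidiagonal.mem_antidiagonal.2 rfl
    have key : v ((P * Q).coeff (a + b)) = gv v P * gv v Q := by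
      rw [MvPolynomial.coeff_mul, v.map_sum_eq_of_lt hmem]
      · simp only [map_mul, haP, hbQ]
      · intro x hx
        rw [Finset.mem_sdiff, Finset.mem_singleton, Finset.HasAntidiagonal.mem_antidiagonal] at hx
        obtain ⟨hxs, hxne⟩ := hx
        simp only [map_mul, haP, hbQ]
        by_cases hxA : v (P.coeff x.1) = gv v P
        · by_cases hxB : v (Q.coeff x.2) = gv v Q
          · exfalso
            have h1 : x.1 ∈ A := Finset.mem_filter.2 ⟨MvPolynomial.mem_support_iff.2 (fun h0 => by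
              rw [h0, map_zero] at hxA
              exact gv_ne_zero v hP hxA.symm), hxA⟩
            have h2 : x.2 ∈ B := Finset.mem_filter.2 ⟨MvPolynomial.mem_support_iff.2 (fun h0 => by
              rw [h0, map_zero] at hxB
              exact gv_ne_zero v hQ hxB.symm), hxB⟩
            obtain ⟨e1, e2⟩ := hab h1 h2 hxs
            exact hxne (Prod.ext e1 e2)
          · have h3 : v (Q.coeff x.2) < gv v Q := lt_of_le_of_ne (le_gv v Q _) hxB
            rw [hxA]
            exact mul_lt_mul_of_pos_left h3 (zero_lt_iff.2 (gv_ne_zero v hP))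
        · have h3 : v (P.coeff x.1) < gv v P := lt_of_le_of_ne (le_gv v P _) hxA
          calc v (P.coeff x.1) * v (Q.coeff x.2) ≤ v (P.coeff x.1) * gv v Q :=
                mul_le_mul' le_rfl (le_gv v Q _)
            _ < gv v P * gv v Q :=
                mul_lt_mul_of_pos_right h3 (zero_lt_iff.2 (gv_ne_zero v hQ))
    rw [← key]
    exact le_gv v _ _

/-- the Gauss valuation -/
noncomputable def gaussVal : Valuation (MvPolynomial ι F) Γ₀ where
  toFun := gv v
  map_zero' := gv_zero v
  map_one' := by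
    have := gv_C (ι := ι) v 1
    rwa [map_one, map_one] at this
  map_mul' := gv_mul v
  map_add_le_max' := gv_add_le v

theorem gaussVal_apply (P : MvPolynomial ι F) : gaussVal v P = gv v P := rfl

theorem gauss_supp : nonZeroDivisors (MvPolynomial ι F) ≤ (gaussVal (ι := ι) v).supp.primeCompl := by
  intro P hP h
  have h0 : P ≠ 0 := nonZeroDivisors.ne_zero hP
  have h1 : gv v P = 0 := h
  exact gv_ne_zero v h0 h1

/-- the Gauss valuation on the field of rational functions -/
noncomputable def gaussFrac : Valuation (FractionRing (MvPolynomial ι F)) Γ₀ :=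
  (gaussVal (ι := ι) v).extendToLocalization (gauss_supp v) (FractionRing (MvPolynomial ι F))

theorem gaussFrac_alg (P : MvPolynomial ι F) :
    gaussFrac v (algebraMap _ (FractionRing (MvPolynomial ι F)) P) = gv v P :=
  Valuation.extendToLocalization_apply_map_apply _ _ _ _

/-- every nonzero element of the rational function field has the value of an element of `F` -/
theorem gaussFrac_surj (a : FractionRing (MvPolynomial ι F)) (ha : a ≠ 0) :
    ∃ c : F, c ≠ 0 ∧ gaussFrac v a = v c := by
  obtain ⟨x, z, hz, h⟩ := IsFractionRing.div_surjective (MvPolynomial ι F) a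
  have hz0 : z ≠ 0 := nonZeroDivisors.ne_zero hz
  have hx0 : x ≠ 0 := by
    rintro rfl
    rw [map_zero, zero_div] at h
    exact ha h.symm
  obtain ⟨m, hm, hm'⟩ := exists_gv v hx0
  obtain ⟨n, hn, hn'⟩ := exists_gv v hz0
  refine ⟨x.coeff m / z.coeff n, div_ne_zero (MvPolynomial.mem_support_iff.1 hm)
    (MvPolynomial.mem_support_iff.1 hn), ?_⟩
  rw [← h, map_div₀, map_div₀, gaussFrac_alg, gaussFrac_alg, hm', hn']

end gauss

end Pool.Agent.TopF
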