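import Pool.Agent.TopF.Base

/-!
# Topologies of convergence in (sub)measure on fields of functions with values in a topological field
-/

set_option autoImplicit false

open Topology Filter Set
open scoped ENNReal

namespace Pool.Agent.TopF

/-- A submeasure: monotone, finitely subadditive. -/
structure Subm (X : Type*) where
  m : Set X → ℝ≥0∞
  empty : m ∅ = 0
  mono : ∀ s t, s ⊆ t → m s ≤ m t
  union : ∀ s t, m (s ∪ t) ≤ m s + m t

namespace Subm

variable {X : Type*} (μ : Subm X)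

/-- the filter of conull sets -/
def ae : Filter X where
  sets := {s | μ.m sᶜ = 0}
  univ_sets := by simp [μ.empty]
  sets_of_superset := fun {s t} hs hst => by
    have : μ.m tᶜ ≤ μ.m sᶜ := μ.mono _ _ (Set.compl_subset_compl.2 hst)
    simp only [Set.mem_ofPred_eq] at hs ⊢
    exact le_antisymm (this.trans hs.le) bot_le
  inter_sets := fun {s t} hs ht => by
    simp only [Set.mem_ofPred_eq] at hs ht ⊢
    rw [Set.compl_inter]
    have := μ.union sᶜ tᶜ
    rw [hs, ht, add_zero] at this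
    exact le_antisymm this bot_le

theorem mem_ae {s : Set X} : s ∈ μ.ae ↔ μ.m sᶜ = 0 := Iff.rfl

theorem le_of_ae {s t : Set X} (h : ∀ᶠ x in μ.ae, x ∈ s → x ∈ t) : μ.m s ≤ μ.m t := by
  have h' : μ.m {x | x ∈ s → x ∈ t}ᶜ = 0 := h
  have h1 : s ⊆ t ∪ {x | x ∈ s → x ∈ t}ᶜ := by
    intro x hx
    by_cases hxt : x ∈ t
    · exact Or.inl hxt
    · refine Or.inr ?_
      simp only [Set.mem_compl_iff, Set.mem_ofPred_eq, not_forall]
      exact ⟨hx, hxt⟩
  calc μ.m s ≤ μ.m (t ∪ {x | x ∈ s → x ∈ t}ᶜ) := μ.mono _ _ h1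
    _ ≤ μ.m t + μ.m {x | x ∈ s → x ∈ t}ᶜ := μ.union _ _
    _ = μ.m t := by rw [h', add_zero]

end Subm

/-- Evaluation of a field `K` at points of `X`, with values in a topological field `E`,
respecting the operations off null sets and with values bounded in measure. -/
structure Eval (K E X : Type*) [Field K] [Field E] [TopologicalSpace E] (μ : Subm X) where
  ev : K → X → E
  add : ∀ a b, ∀ᶠ x in μ.ae, ev (a + b) x = ev a x + ev b x
  mul : ∀ a b, ∀ᶠ x in μ.ae, ev (a * b) x = ev a x * ev b x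
  one : ∀ᶠ x in μ.ae, ev 1 x = 1
  bdd : ∀ a, ∀ U ∈ 𝓝 (0 : E), ∀ ε : ℝ≥0∞, 0 < ε → ∃ V ∈ 𝓝 (0 : E),
    μ.m {x | ∃ v ∈ V, ev a x * v ∉ U} < ε

namespace Eval

variable {K E X : Type*} [Field K] [Field E] [TopologicalSpace E] {μ : Subm X}
  (e : Eval K E X μ)

theorem zero : ∀ᶠ x in μ.ae, e.ev 0 x = 0 := by
  filter_upwards [e.add 0 0] with x hx
  rw [add_zero] at hx
  exact left_eq_add.1 hx

theorem neg (a : K) : ∀ᶠ x in μ.ae, e.ev (-a) x = -e.ev a x := by
  filter_upwards [e.add a (-a), e.zero] with x hx h0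
  rw [add_neg_cancel, h0] at hx
  exact eq_neg_of_add_eq_zero_right hx.symm

theorem sub (a b : K) : ∀ᶠ x in μ.ae, e.ev (a - b) x = e.ev a x - e.ev b x := by
  filter_upwards [e.add a (-b), e.neg b] with x hx h0
  rw [sub_eq_add_neg, hx, h0, ← sub_eq_add_neg]

theorem inv {a : K} (ha : a ≠ 0) : ∀ᶠ x in μ.ae, e.ev a⁻¹ x = (e.ev a x)⁻¹ := by
  filter_upwards [e.mul a a⁻¹, e.one] with x hx h0
  rw [mul_inv_cancel₀ ha, h0] at hx
  exact (inv_eq_of_mul_eq_one_right hx.symm).symm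

/-- basic neighbourhoods of zero -/
def N (U : Set E) (ε : ℝ≥0∞) : Set K := {a | μ.m {x | e.ev a x ∉ U} < ε}

theorem mem_N {U : Set E} {ε : ℝ≥0∞} {a : K} : a ∈ e.N U ε ↔ μ.m {x | e.ev a x ∉ U} < ε := Iff.rfl

theorem N_mono {U V : Set E} {ε δ : ℝ≥0∞} (hUV : U ⊆ V) (h : ε ≤ δ) : e.N U ε ⊆ e.N V δ := by
  intro a ha
  refine lt_of_le_of_lt (μ.mono _ _ ?_) (lt_of_lt_of_le ha h)
  intro x hx hxU
  exact hx (hUV hxU)

variable [IsTopologicalDivisionRing E]

/-- the field topology of convergence in measure -/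
def base : FieldBase K where
  B := {S | ∃ U ∈ 𝓝 (0 : E), ∃ ε : ℝ≥0∞, 0 < ε ∧ S = e.N U ε}
  ne := ⟨_, univ, univ_mem, 1, by simp, rfl⟩
  inter := by
    rintro _ ⟨U, hU, ε, hε, rfl⟩ _ ⟨V, hV, δ, hδ, rfl⟩
    refine ⟨_, ⟨U ∩ V, inter_mem hU hV, min ε δ, lt_min hε hδ, rfl⟩, ?_⟩
    exact subset_inter (e.N_mono inter_subset_left (min_le_left _ _))
      (e.N_mono inter_subset_right (min_le_right _ _))
  zero := by
    rintro _ ⟨U, hU, ε, hε, rfl⟩
    rw [mem_N]
    refine lt_of_le_of_lt (μ.le_of_ae (t := ∅) ?_) (by rwa [μ.empty])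
    filter_upwards [e.zero] with x hx hxU
    exact hxU (by rw [hx]; exact mem_of_mem_nhds hU)
  add := by
    rintro _ ⟨U, hU, ε, hε, rfl⟩
    have h1 : Tendsto (fun p : E × E => p.1 + p.2) (𝓝 0 ×ˢ 𝓝 0) (𝓝 0) := by
      have := (continuous_add (M := E)).tendsto (0, 0)
      rwa [nhds_prod_eq, add_zero] at this
    obtain ⟨V, hV, W, hW, hVW⟩ := mem_prod_iff.1 (h1 hU)
    refine ⟨_, ⟨V ∩ W, inter_mem hV hW, ε / 2, ENNReal.half_pos hε.ne', rfl⟩, ?_⟩
    intro a ha b hb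
    rw [mem_N] at ha hb ⊢
    calc μ.m {x | e.ev (a + b) x ∉ U}
        ≤ μ.m ({x | e.ev a x ∉ V ∩ W} ∪ {x | e.ev b x ∉ V ∩ W}) := by
          apply μ.le_of_ae
          filter_upwards [e.add a b] with x hx hxU
          by_contra hcon
          simp only [Set.mem_union, Set.mem_ofPred_eq, not_or, not_not] at hcon
          apply hxU
          rw [hx]
          exact hVW (Set.mk_mem_prod hcon.1.1 hcon.2.2)
      _ ≤ μ.m {x | e.ev a x ∉ V ∩ W} + μ.m {x | e.ev b x ∉ V ∩ W} := μ.union _ _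
      _ < ε / 2 + ε / 2 := ENNReal.add_lt_add ha hb
      _ = ε := ENNReal.add_halves ε
  neg := by
    rintro _ ⟨U, hU, ε, hε, rfl⟩
    have h1 : Tendsto (fun p : E => -p) (𝓝 0) (𝓝 0) := by
      have := (continuous_neg (G := E)).tendsto 0
      rwa [neg_zero] at this
    refine ⟨_, ⟨_, h1 hU, ε, hε, rfl⟩, ?_⟩
    intro a ha
    rw [mem_N] at ha ⊢
    refine lt_of_le_of_lt (μ.le_of_ae ?_) ha
    filter_upwards [e.neg a] with x hx hxU
    simp only [Set.mem_ofPred_eq, Set.mem_preimage]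
    rwa [← hx]
  mul := by
    rintro _ ⟨U, hU, ε, hε, rfl⟩
    have h1 : Tendsto (fun p : E × E => p.1 * p.2) (𝓝 0 ×ˢ 𝓝 0) (𝓝 0) := by
      have := (continuous_mul (M := E)).tendsto (0, 0)
      rwa [nhds_prod_eq, mul_zero] at this
    obtain ⟨V, hV, W, hW, hVW⟩ := mem_prod_iff.1 (h1 hU)
    refine ⟨_, ⟨V ∩ W, inter_mem hV hW, ε / 2, ENNReal.half_pos hε.ne', rfl⟩, ?_⟩
    intro a ha b hb
    rw [mem_N] at ha hb ⊢
    calc μ.m {x | e.ev (a * b) x ∉ U}
        ≤ μ.m ({x | e.ev a x ∉ V ∩ W} ∪ {x | e.ev b x ∉ V ∩ W}) := by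
          apply μ.le_of_ae
          filter_upwards [e.mul a b] with x hx hxU
          by_contra hcon
          simp only [Set.mem_union, Set.mem_ofPred_eq, not_or, not_not] at hcon
          apply hxU
          rw [hx]
          exact hVW (Set.mk_mem_prod hcon.1.1 hcon.2.2)
      _ ≤ μ.m {x | e.ev a x ∉ V ∩ W} + μ.m {x | e.ev b x ∉ V ∩ W} := μ.union _ _
      _ < ε / 2 + ε / 2 := ENNReal.add_lt_add ha hb
      _ = ε := ENNReal.add_halves ε
  smul := by
    rintro y _ ⟨U, hU, ε, hε, rfl⟩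
    obtain ⟨V, hV, hVm⟩ := e.bdd y U hU (ε / 2) (ENNReal.half_pos hε.ne')
    refine ⟨_, ⟨V, hV, ε / 2, ENNReal.half_pos hε.ne', rfl⟩, ?_⟩
    intro a ha
    rw [mem_N] at ha ⊢
    calc μ.m {x | e.ev (y * a) x ∉ U}
        ≤ μ.m ({x | ∃ v ∈ V, e.ev y x * v ∉ U} ∪ {x | e.ev a x ∉ V}) := by
          apply μ.le_of_ae
          filter_upwards [e.mul y a] with x hx hxU
          by_contra hcon
          simp only [Set.mem_union, Set.mem_ofPred_eq, not_or, not_not, not_exists, not_and] at hcon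
          apply hxU
          rw [hx]
          exact hcon.1 _ hcon.2
      _ ≤ μ.m {x | ∃ v ∈ V, e.ev y x * v ∉ U} + μ.m {x | e.ev a x ∉ V} := μ.union _ _
      _ < ε / 2 + ε / 2 := ENNReal.add_lt_add hVm ha
      _ = ε := ENNReal.add_halves ε
  inv := by
    rintro _ ⟨U, hU, ε, hε, rfl⟩
    have h1 : Tendsto (fun p : E => (1 + p)⁻¹ - 1) (𝓝 0) (𝓝 0) := by
      have h2 : Tendsto (fun p : E => 1 + p) (𝓝 0) (𝓝 1) := by
        have := (continuous_const_add (1 : E)).tendsto 0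
        rwa [add_zero] at this
      have h3 : Tendsto (fun p : E => p⁻¹) (𝓝 1) (𝓝 1) := by
        have := (continuousAt_inv₀ (one_ne_zero (α := E))).tendsto
        rwa [inv_one] at this
      have h4 := (h3.comp h2).sub_const 1
      simpa using h4
    refine ⟨_, ⟨_, h1 hU, ε, hε, rfl⟩, ?_⟩
    intro a ha hne
    rw [mem_N] at ha ⊢
    refine lt_of_le_of_lt (μ.le_of_ae ?_) ha
    filter_upwards [e.sub (1 + a)⁻¹ 1, e.inv hne, e.add 1 a, e.one] with x hx1 hx2 hx3 hx4 hxU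
    simp only [Set.mem_ofPred_eq, Set.mem_preimage]
    rwa [hx1, hx2, hx3, hx4] at hxU

theorem nhds_zero : (@nhds K e.base.top 0).HasBasis
    (fun p : Set E × ℝ≥0∞ => p.1 ∈ 𝓝 (0 : E) ∧ 0 < p.2) (fun p => e.N p.1 p.2) := by
  constructor
  intro t
  rw [e.base.nhds_zero.mem_iff]
  constructor
  · rintro ⟨_, ⟨U, hU, ε, hε, rfl⟩, h⟩
    exact ⟨(U, ε), ⟨hU, hε⟩, h⟩
  · rintro ⟨⟨U, ε⟩, ⟨hU, hε⟩, h⟩
    exact ⟨_, ⟨U, hU, ε, hε, rfl⟩, h⟩

theorem isTopologicalDivisionRing : @IsTopologicalDivisionRing K _ e.base.top :=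
  e.base.isTopologicalDivisionRing

end Eval

/-- A ring homomorphism between topological fields is inducing if it is so at zero. -/
theorem isInducing_of_zero {F K : Type*} [Field F] [Field K] [TopologicalSpace F]
    [TopologicalSpace K] [IsTopologicalRing F] [IsTopologicalRing K] (j : F →+* K)
    (h : 𝓝 (0 : F) = comap j (𝓝 (0 : K))) : IsInducing j := by
  rw [isInducing_iff_nhds]
  intro x
  have h1 : 𝓝 x = comap (fun y : F => y - x) (𝓝 0) := by
    have := nhds_translation_sub x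
    rw [this]
  have h2 : 𝓝 (j x) = comap (fun y : K => y - j x) (𝓝 0) := by
    have := nhds_translation_sub (j x)
    rw [this]
  rw [h1, h2, h, comap_comap, comap_comap]
  congr 1
  funext y
  simp

namespace Eval

variable {F K E X : Type*} [Field F] [Field K] [Field E] [TopologicalSpace F]
  [IsTopologicalDivisionRing F] [TopologicalSpace E]
  [IsTopologicalDivisionRing E] {μ : Subm X} (e : Eval K E X μ)

/-- constants embed -/
theorem isInducing_const (j : F →+* K) (φ : F →+* E) (hφ : IsInducing φ)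
    (hμ : μ.m univ ≠ 0) (hj : ∀ c, ∀ᶠ x in μ.ae, e.ev (j c) x = φ c) :
    @IsInducing F K _ e.base.top j := by
  letI := e.base.top
  haveI := e.isTopologicalDivisionRing
  apply isInducing_of_zero
  have h0 : 𝓝 (0 : F) = comap φ (𝓝 (0 : E)) := by
    have := hφ.nhds_eq_comap 0
    rwa [map_zero] at this
  have hmem : ∀ (U : Set E) (ε : ℝ≥0∞) (c : F), 0 < ε → φ c ∈ U → j c ∈ e.N U ε := by
    intro U ε c hε hc
    rw [Eval.mem_N]
    refine lt_of_le_of_lt (μ.le_of_ae (t := ∅) ?_) (by rwa [μ.empty])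
    filter_upwards [hj c] with x hx hxU
    exact hxU (by rwa [hx])
  have hmem' : ∀ (U : Set E) (c : F), j c ∈ e.N U (μ.m univ) → φ c ∈ U := by
    intro U c hc
    by_contra hcon
    rw [Eval.mem_N] at hc
    refine absurd hc (not_lt.2 (μ.le_of_ae ?_))
    filter_upwards [hj c] with x hx _ hxU
    exact hcon (by rwa [← hx])
  rw [h0]
  refine le_antisymm ?_ ?_
  · rw [(e.nhds_zero.comap j).ge_iff]
    rintro ⟨U, ε⟩ ⟨hU, hε⟩
    exact mem_comap.2 ⟨U, hU, fun c hc => hmem U ε c hε hc⟩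
  · intro S hS
    obtain ⟨U, hU, hUS⟩ := mem_comap.1 hS
    refine mem_comap.2 ⟨e.N U (μ.m univ), e.nhds_zero.mem_of_mem (i := (U, μ.m univ))
      ⟨hU, pos_iff_ne_zero.2 hμ⟩, fun c hc => hUS (hmem' U c hc)⟩

end Eval

end Pool.Agent.TopF
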