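import Pool.Agent.TopF.PGen
import Pool.Agent.TopF.Meas

/-!
# Connected extensions inside P-spaces with the Baire property
-/

set_option autoImplicit false

open Topology Filter Set Cardinal MeasureTheory
open scoped ENNReal

namespace Pool.Agent.TopF

/-- Lebesgue outer measure on `[0,1)` -/
noncomputable def unitSubm : Subm ℝ where
  m := fun S => volume (S ∩ Ico 0 1)
  empty := by simp
  mono := fun s t hst => measure_mono (inter_subset_inter_left _ hst)
  union := fun s t => by
    rw [Set.union_inter_distrib_right]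
    exact measure_union_le _ _

theorem unitSubm_univ : unitSubm.m univ ≠ 0 := by
  simp [unitSubm]

section

variable {F E I : Type} [Field F] [Field E] [Algebra F E]

/-- the step function with values `1` and `0` -/
noncomputable def st (R : Type*) [Zero R] [One R] (s ω : ℝ) : R := by
  classical exact if ω < s then 1 else 0

theorem st_lt {R : Type*} [Zero R] [One R] {s ω : ℝ} (h : ω < s) : st R s ω = 1 := by
  simp [st, h]

theorem st_ge {R : Type*} [Zero R] [One R] {s ω : ℝ} (h : ¬ ω < s) : st R s ω = 0 := by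
  simp [st, h]

theorem algebraMap_st (s ω : ℝ) : algebraMap F E (st F s ω) = st E s ω := by
  by_cases h : ω < s
  · rw [st_lt h, st_lt h, map_one]
  · rw [st_ge h, st_ge h, map_zero]

variable (s : I → ℝ) (z y : I → E)
  (hind : ∀ c : I → F, AlgebraicIndependent F (fun i => algebraMap F E (c i) + z i + y i))

/-- the values of the generators at `ω` -/
noncomputable def gen (F : Type) [Field F] [Algebra F E] (ω : ℝ) (i : I) : E :=
  algebraMap F E (st F (s i) ω) + z i + y i

include hind in
theorem gen_ind (ω : ℝ) : AlgebraicIndependent F (gen s z y F ω) :=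
  hind (fun i => st F (s i) ω)

/-- evaluation at `ω` -/
noncomputable def evp (ω : ℝ) : FractionRing (MvPolynomial I F) →+* E :=
  IsFractionRing.lift (A := MvPolynomial I F) (g := (MvPolynomial.aeval (gen s z y F ω) :
    MvPolynomial I F →ₐ[F] E).toRingHom) (gen_ind s z y hind ω)

theorem evp_alg (ω : ℝ) (P : MvPolynomial I F) :
    evp s z y hind ω (algebraMap _ (FractionRing (MvPolynomial I F)) P)
      = MvPolynomial.aeval (gen s z y F ω) P :=
  IsFractionRing.lift_algebraMap _ _

theorem finite_aeval (P : MvPolynomial I F) :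
    {x : E | ∃ ω : ℝ, MvPolynomial.aeval (gen s z y F ω) P = x}.Finite := by
  classical
  let h : (P.vars → Prop) → E := fun c => MvPolynomial.aeval
    (fun i => if hi : i ∈ P.vars then algebraMap F E (if c ⟨i, hi⟩ then 1 else 0) + z i + y i
      else 0) P
  refine (Set.finite_range h).subset ?_
  rintro x ⟨ω, rfl⟩
  refine ⟨fun i => ω < s i, ?_⟩
  simp only [h]
  rw [MvPolynomial.aeval_def, MvPolynomial.aeval_def]
  apply MvPolynomial.eval₂_congr
  intro i c hi hc
  have hiv : i ∈ P.vars := by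
    rw [MvPolynomial.mem_vars_iff_mem_support]
    exact ⟨c, by simpa [MvPolynomial.mem_support_iff] using hc, hi⟩
  rw [dif_pos hiv]
  simp only [gen, st]

theorem finite_evp (a : FractionRing (MvPolynomial I F)) :
    {x : E | ∃ ω : ℝ, evp s z y hind ω a = x}.Finite := by
  obtain ⟨P, Q, hQ, rfl⟩ := IsFractionRing.div_surjective (MvPolynomial I F) a
  refine (((finite_aeval s z y P).prod (finite_aeval s z y Q)).image
    (fun p : E × E => p.1 / p.2)).subset ?_
  rintro x ⟨ω, rfl⟩
  refine ⟨(_, _), ⟨⟨ω, rfl⟩, ⟨ω, rfl⟩⟩, ?_⟩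
  simp only
  rw [map_div₀, evp_alg, evp_alg]

variable [TopologicalSpace E] [IsTopologicalDivisionRing E]

/-- the evaluation structure -/
noncomputable def evalP : Eval (FractionRing (MvPolynomial I F)) E ℝ unitSubm where
  ev := fun a ω => evp s z y hind ω a
  add := fun a b => Eventually.of_forall fun ω => map_add _ _ _
  mul := fun a b => Eventually.of_forall fun ω => map_mul _ _ _
  one := Eventually.of_forall fun ω => map_one _
  bdd := by
    intro a U hU ε hε
    have h3 : ∀ᶠ v in 𝓝 (0 : E), ∀ x ∈ {x : E | ∃ ω : ℝ, evp s z y hind ω a = x}, x * v ∈ U := by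
      rw [Set.Finite.eventually_all (finite_evp s z y hind a)]
      intro x _
      have : Tendsto (fun v : E => x * v) (𝓝 0) (𝓝 0) := by
        have := (continuous_const_mul x).tendsto 0
        rwa [mul_zero] at this
      exact this hU
    refine ⟨_, h3, ?_⟩
    have : {ω : ℝ | ∃ v ∈ {v : E | ∀ x ∈ {x : E | ∃ ω : ℝ, evp s z y hind ω a = x}, x * v ∈ U},
        evp s z y hind ω a * v ∉ U} = ∅ := by
      ext ω
      simp only [Set.mem_ofPred_eq, Set.mem_empty_iff_false, iff_false, not_exists, not_and,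
        not_not]
      intro v hv
      exact hv _ ⟨ω, rfl⟩
    rw [this, unitSubm.empty]
    exact hε

end

theorem volume_st {R : Type*} [Zero R] [One R] (s t : ℝ) :
    unitSubm.m {ω | st R s ω ≠ st R t ω} ≤ ENNReal.ofReal |s - t| := by
  have hsub : {ω | st R s ω ≠ st R t ω} ∩ Ico 0 1 ⊆ Icc (min s t) (max s t) := by
    rintro ω ⟨hω, _⟩
    by_contra hcon
    apply hω
    simp only [Set.mem_Icc, not_and_or, not_le] at hcon
    rcases hcon with h | h
    · rw [st_lt (lt_of_lt_of_le h (min_le_left _ _)), st_lt (lt_of_lt_of_le h (min_le_right _ _))]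
    · rw [st_ge (not_lt.2 (le_trans (le_max_left _ _) h.le)),
        st_ge (not_lt.2 (le_trans (le_max_right _ _) h.le))]
  refine (measure_mono hsub).trans ?_
  rw [Real.volume_Icc, max_sub_min_eq_abs]
  rw [abs_sub_comm]

/-- inclusion of the constants -/
noncomputable def jP (F I : Type) [Field F] : F →+* FractionRing (MvPolynomial I F) :=
  (algebraMap (MvPolynomial I F) (FractionRing (MvPolynomial I F))).comp MvPolynomial.C

section main

/-- **Core of the connectedness proof**: a field of functions on `[0,1)` with values in a P-space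
Baire field `E` which contains, up to arbitrarily small constants, all the functions
`1_{[0,t)} + x`, is connected. -/
theorem connected_core {K E : Type*} [Field K] [Field E] [TopologicalSpace E]
    [IsTopologicalDivisionRing E] [BaireSpace E] (hP : CountableInterFilter (𝓝 (0 : E)))
    (e : Eval K E ℝ unitSubm) (hsub : ∀ a c ω, e.ev (a - c) ω = e.ev a ω - e.ev c ω)
    (hzero : ∀ ω, e.ev 0 ω = 0) (hone : ∀ ω, e.ev 1 ω = 1)
    (hX : ∀ (t : unitInterval) (x : E), ∀ W ∈ 𝓝 (0 : E), ∃ k : K, ∃ y ∈ W, ∀ ω,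
      e.ev k ω = st E (t : ℝ) ω + (x + y)) :
    @ConnectedSpace K e.base.top := by
  classical
  letI : TopologicalSpace K := e.base.top
  haveI hK : IsTopologicalDivisionRing K := e.isTopologicalDivisionRing
  apply connected_of_clopen
  intro C hC h0C
  by_contra h1C
  -- the regions
  let D : Set K → Set (unitInterval × E) := fun A =>
    {p | ∃ V ∈ 𝓝 (0 : E), ∃ ε : ℝ≥0∞, 0 < ε ∧ ∀ k, unitSubm.m
      {ω | e.ev k ω - (st E (p.1 : ℝ) ω + p.2) ∉ V} < ε → k ∈ A}
  have hadd : Tendsto (fun p : E × E => p.1 + p.2) (𝓝 0 ×ˢ 𝓝 0) (𝓝 0) := by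
    have := (continuous_add (M := E)).tendsto (0, 0)
    rwa [nhds_prod_eq, add_zero] at this
  have hDopen : ∀ A, IsOpen (D A) := by
    intro A
    rw [isOpen_iff_mem_nhds]
    rintro ⟨t, x⟩ ⟨V, hV, ε, hε, h⟩
    obtain ⟨V₁, hV₁, V₂, hV₂, hVV⟩ := mem_prod_iff.1 (hadd hV)
    have h1 : {t' : unitInterval | ENNReal.ofReal |(t : ℝ) - t'| < ε / 2} ∈ 𝓝 t := by
      have hcont : Continuous (fun t' : unitInterval => ENNReal.ofReal |(t : ℝ) - t'|) :=
        ENNReal.continuous_ofReal.comp (by fun_prop)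
      have := hcont.tendsto t
      simp only [sub_self, abs_zero, ENNReal.ofReal_zero] at this
      exact this.eventually_lt_const (ENNReal.half_pos hε.ne')
    have h2 : {x' : E | x' - x ∈ V₂} ∈ 𝓝 x := by
      have hcont : Continuous (fun x' : E => x' - x) := by fun_prop
      have := hcont.tendsto x
      rw [sub_self] at this
      exact this hV₂
    rw [nhds_prod_eq]
    refine Filter.mem_of_superset (prod_mem_prod h1 h2) ?_
    rintro ⟨t', x'⟩ ⟨ht', hx'⟩
    refine ⟨V₁, hV₁, ε / 2, ENNReal.half_pos hε.ne', fun k hk => h k ?_⟩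
    calc unitSubm.m {ω | e.ev k ω - (st E (t : ℝ) ω + x) ∉ V}
        ≤ unitSubm.m ({ω | e.ev k ω - (st E (t' : ℝ) ω + x') ∉ V₁} ∪
            {ω | st E (t : ℝ) ω ≠ st E (t' : ℝ) ω}) := by
          apply unitSubm.mono
          intro ω hω
          by_contra hcon
          simp only [Set.mem_union, Set.mem_ofPred_eq, not_or, not_not] at hcon
          apply hω
          have e1 : e.ev k ω - (st E (t : ℝ) ω + x)
              = (e.ev k ω - (st E (t' : ℝ) ω + x')) + (x' - x) := by
            rw [hcon.2]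
            ring
          rw [e1]
          exact hVV (Set.mk_mem_prod hcon.1 hx')
      _ ≤ _ := unitSubm.union _ _
      _ < ε / 2 + ε / 2 := ENNReal.add_lt_add hk (lt_of_le_of_lt (volume_st _ _) ht')
      _ = ε := ENNReal.add_halves ε
  have hDdisj : Disjoint (D C) (D Cᶜ) := by
    rw [Set.disjoint_left]
    rintro ⟨t, x⟩ ⟨V₁, hV₁, ε₁, hε₁, h1⟩ ⟨V₂, hV₂, ε₂, hε₂, h2⟩
    obtain ⟨k, y, hy, hk⟩ := hX t x _ (inter_mem hV₁ hV₂)
    have hm : ∀ (V : Set E) (ε : ℝ≥0∞), y ∈ V → 0 < ε →
        unitSubm.m {ω | e.ev k ω - (st E (t : ℝ) ω + x) ∉ V} < ε := by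
      intro V ε hyV hε
      have : {ω | e.ev k ω - (st E (t : ℝ) ω + x) ∉ V} = ∅ := by
        ext ω
        simp only [Set.mem_ofPred_eq, Set.mem_empty_iff_false, iff_false, not_not]
        rw [hk]
        have e1 : st E (t : ℝ) ω + (x + y) - (st E (t : ℝ) ω + x) = y := by ring
        rwa [e1]
      rw [this, unitSubm.empty]
      exact hε
    have h3 := h1 _ (hm V₁ ε₁ hy.1 hε₁)
    have h4 := h2 _ (hm V₂ ε₂ hy.2 hε₂)
    exact h4 h3
  -- membership in the regions from neighbourhoods in `K`
  have hmemD : ∀ (A : Set K) (k : K) (t : unitInterval) (x : E), A ∈ 𝓝 k →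
      (∀ ω ∈ Ico (0 : ℝ) 1, e.ev k ω = st E (t : ℝ) ω + x) → (t, x) ∈ D A := by
    intro A k t x hA hk
    have h1 : {w | k + w ∈ A} ∈ 𝓝 (0 : K) := by
      have : Tendsto (fun w : K => k + w) (𝓝 0) (𝓝 k) := by
        have := (continuous_const_add k).tendsto 0
        rwa [add_zero] at this
      exact this hA
    obtain ⟨⟨V, ε⟩, ⟨hV, hε⟩, h2⟩ := e.nhds_zero.mem_iff.1 h1
    refine ⟨V, hV, ε, hε, fun k' hk' => ?_⟩
    have h3 : k' - k ∈ e.N V ε := by
      rw [Eval.mem_N]
      refine lt_of_le_of_lt (measure_mono ?_) hk'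
      rintro ω ⟨hω1, hω2⟩
      refine ⟨?_, hω2⟩
      simp only [Set.mem_ofPred_eq] at hω1 ⊢
      rwa [hsub, hk ω hω2] at hω1
    have h4 := h2 h3
    simp only [Set.mem_ofPred_eq, add_sub_cancel] at h4
    exact h4
  have hDdense : ∀ t : unitInterval, Dense {x : E | (t, x) ∈ D C ∪ D Cᶜ} := by
    intro t
    rw [dense_iff_inter_open]
    rintro O hO ⟨x, hx⟩
    have h1 : {w : E | x + w ∈ O} ∈ 𝓝 (0 : E) := by
      have : Tendsto (fun w : E => x + w) (𝓝 0) (𝓝 x) := by
        have := (continuous_const_add x).tendsto 0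
        rwa [add_zero] at this
      exact this (hO.mem_nhds hx)
    obtain ⟨k, y, hy, hk⟩ := hX t x _ h1
    refine ⟨x + y, hy, ?_⟩
    by_cases hXC : k ∈ C
    · exact Or.inl (hmemD C _ t _ (hC.isOpen.mem_nhds hXC) (fun ω _ => hk ω))
    · exact Or.inr (hmemD Cᶜ _ t _ (hC.compl.isOpen.mem_nhds hXC) (fun ω _ => hk ω))
  have hD0 : ((0 : unitInterval), (0 : E)) ∈ D C := by
    refine hmemD C 0 0 0 (hC.isOpen.mem_nhds h0C) (fun ω hω => ?_)
    rw [hzero, st_ge (not_lt.2 (by simpa using hω.1)), add_zero]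
  have hD1 : ((1 : unitInterval), (0 : E)) ∈ D Cᶜ := by
    refine hmemD Cᶜ 1 1 0 (hC.compl.isOpen.mem_nhds h1C) (fun ω hω => ?_)
    rw [hone, st_lt (by simpa using hω.2), add_zero]
  -- the countable family of compact intervals
  let J : ℚ × ℚ → Set unitInterval := fun q => {t | (q.1 : ℝ) ≤ t ∧ (t : ℝ) ≤ q.2}
  have hJ : ∀ q, IsCompact (J q) := by
    intro q
    apply IsClosed.isCompact
    exact (isClosed_le continuous_const continuous_subtype_val).inter
      (isClosed_le continuous_subtype_val continuous_const)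
  let DD : Set (unitInterval × E) := D C ∪ D Cᶜ
  have hDD : IsOpen DD := (hDopen C).union (hDopen Cᶜ)
  let G : ℚ × ℚ → Set E := fun q => {x | ∀ t ∈ J q, (t, x) ∈ DD}
  have hG : ∀ q, IsOpen (G q) := by
    intro q
    rw [isOpen_iff_mem_nhds]
    intro x hx
    obtain ⟨u, v, _, hv, hJu, hxv, huv⟩ := generalized_tube_lemma (hJ q)
      (isCompact_singleton (x := x)) hDD (by
        rintro ⟨t, x'⟩ ⟨ht, hx'⟩
        rw [Set.mem_singleton_iff] at hx'
        subst hx'
        exact hx t ht)
    refine Filter.mem_of_superset (hv.mem_nhds (hxv rfl)) ?_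
    intro x' hx' t ht
    exact huv (Set.mk_mem_prod (hJu ht) hx')
  have hdense : Dense (⋂ q : ℚ × ℚ, (G q ∪ (closure (G q))ᶜ)) := by
    apply dense_iInter_of_isOpen
    · intro q
      exact (hG q).union isClosed_closure.isOpen_compl
    · intro q
      rw [dense_iff_closure_eq, closure_union]
      apply Set.eq_univ_of_forall
      intro x
      by_cases hx : x ∈ closure (G q)
      · exact Or.inl hx
      · exact Or.inr (subset_closure hx)
  -- pick the generic point
  have hO : IsOpen {x : E | ((0 : unitInterval), x) ∈ D C ∧ ((1 : unitInterval), x) ∈ D Cᶜ} := by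
    apply IsOpen.inter
    · exact (hDopen C).preimage (by fun_prop : Continuous (fun x : E => ((0 : unitInterval), x)))
    · exact (hDopen Cᶜ).preimage (by fun_prop : Continuous (fun x : E => ((1 : unitInterval), x)))
  obtain ⟨x₀, hx₀O, hx₀⟩ := hdense.inter_open_nonempty _ hO ⟨0, hD0, hD1⟩
  have hnhd : {x : E | ∀ q : ℚ × ℚ, x ∈ G q → x₀ ∈ G q} ∈ 𝓝 x₀ := by
    have hPx : CountableInterFilter (𝓝 x₀) := by
      have : 𝓝 x₀ = map (fun w : E => x₀ + w) (𝓝 0) := by
        rw [map_add_left_nhds_zero]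
      rw [this]
      infer_instance
    have : {x : E | ∀ q : ℚ × ℚ, x ∈ G q → x₀ ∈ G q} = ⋂ q : ℚ × ℚ, {x | x ∈ G q → x₀ ∈ G q} := by
      ext x
      simp
    rw [this, countable_iInter_mem]
    intro q
    rcases Set.mem_iInter.1 hx₀ q with h | h
    · exact Filter.univ_mem' (fun x _ => h)
    · refine Filter.mem_of_superset (isClosed_closure.isOpen_compl.mem_nhds h) ?_
      intro x hx hxG
      exact absurd (subset_closure hxG) hx
  have hall : ∀ t : unitInterval, (t, x₀) ∈ DD := by
    intro t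
    obtain ⟨x, hx1, hx2⟩ := (hDdense t).inter_nhds_nonempty hnhd
    have h1 : {t' : unitInterval | (t', x) ∈ DD} ∈ 𝓝 t := by
      have hcont : Continuous (fun t' : unitInterval => (t', x)) := by fun_prop
      exact (hDD.preimage hcont).mem_nhds hx1
    -- a rational interval
    obtain ⟨δ, hδ, hball⟩ := Metric.mem_nhds_iff.1 h1
    obtain ⟨q₁, hq₁, hq₁'⟩ := exists_rat_btwn (show (t : ℝ) - δ < t by linarith)
    obtain ⟨q₂, hq₂, hq₂'⟩ := exists_rat_btwn (show (t : ℝ) < t + δ by linarith)
    have hxG : x ∈ G (q₁, q₂) := by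
      intro t' ht'
      have : t' ∈ Metric.ball t δ := by
        rw [Metric.mem_ball, Subtype.dist_eq, Real.dist_eq, abs_sub_lt_iff]
        have h3 := ht'.1
        have h4 := ht'.2
        simp only at h3 h4
        constructor <;> linarith
      exact hball this
    exact hx2 (q₁, q₂) hxG t ⟨hq₁'.le, hq₂.le⟩
  -- contradiction with connectedness of `[0,1]`
  have hU1 : IsOpen {t : unitInterval | (t, x₀) ∈ D C} :=
    (hDopen C).preimage (by fun_prop : Continuous (fun t : unitInterval => (t, x₀)))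
  have hU2 : IsOpen {t : unitInterval | (t, x₀) ∈ D Cᶜ} :=
    (hDopen Cᶜ).preimage (by fun_prop : Continuous (fun t : unitInterval => (t, x₀)))
  have hpre := isPreconnected_univ (α := unitInterval)
  obtain ⟨t, _, ht1, ht2⟩ := hpre _ _ hU1 hU2 (fun t _ => hall t) ⟨0, trivial, hx₀O.1⟩
    ⟨1, trivial, hx₀O.2⟩
  exact Set.disjoint_left.1 hDdisj ht1 ht2

variable {F E : Type} [Field F] [Field E] [Algebra F E] [TopologicalSpace F]
  [IsTopologicalDivisionRing F] [TopologicalSpace E] [IsTopologicalDivisionRing E]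

/-- **Connected extension, P-space case.** -/
theorem exists_connected_of_P [BaireSpace E] (hφ : IsInducing (algebraMap F E))
    (hP : CountableInterFilter (𝓝 (0 : E))) (hnd : ∀ W ∈ 𝓝 (0 : E), ∃ x ∈ W, x ≠ 0)
    (b : E → Set E) (hb : ∀ x, b x ∈ 𝓝 (0 : E)) (hb' : ∀ W ∈ 𝓝 (0 : E), ∃ x, b x ⊆ W)
    (hc : 𝔠 ≤ #E) (htr : #E ≤ Algebra.trdeg F E) :
    ∃ (K : Type) (_ : Field K) (_ : TopologicalSpace K), IsTopologicalDivisionRing K ∧
      ConnectedSpace K ∧ ∃ f : F →+* K, IsInducing f := by
  classical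
  have hE : ℵ₀ ≤ #E := aleph0_le_continuum.trans hc
  have hI : #(unitInterval × E × E) = #E := by
    simp only [mk_prod, lift_id]
    have h1 : Cardinal.mk unitInterval ≤ #E := by
      refine le_trans ?_ hc
      have : #(unitInterval : Set ℝ) ≤ #ℝ := mk_set_le _
      rwa [Cardinal.mk_real] at this
    have h2 : #E * #E = #E := mul_eq_self hE
    rw [h2]
    apply mul_eq_right hE h1
    exact Cardinal.mk_ne_zero _
  obtain ⟨y, hyb, hind⟩ := exists_generic_index (F := F) hI htr hnd hE (fun i => i.2.1)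
    (fun i => b i.2.2) (fun i => hb _)
  obtain ⟨e, he⟩ : ∃ e : Eval (FractionRing (MvPolynomial (unitInterval × E × E) F)) E ℝ unitSubm,
      ∀ a ω, e.ev a ω = evp (fun i : unitInterval × E × E => (i.1 : ℝ)) (fun i => i.2.1) y hind
        ω a :=
    ⟨evalP (fun i : unitInterval × E × E => (i.1 : ℝ)) (fun i => i.2.1) y hind, fun _ _ => rfl⟩
  have hcon : @ConnectedSpace _ e.base.top := by
    refine connected_core hP e (fun a c ω => by rw [he, he, he, map_sub])
      (fun ω => by rw [he, map_zero]) (fun ω => by rw [he, map_one]) ?_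
    intro t x W hW
    obtain ⟨u, hu⟩ := hb' W hW
    refine ⟨algebraMap (MvPolynomial (unitInterval × E × E) F) _ (MvPolynomial.X (t, x, u)),
      y (t, x, u), hu (hyb (t, x, u)), fun ω => ?_⟩
    rw [he, evp_alg, MvPolynomial.aeval_X, gen, algebraMap_st, add_assoc]
  have hj : ∀ c, ∀ᶠ ω in unitSubm.ae, e.ev (jP F (unitInterval × E × E) c) ω
      = algebraMap F E c := by
    intro c
    refine Eventually.of_forall fun ω => ?_
    rw [he, jP, RingHom.comp_apply, evp_alg, MvPolynomial.aeval_C]
  have hind' := e.isInducing_const (jP F (unitInterval × E × E)) (algebraMap F E) hφ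
    unitSubm_univ hj
  exact ⟨FractionRing (MvPolynomial (unitInterval × E × E) F), inferInstance, e.base.top,
    e.isTopologicalDivisionRing, hcon, jP F (unitInterval × E × E), hind'⟩

end main

end Pool.Agent.TopF
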