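import Pool.Agent.TopF.UltraTr
import Pool.Agent.TopF.PConn

/-!
# Connected extensions of P-space topological fields
-/

set_option autoImplicit false

open Topology Filter Set Cardinal

namespace Pool.Agent.TopF

/-- **P-space topological fields.** A nondiscrete topological field in which countable
intersections of neighbourhoods of zero are neighbourhoods of zero, and which has a base of
neighbourhoods of zero with at most as many members as the field has elements, embeds in a
connected topological field. -/
theorem exists_connected_of_pspace (F : Type) [Field F] [TopologicalSpace F]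
    [IsTopologicalDivisionRing F] (hP : CountableInterFilter (𝓝 (0 : F)))
    (hnd : ∀ W ∈ 𝓝 (0 : F), ∃ x ∈ W, x ≠ 0)
    (b : F → Set F) (hb : ∀ x, b x ∈ 𝓝 (0 : F)) (hb' : ∀ W ∈ 𝓝 (0 : F), ∃ x, b x ⊆ W) :
    ∃ (K : Type) (_ : Field K) (_ : TopologicalSpace K), IsTopologicalDivisionRing K ∧
      ConnectedSpace K ∧ ∃ f : F →+* K, IsInducing f := by
  classical
  by_cases hT : ∃ W ∈ 𝓝 (0 : F), W ≠ Set.univ
  swap
  · -- the indiscrete topology
    push Not at hT
    have htop : ∀ s : Set F, IsOpen s → s = ∅ ∨ s = Set.univ := by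
      intro s hs
      by_cases hne : s = ∅
      · exact Or.inl hne
      · right
        obtain ⟨x, hx⟩ := Set.nonempty_iff_ne_empty.2 hne
        have h1 : {w : F | x + w ∈ s} ∈ 𝓝 (0 : F) := by
          have : Tendsto (fun w : F => x + w) (𝓝 0) (𝓝 x) := by
            have := (continuous_const_add x).tendsto 0
            rwa [add_zero] at this
          exact this (hs.mem_nhds hx)
        have h2 := hT _ h1
        refine Set.eq_univ_of_forall fun y => ?_
        have h3 : y - x ∈ {w : F | x + w ∈ s} := by rw [h2]; trivial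
        simpa using h3
    have hpre : PreconnectedSpace F := by
      rw [preconnectedSpace_iff_clopen]
      intro s hs
      exact htop s hs.isOpen
    exact ⟨F, inferInstance, inferInstance, inferInstance, { toNonempty := ⟨0⟩ }, RingHom.id F,
      IsInducing.id⟩
  -- the field is infinite
  have hinf : Infinite F := by
    by_contra hfin
    rw [not_infinite_iff_finite] at hfin
    -- Hausdorff
    obtain ⟨W, hW, hWne⟩ := hT
    have hT1 : ∀ x : F, x ≠ 0 → ∃ V ∈ 𝓝 (0 : F), x ∉ V := by
      intro x hx
      obtain ⟨y, hy⟩ := (Set.ne_univ_iff_exists_notMem W).1 hWne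
      have h1 : Tendsto (fun w : F => y * x⁻¹ * w) (𝓝 0) (𝓝 0) := by
        have := (continuous_const_mul (y * x⁻¹)).tendsto 0
        rwa [mul_zero] at this
      refine ⟨_, h1 hW, fun h => hy ?_⟩
      simp only [Set.mem_preimage] at h
      rwa [mul_assoc, inv_mul_cancel₀ hx, mul_one] at h
    choose! V hV hxV using hT1
    have h2 : (⋂ x ∈ {x : F | x ≠ 0}, V x) ∈ 𝓝 (0 : F) := by
      rw [Filter.biInter_mem (Set.toFinite _)]
      intro x hx
      exact hV x hx
    obtain ⟨x, hx, hx0⟩ := hnd _ h2
    exact hxV x hx0 (Set.mem_iInter₂.1 hx x hx0)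
  letI : TopologicalSpace (UP F) := (ultraBase hP).top
  haveI : IsTopologicalDivisionRing (UP F) := (ultraBase hP).isTopologicalDivisionRing
  letI : Algebra F (UP F) := (cm F).toAlgebra
  haveI : BaireSpace (UP F) := ultra_baire hP
  refine exists_connected_of_P (F := F) (E := UP F) (ultra_inducing hP) (ultra_P hP) ?_
    (fun x => if h : ∃ c : F, cm F c = x then star' (b h.choose) else Set.univ) ?_ ?_
    (continuum_le_ultra F) (ultra_trdeg F)
  · intro W hW
    obtain ⟨V, hV, hVW⟩ := (ultra_mem hP).1 hW
    obtain ⟨x, hx, hx0⟩ := hnd V hV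
    refine ⟨cm F x, hVW (cm_mem.2 hx), ?_⟩
    rw [Ne, map_eq_zero]
    exact hx0
  · intro x
    by_cases h : ∃ c : F, cm F c = x
    · simp only [dif_pos h]
      exact (ultra_mem hP).2 ⟨_, hb _, Subset.rfl⟩
    · simp only [dif_neg h]
      exact univ_mem
  · intro W hW
    obtain ⟨V, hV, hVW⟩ := (ultra_mem hP).1 hW
    obtain ⟨x, hx⟩ := hb' V hV
    refine ⟨cm F x, ?_⟩
    have h : ∃ c : F, cm F c = cm F x := ⟨x, rfl⟩
    have h' : h.choose = x := (cm F).injective h.choose_spec
    simp only [dif_pos h]
    rw [h']
    exact (star'_mono hx).trans hVW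

end Pool.Agent.TopF
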