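import Pool.Agent.TopF.Frac
import Pool.Agent.TopF.PCase
import Pool.Agent.TopF.Discrete

/-!
# P-space topological fields: enlarging the field, and the general theorem
-/

set_option autoImplicit false

open Topology Filter Set
open scoped ENNReal

namespace Pool.Agent.TopF

section

variable {F I : Type} [Field F]

/-- small sets of evaluation points: those on which some nonzero polynomial vanishes -/
def nullI (c : ℕ → F) (S : Set (I → ℕ)) : Prop :=
  ∃ P : MvPolynomial I F, P ≠ 0 ∧ ∀ x ∈ S, MvPolynomial.eval (fun i => c (x i)) P = 0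

open Classical in
/-- the zero-one submeasure -/
noncomputable def submI (I : Type) (c : ℕ → F) : Subm (I → ℕ) where
  m := fun S => if nullI c S then 0 else 1
  empty := by
    rw [if_pos]
    exact ⟨1, one_ne_zero, fun x hx => absurd hx (Set.notMem_empty x)⟩
  mono := by
    intro s t hst
    by_cases ht : nullI c t
    · obtain ⟨P, hP, h⟩ := ht
      rw [if_pos ⟨P, hP, fun x hx => h x (hst hx)⟩]
      exact zero_le
    · rw [if_neg ht]
      split_ifs
      · exact zero_le
      · exact le_refl _
  union := by
    intro s t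
    by_cases hs : nullI c s
    · by_cases ht : nullI c t
      · obtain ⟨P, hP, h⟩ := hs
        obtain ⟨Q, hQ, h'⟩ := ht
        have hst : nullI c (s ∪ t) := by
          refine ⟨P * Q, mul_ne_zero hP hQ, fun x hx => ?_⟩
          rw [map_mul]
          rcases hx with hx | hx
          · rw [h x hx, zero_mul]
          · rw [h' x hx, mul_zero]
        rw [if_pos hst]
        exact zero_le
      · rw [if_neg ht]
        refine le_trans ?_ le_add_self
        split_ifs
        · exact zero_le
        · exact le_refl _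
    · rw [if_neg hs]
      refine le_trans ?_ le_self_add
      split_ifs
      · exact zero_le
      · exact le_refl _

theorem submI_zero {c : ℕ → F} {S : Set (I → ℕ)} : (submI I c).m S = 0 ↔ nullI c S := by
  simp only [submI]
  split_ifs with h
  · simp [h]
  · simp [h]

theorem submI_lt {c : ℕ → F} {S : Set (I → ℕ)} {ε : ℝ≥0∞} (hε : 0 < ε) (hε1 : ε ≤ 1) :
    (submI I c).m S < ε ↔ nullI c S := by
  simp only [submI]
  split_ifs with h
  · simp [h, hε]
  · simp [h, hε1]

theorem submI_univ {c : ℕ → F} (hc : Function.Injective c) : (submI I c).m univ ≠ 0 := by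
  rw [Ne, submI_zero]
  rintro ⟨P, hP, h⟩
  apply hP
  have hinf : Infinite (Set.range c) := Infinite.of_injective (fun n => ⟨c n, n, rfl⟩)
    (fun a b hab => hc (Subtype.ext_iff.1 hab))
  apply MvPolynomial.funext_set (fun _ => Set.range c) (fun _ => Set.infinite_coe_iff.1 hinf)
  intro x hx
  choose k hk using fun i => hx i (Set.mem_univ i)
  have h1 := h k (Set.mem_univ _)
  have h2 : (fun i => c (k i)) = x := funext hk
  rw [h2] at h1
  rw [h1, map_zero]

theorem submI_ne (c : ℕ → F) (P : MvPolynomial I F) (hP : P ≠ 0) :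
    ∀ᶠ x in (submI I c).ae, MvPolynomial.eval (fun i => c (x i)) P ≠ 0 := by
  rw [Filter.eventually_iff, Subm.mem_ae, submI_zero]
  refine ⟨P, hP, fun x hx => ?_⟩
  simpa using hx

theorem countable_eval (c : ℕ → F) (P : MvPolynomial I F) :
    (Set.range (fun x : I → ℕ => MvPolynomial.eval (fun i => c (x i)) P)).Countable := by
  classical
  let g : (P.vars → ℕ) → F := fun l =>
    MvPolynomial.eval (fun i => if h : i ∈ P.vars then c (l ⟨i, h⟩) else 0) P
  refine (Set.countable_range g).mono ?_
  rintro _ ⟨x, rfl⟩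
  refine ⟨fun i => x i, ?_⟩
  simp only [g]
  apply MvPolynomial.eval₂_congr
  intro i m hi hm
  have hiv : i ∈ P.vars := by
    rw [MvPolynomial.mem_vars_iff_mem_support]
    exact ⟨m, by simpa [MvPolynomial.mem_support_iff] using hm, hi⟩
  rw [dif_pos hiv]

variable [TopologicalSpace F] [IsTopologicalDivisionRing F]

/-- the evaluation structure -/
noncomputable def evalI (I : Type) (hP : CountableInterFilter (𝓝 (0 : F))) (c : ℕ → F) :
    Eval (FractionRing (MvPolynomial I F)) F (I → ℕ) (submI I c) :=
  fracEval (submI I c) (fun x => MvPolynomial.eval (fun i => c (x i))) (submI_ne c) (by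
    intro P Q _ U hU ε hε
    have h1 := countable_eval c P
    have h2 := countable_eval c Q
    have h3 := h1.image2 h2 (fun a b => a / b)
    have h4 : (⋂ z ∈ Set.image2 (fun a b => a / b)
        (Set.range (fun x : I → ℕ => MvPolynomial.eval (fun i => c (x i)) P))
        (Set.range (fun x : I → ℕ => MvPolynomial.eval (fun i => c (x i)) Q)),
        {v : F | z * v ∈ U}) ∈ 𝓝 (0 : F) := by
      rw [countable_bInter_mem h3]
      intro z _
      have : Tendsto (fun v : F => z * v) (𝓝 0) (𝓝 0) := by
        have := (continuous_const_mul z).tendsto 0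
        rwa [mul_zero] at this
      exact this hU
    refine ⟨_, h4, ?_⟩
    have h5 : {x : I → ℕ | ∃ v ∈ (⋂ z ∈ Set.image2 (fun a b => a / b)
        (Set.range (fun x : I → ℕ => MvPolynomial.eval (fun i => c (x i)) P))
        (Set.range (fun x : I → ℕ => MvPolynomial.eval (fun i => c (x i)) Q)),
        {v : F | z * v ∈ U}), MvPolynomial.eval (fun i => c (x i)) P
          / MvPolynomial.eval (fun i => c (x i)) Q * v ∉ U} = ∅ := by
      ext x
      simp only [Set.mem_ofPred_eq, Set.mem_empty_iff_false, iff_false, not_exists, not_and,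
        not_not]
      intro v hv
      exact Set.mem_iInter₂.1 hv _ ⟨_, ⟨x, rfl⟩, _, ⟨x, rfl⟩, rfl⟩
    rw [h5, (submI I c).empty]
    exact hε)

theorem evalI_mem (hP : CountableInterFilter (𝓝 (0 : F))) (c : ℕ → F)
    {W : Set (FractionRing (MvPolynomial I F))} :
    W ∈ @nhds _ (evalI I hP c).base.top 0 ↔ ∃ U ∈ 𝓝 (0 : F), (evalI I hP c).N U 1 ⊆ W := by
  rw [(evalI I hP c).nhds_zero.mem_iff]
  constructor
  · rintro ⟨⟨U, ε⟩, ⟨hU, hε⟩, h⟩
    refine ⟨U, hU, fun a ha => h ?_⟩
    rw [Eval.mem_N] at ha ⊢
    rw [submI_lt zero_lt_one le_rfl] at ha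
    rw [submI_zero.2 ha]
    exact hε
  · rintro ⟨U, hU, h⟩
    exact ⟨(U, 1), ⟨hU, zero_lt_one⟩, h⟩

theorem evalI_P (hP : CountableInterFilter (𝓝 (0 : F))) (c : ℕ → F) :
    CountableInterFilter (@nhds _ (evalI I hP c).base.top 0) := by
  refine ⟨fun S hS hmem => ?_⟩
  choose V hV hVs using fun s : S => (evalI_mem hP c).1 (hmem s.1 s.2)
  haveI : Countable S := hS.to_subtype
  refine (evalI_mem hP c).2 ⟨⋂ s, V s, countable_iInter_mem.2 hV, ?_⟩
  intro x hx s hs
  exact hVs ⟨s, hs⟩ ((evalI I hP c).N_mono (Set.iInter_subset _ _) le_rfl hx)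

/-- the coefficients -/
noncomputable def jI (I F : Type) [Field F] : F →+* FractionRing (MvPolynomial I F) :=
  (algebraMap (MvPolynomial I F) _).comp MvPolynomial.C

theorem evalI_inducing (hP : CountableInterFilter (𝓝 (0 : F))) {c : ℕ → F}
    (hc : Function.Injective c) :
    @IsInducing F (FractionRing (MvPolynomial I F)) _ (evalI I hP c).base.top (jI I F) := by
  refine (evalI I hP c).isInducing_const (jI I F) (RingHom.id F) IsInducing.id (submI_univ hc)
    (fun a => ?_)
  filter_upwards [evf_alg (submI_ne c) (MvPolynomial.C a)] with x hx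
  change evf (fun x => MvPolynomial.eval (fun i => c (x i))) (jI I F a) x = _ at hx
  change evf (fun x => MvPolynomial.eval (fun i => c (x i))) (jI I F a) x = _
  rw [hx]
  simp

end

/-- **P-space topological fields embed in connected topological fields.** -/
theorem exists_connected_of_countableInter (F : Type) [Field F] [TopologicalSpace F]
    [IsTopologicalDivisionRing F] (hP : CountableInterFilter (𝓝 (0 : F))) :
    ∃ (K : Type) (_ : Field K) (_ : TopologicalSpace K), IsTopologicalDivisionRing K ∧
      ConnectedSpace K ∧ ∃ f : F →+* K, IsInducing f := by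
  classical
  by_cases hnd : ∀ W ∈ 𝓝 (0 : F), ∃ x ∈ W, x ≠ 0
  swap
  · -- discrete
    push Not at hnd
    obtain ⟨W, hW, hW0⟩ := hnd
    haveI : DiscreteTopology F := by
      rw [discreteTopology_iff_isOpen_singleton_zero, isOpen_singleton_iff_nhds_eq_pure]
      refine le_antisymm ?_ (pure_le_nhds 0)
      rw [Filter.le_pure_iff]
      exact Filter.mem_of_superset hW (fun x hx => hW0 x hx)
    obtain ⟨t, h1, h2, h3⟩ := (pathGood_discrete F).exists
    letI := t
    exact ⟨KK F, inferInstance, t, h1, inferInstance, jj F, h3⟩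
  by_cases hT : ∃ W ∈ 𝓝 (0 : F), W ≠ Set.univ
  swap
  · -- the indiscrete topology
    push Not at hT
    have htop : ∀ s : Set F, IsOpen s → s = ∅ ∨ s = Set.univ := by
      intro s hs
      by_cases hne : s = ∅
      · exact Or.inl hne
      · right
        obtain ⟨x, hx⟩ := Set.nonempty_iff_ne_empty.2 hne
        have h1 : {w : F | x + w ∈ s} ∈ 𝓝 (0 : F) := by
          have : Tendsto (fun w : F => x + w) (𝓝 0) (𝓝 x) := by
            have := (continuous_const_add x).tendsto 0
            rwa [add_zero] at this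
          exact this (hs.mem_nhds hx)
        have h2 := hT _ h1
        refine Set.eq_univ_of_forall fun y => ?_
        have h3 : y - x ∈ {w : F | x + w ∈ s} := by rw [h2]; trivial
        simpa using h3
    have hpre : PreconnectedSpace F := by
      rw [preconnectedSpace_iff_clopen]
      intro s hs
      exact htop s hs.isOpen
    exact ⟨F, inferInstance, inferInstance, inferInstance, { toNonempty := ⟨0⟩ }, RingHom.id F,
      IsInducing.id⟩
  -- the field is infinite
  have hinf : Infinite F := by
    by_contra hfin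
    rw [not_infinite_iff_finite] at hfin
    obtain ⟨W, hW, hWne⟩ := hT
    have hT1 : ∀ x : F, x ≠ 0 → ∃ V ∈ 𝓝 (0 : F), x ∉ V := by
      intro x hx
      obtain ⟨y, hy⟩ := (Set.ne_univ_iff_exists_notMem W).1 hWne
      have h1 : Tendsto (fun w : F => y * x⁻¹ * w) (𝓝 0) (𝓝 0) := by
        have := (continuous_const_mul (y * x⁻¹)).tendsto 0
        rwa [mul_zero] at this
      refine ⟨_, h1 hW, fun h => hy ?_⟩
      simp only [Set.mem_preimage] at h
      rwa [mul_assoc, inv_mul_cancel₀ hx, mul_one] at h
    choose! V hV hxV using hT1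
    have h2 : (⋂ x ∈ {x : F | x ≠ 0}, V x) ∈ 𝓝 (0 : F) := by
      rw [Filter.biInter_mem (Set.toFinite _)]
      intro x hx
      exact hV x hx
    obtain ⟨x, hx, hx0⟩ := hnd _ h2
    exact hxV x hx0 (Set.mem_iInter₂.1 hx x hx0)
  let c : ℕ → F := Infinite.natEmbedding F
  have hc : Function.Injective c := (Infinite.natEmbedding F).injective
  let e := evalI (Set F) hP c
  let E := FractionRing (MvPolynomial (Set F) F)
  letI : TopologicalSpace E := e.base.top
  haveI : IsTopologicalDivisionRing E := e.isTopologicalDivisionRing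
  have hj : IsInducing (jI (Set F) F) := evalI_inducing (I := Set F) hP hc
  let xI : Set F → E := fun W => algebraMap (MvPolynomial (Set F) F) E (MvPolynomial.X W)
  have hxI : Function.Injective xI := by
    intro a b hab
    exact MvPolynomial.X_injective (IsFractionRing.injective (MvPolynomial (Set F) F) E hab)
  obtain ⟨K, iF, iT, h1, h2, f, hf⟩ := exists_connected_of_pspace E (evalI_P hP c) (by
      intro W hW
      have h0 : jI (Set F) F ⁻¹' W ∈ 𝓝 (0 : F) := by
        apply hj.continuous.continuousAt.preimage_mem_nhds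
        rwa [map_zero]
      obtain ⟨x, hx, hx0⟩ := hnd _ h0
      exact ⟨jI (Set F) F x, hx, by rwa [Ne, map_eq_zero]⟩)
    (fun x => if h : ∃ W : Set F, W ∈ 𝓝 (0 : F) ∧ xI W = x then e.N h.choose 1 else Set.univ)
    (by
      intro x
      by_cases h : ∃ W : Set F, W ∈ 𝓝 (0 : F) ∧ xI W = x
      · simp only [dif_pos h]
        exact (evalI_mem hP c).2 ⟨_, h.choose_spec.1, Subset.rfl⟩
      · simp only [dif_neg h]
        exact univ_mem)
    (by
      intro W hW
      obtain ⟨U, hU, hUW⟩ := (evalI_mem hP c).1 hW
      refine ⟨xI U, ?_⟩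
      have h : ∃ W : Set F, W ∈ 𝓝 (0 : F) ∧ xI W = xI U := ⟨U, hU, rfl⟩
      have h' : h.choose = U := hxI h.choose_spec.2
      simp only [dif_pos h]
      rw [h']
      exact hUW)
  exact ⟨K, iF, iT, h1, h2, f.comp (jI (Set F) F), hf.comp hj⟩

end Pool.Agent.TopF
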