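import Pool.Agent.TopF.Base

/-!
# Generic elements in neighbourhoods of zero, by transfinite recursion
-/

set_option autoImplicit false

open Topology Filter Set Cardinal

namespace Pool.Agent.TopF

universe u

section

variable {F E : Type u} [Field F] [Field E] [Algebra F E]

/-- a family indexed by a linear order, each member being transcendental over the previous ones,
is algebraically independent -/
theorem algInd_of_Iio {o : Type*} [LinearOrder o] (g : o → E)
    (h : ∀ i, Transcendental (Algebra.adjoin F (g '' Iio i)) (g i)) :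
    AlgebraicIndependent F g := by
  classical
  apply algebraicIndependent_of_finite_type
  intro t ht
  obtain ⟨s, rfl⟩ := ht.exists_finset_coe
  change AlgebraicIndepOn F g (s : Set o)
  induction s using Finset.induction_on_max with
  | empty =>
    rw [Finset.coe_empty]
    change AlgebraicIndependent F fun i : (∅ : Set o) => g i
    exact algebraicIndependent_empty_type
  | insert a s ha ih =>
    rw [Finset.coe_insert]
    apply AlgebraicIndepOn.insert (ih (Finset.finite_toSet s))
    refine (h a).of_tower_top_of_subalgebra_le (Algebra.adjoin_mono (Set.image_mono ?_))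
    intro x hx
    exact ha x hx

/-- shifting by elements of the base ring preserves transcendence -/
theorem transcendental_add {A : Subalgebra F E} {c y : E} (hc : c ∈ A) (hy : Transcendental A y) :
    Transcendental A (c + y) := by
  intro h
  apply hy
  have h1 : IsAlgebraic A c := isAlgebraic_algebraMap (⟨c, hc⟩ : A)
  have h2 := h.sub h1
  rwa [add_sub_cancel_left] at h2

variable [TopologicalSpace E] [IsTopologicalDivisionRing E]

theorem exists_generic (htr : #E ≤ Algebra.trdeg F E) (hnd : ∀ W ∈ 𝓝 (0 : E), ∃ x ∈ W, x ≠ 0)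
    (S : Set E) (hS : #S < #E) (W : Set E) (hW : W ∈ 𝓝 (0 : E)) :
    ∃ y ∈ W, Transcendental (Algebra.adjoin F S) y := by
  by_contra hcon
  push Not at hcon
  have halg : Algebra.IsAlgebraic (Algebra.adjoin F S) E := by
    refine ⟨fun x => ?_⟩
    have h1 : {a : E | x * a ∈ W} ∈ 𝓝 (0 : E) := by
      have : Tendsto (fun a : E => x * a) (𝓝 0) (𝓝 0) := by
        have := (continuous_const_mul x).tendsto 0
        rwa [mul_zero] at this
      exact this hW
    obtain ⟨a, ⟨ha1, ha2⟩, ha0⟩ := hnd _ (inter_mem h1 hW)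
    have h2 : IsAlgebraic (Algebra.adjoin F S) (x * a) := not_not.1 (hcon _ ha1)
    have h3 : IsAlgebraic (Algebra.adjoin F S) a := not_not.1 (hcon _ ha2)
    have h4 : x = x * a * a⁻¹ := by rw [mul_assoc, mul_inv_cancel₀ ha0, mul_one]
    rw [h4]
    exact h2.mul h3.inv
  have := Algebra.IsAlgebraic.trdeg_le_cardinalMk F S
  exact absurd (htr.trans this) (not_le.2 hS)

/-- the set over which the `i`-th element has to be generic -/
def genSet {o : Type u} [LinearOrder o] (z y : o → E) (i : o) : Set E :=
  {z i} ∪ (z '' Iio i ∪ y '' Iio i)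

omit [Field E] [TopologicalSpace E] [IsTopologicalDivisionRing E] in
theorem genSet_lt {o : Type u} [LinearOrder o] (hE : ℵ₀ ≤ #E) (ho : ∀ i : o, #(Iio i) < #E)
    (z y : o → E) (i : o) : #(genSet z y i) < #E := by
  have h1 : #(z '' Iio i) < #E := lt_of_le_of_lt mk_image_le (ho i)
  have h2 : #(y '' Iio i) < #E := lt_of_le_of_lt mk_image_le (ho i)
  have h3 : #({z i} : Set E) < #E := by
    rw [mk_singleton]
    exact lt_of_lt_of_le one_lt_aleph0 hE
  exact lt_of_le_of_lt (mk_union_le _ _) (add_lt_of_lt hE h3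
    (lt_of_le_of_lt (mk_union_le _ _) (add_lt_of_lt hE h1 h2)))

theorem exists_generic_family {o : Type u} [LinearOrder o] [WellFoundedLT o]
    (htr : #E ≤ Algebra.trdeg F E) (hnd : ∀ W ∈ 𝓝 (0 : E), ∃ x ∈ W, x ≠ 0) (hE : ℵ₀ ≤ #E)
    (ho : ∀ i : o, #(Iio i) < #E) (z : o → E) (W : o → Set E) (hW : ∀ i, W i ∈ 𝓝 (0 : E)) :
    ∃ y : o → E, (∀ i, y i ∈ W i) ∧
      ∀ i, Transcendental (Algebra.adjoin F (genSet z y i)) (y i) := by
  classical
  -- extension of a partial function by zero
  let ext : (i : o) → ((j : o) → j < i → E) → (o → E) := fun i f j =>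
    if h : j < i then f j h else 0
  have hex : ∀ (i : o) (f : (j : o) → j < i → E), ∃ y ∈ W i,
      Transcendental (Algebra.adjoin F (genSet z (ext i f) i)) y := fun i f =>
    exists_generic htr hnd _ (genSet_lt hE ho z _ i) (W i) (hW i)
  let y : o → E := WellFounded.fix (wellFounded_lt (α := o)) (fun i f => (hex i f).choose)
  have hy : ∀ i, y i = (hex i (fun j _ => y j)).choose := by
    intro i
    simp only [y]
    rw [WellFounded.fix_eq]
  have hgen : ∀ i, genSet z (ext i (fun j _ => y j)) i = genSet z y i := by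
    intro i
    simp only [genSet]
    congr 2
    ext x
    simp only [Set.mem_image, Set.mem_Iio, ext]
    constructor
    · rintro ⟨j, hj, rfl⟩
      exact ⟨j, hj, by rw [dif_pos hj]⟩
    · rintro ⟨j, hj, rfl⟩
      exact ⟨j, hj, by rw [dif_pos hj]⟩
  refine ⟨y, fun i => ?_, fun i => ?_⟩
  · rw [hy]
    exact (hex i (fun j _ => y j)).choose_spec.1
  · have := (hex i (fun j _ => y j)).choose_spec.2
    rw [← hy, hgen] at this
    exact this

omit [TopologicalSpace E] [IsTopologicalDivisionRing E] in
/-- all the perturbed families are algebraically independent -/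
theorem algInd_perturbed {o : Type u} [LinearOrder o] (z y : o → E)
    (hy : ∀ i, Transcendental (Algebra.adjoin F (genSet z y i)) (y i)) (c : o → F) :
    AlgebraicIndependent F (fun i => algebraMap F E (c i) + z i + y i) := by
  apply algInd_of_Iio
  intro i
  have hmemz : z i ∈ Algebra.adjoin F (genSet z y i) :=
    Algebra.subset_adjoin (Or.inl rfl)
  have h1 : Transcendental (Algebra.adjoin F (genSet z y i))
      (algebraMap F E (c i) + z i + y i) := by
    apply transcendental_add _ (hy i)
    exact add_mem (Subalgebra.algebraMap_mem _ _) hmemz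
  refine h1.of_tower_top_of_subalgebra_le ?_
  rw [Algebra.adjoin_le_iff]
  rintro _ ⟨j, hj, rfl⟩
  have hzj : z j ∈ Algebra.adjoin F (genSet z y i) :=
    Algebra.subset_adjoin (Or.inr (Or.inl ⟨j, hj, rfl⟩))
  have hyj : y j ∈ Algebra.adjoin F (genSet z y i) :=
    Algebra.subset_adjoin (Or.inr (Or.inr ⟨j, hj, rfl⟩))
  exact add_mem (add_mem (Subalgebra.algebraMap_mem _ _) hzj) hyj

/-- The generic family indexed by an arbitrary set of size `#E`. -/
theorem exists_generic_index {I : Type u} (hI : #I = #E)
    (htr : #E ≤ Algebra.trdeg F E) (hnd : ∀ W ∈ 𝓝 (0 : E), ∃ x ∈ W, x ≠ 0) (hE : ℵ₀ ≤ #E)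
    (z : I → E) (W : I → Set E) (hW : ∀ i, W i ∈ 𝓝 (0 : E)) :
    ∃ y : I → E, (∀ i, y i ∈ W i) ∧
      ∀ c : I → F, AlgebraicIndependent F (fun i => algebraMap F E (c i) + z i + y i) := by
  let o : Type u := (#E).ord.ToType
  have ho : #o = #I := by rw [Cardinal.mk_ord_toType, hI]
  obtain ⟨e⟩ := Cardinal.eq.1 ho
  obtain ⟨y, hyW, hy⟩ := exists_generic_family (o := o) htr hnd hE
    (fun i => Cardinal.mk_Iio_toType_ord_lt i) (z ∘ e) (W ∘ e) (fun i => hW _)
  refine ⟨y ∘ e.symm, fun i => ?_, fun c => ?_⟩
  · have := hyW (e.symm i)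
    simpa using this
  · have := algInd_perturbed (z ∘ e) y hy (c ∘ e)
    rw [← algebraicIndependent_equiv e]
    have e2 : (fun i => algebraMap F E (c i) + z i + (y ∘ e.symm) i) ∘ e
        = fun i => algebraMap F E ((c ∘ e) i) + (z ∘ e) i + y i := by
      funext i
      simp
    rw [e2]
    exact this

end

end Pool.Agent.TopF
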