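import Pool.Agent.TopF.Meas

/-!
# Path-connected extensions from tree-indexed series

`K = F(X_t : t ∈ [0,1])`; `X_t` is evaluated at `(N, ω)` as `∑_{n<N} y n ⌊2^n (ω+t)⌋`.
-/

set_option autoImplicit false

open Topology Filter Set MeasureTheory
open scoped ENNReal unitInterval

namespace Pool.Agent.TopF

/-- the rational function field in variables indexed by `[0,1]` -/
abbrev KK (F : Type*) [Field F] : Type _ := FractionRing (MvPolynomial unitInterval F)

/-- the field homomorphism from the coefficients -/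
noncomputable def jj (F : Type*) [Field F] : F →+* KK F :=
  (algebraMap (MvPolynomial unitInterval F) (KK F)).comp MvPolynomial.C

/-- the variables, as elements of the rational function field -/
noncomputable def xx (F : Type*) [Field F] (t : unitInterval) : KK F :=
  algebraMap (MvPolynomial unitInterval F) (KK F) (MvPolynomial.X t)

/-- The topology `τ` on `F` extends to a field topology on `F(X_t)` for which `t ↦ X_t` is
continuous. -/
def PathGood (F : Type*) [Field F] (τ : TopologicalSpace F) : Prop :=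
  ∃ t : TopologicalSpace (KK F), @IsTopologicalDivisionRing (KK F) _ t ∧
    @IsInducing F (KK F) τ t (jj F) ∧ @Continuous unitInterval (KK F) _ t (xx F)

theorem ennreal_limsup_add_le (u v : ℕ → ℝ≥0∞) :
    limsup (fun n => u n + v n) atTop ≤ limsup u atTop + limsup v atTop := by
  refine ENNReal.le_of_forall_pos_le_add (fun ε hε h => ?_)
  have hε2 : (0 : ℝ≥0∞) < (ε : ℝ≥0∞) / 2 := ENNReal.half_pos (by exact_mod_cast hε.ne')
  have ha : limsup u atTop ≠ ⊤ := (ENNReal.add_lt_top.1 h).1.ne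
  have hb : limsup v atTop ≠ ⊤ := (ENNReal.add_lt_top.1 h).2.ne
  have hu := eventually_lt_of_limsup_lt (ENNReal.lt_add_right ha hε2.ne')
  have hv := eventually_lt_of_limsup_lt (ENNReal.lt_add_right hb hε2.ne')
  refine limsup_le_of_le (by isBoundedDefault) ?_
  filter_upwards [hu, hv] with n h1 h2
  calc u n + v n ≤ (limsup u atTop + (ε : ℝ≥0∞) / 2) + (limsup v atTop + (ε : ℝ≥0∞) / 2) :=
        add_le_add h1.le h2.le
    _ = limsup u atTop + limsup v atTop + ((ε : ℝ≥0∞) / 2 + (ε : ℝ≥0∞) / 2) := by ring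
    _ = limsup u atTop + limsup v atTop + ε := by rw [ENNReal.add_halves]

theorem pathGood_iInf {F ι : Type*} [Field F] (τ : ι → TopologicalSpace F)
    (h : ∀ i, PathGood F (τ i)) : PathGood F (⨅ i, τ i) := by
  choose t h1 h2 h3 using h
  refine ⟨⨅ i, t i, isTopologicalDivisionRing_iInf t h1, ?_, ?_⟩
  · refine @IsInducing.mk F (KK F) (⨅ i, τ i) (⨅ i, t i) _ ?_
    rw [induced_iInf]
    exact iInf_congr fun i => @IsInducing.eq_induced F (KK F) (τ i) (t i) _ (h2 i)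
  · exact continuous_iInf_rng.2 h3

theorem xx_injective (F : Type*) [Field F] : Function.Injective (xx F) := by
  intro a b hab
  have h1 := IsFractionRing.injective (MvPolynomial unitInterval F) (KK F) hab
  exact MvPolynomial.X_injective h1

theorem PathGood.exists {F : Type*} [Field F] {τ : TopologicalSpace F} (h : PathGood F τ) :
    ∃ t : TopologicalSpace (KK F), @IsTopologicalDivisionRing (KK F) _ t ∧
      @PathConnectedSpace (KK F) t ∧ @IsInducing F (KK F) τ t (jj F) := by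
  obtain ⟨t, h1, h2, h3⟩ := h
  refine ⟨t, h1, ?_, h2⟩
  letI := t
  haveI := h1
  exact pathConnected_of_path (xx F) h3 (fun h => by
    have := xx_injective F h
    simp at this)

/-- limsup of the Lebesgue outer measures of the slices -/
noncomputable def limSubm : Subm (ℕ × ℝ) where
  m := fun S => limsup (fun N : ℕ => volume ({ω : ℝ | (N, ω) ∈ S} ∩ Icc 0 1)) atTop
  empty := by simp
  mono := by
    intro s t hst
    refine limsup_le_limsup (Eventually.of_forall fun N => ?_)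
    exact measure_mono (inter_subset_inter_left _ fun ω hω => hst hω)
  union := by
    intro s t
    refine le_trans (limsup_le_limsup (Eventually.of_forall fun N => ?_))
      (ennreal_limsup_add_le _ _)
    have : {ω : ℝ | (N, ω) ∈ s ∪ t} ∩ Icc 0 1
        = ({ω : ℝ | (N, ω) ∈ s} ∩ Icc 0 1) ∪ ({ω : ℝ | (N, ω) ∈ t} ∩ Icc 0 1) := by
      ext ω
      simp only [Set.mem_inter_iff, Set.mem_ofPred_eq, Set.mem_union]
      tauto
    simp only [this]
    exact measure_union_le _ _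

theorem limSubm_univ : limSubm.m univ ≠ 0 := by
  have : limSubm.m univ = 1 := by
    simp [limSubm]
  rw [this]
  exact one_ne_zero

theorem limSubm_ae {p : ℕ × ℝ → Prop} (h : ∃ N₀ : ℕ, ∀ N ≥ N₀, ∀ ω ∈ Icc (0 : ℝ) 1, p (N, ω)) :
    ∀ᶠ x in limSubm.ae, p x := by
  obtain ⟨N₀, h⟩ := h
  change limSubm.m {x | p x}ᶜ = 0
  have : limSubm.m {x | p x}ᶜ ≤ limsup (fun _ : ℕ => (0 : ℝ≥0∞)) atTop := by
    refine limsup_le_limsup ?_
    filter_upwards [eventually_ge_atTop N₀] with N hN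
    have : {ω : ℝ | (N, ω) ∈ {x | p x}ᶜ} ∩ Icc 0 1 = ∅ := by
      ext ω
      simp only [Set.mem_inter_iff, Set.mem_ofPred_eq, Set.mem_compl_iff, Set.mem_empty_iff_false,
        iff_false, not_and]
      intro h1 h2
      exact h1 (h N hN ω h2)
    rw [this]
    simp
  simpa using this

theorem limSubm_lt {S : Set (ℕ × ℝ)} {ε δ : ℝ≥0∞} (hδ : δ < ε)
    (h : ∃ N₀ : ℕ, ∀ N ≥ N₀, volume ({ω : ℝ | (N, ω) ∈ S} ∩ Icc 0 1) ≤ δ) :
    limSubm.m S < ε := by
  obtain ⟨N₀, h⟩ := h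
  refine lt_of_le_of_lt ?_ hδ
  have : limSubm.m S ≤ limsup (fun _ : ℕ => δ) atTop := by
    refine limsup_le_limsup ?_
    filter_upwards [eventually_ge_atTop N₀] with N hN
    exact h N hN
  simpa using this

section

variable {F E : Type*} [Field F] [Field E]

/-- partial sums along the branch determined by `b` -/
noncomputable def S (y : ℕ → ℕ → E) (N : ℕ) (b : ℝ) : E :=
  ∑ n ∈ Finset.range N, y n ⌊2 ^ n * b⌋₊

/-- evaluation of polynomials -/
noncomputable def pev (φ : F →+* E) (y : ℕ → ℕ → E) (x : ℕ × ℝ) :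
    MvPolynomial unitInterval F →+* E :=
  MvPolynomial.eval₂Hom φ (fun t => S y x.1 (x.2 + t))

/-- the conditions on a tree-indexed family -/
structure TreeData [TopologicalSpace E] (φ : F →+* E) (y : ℕ → ℕ → E) : Prop where
  ne : ∀ P : MvPolynomial unitInterval F, P ≠ 0 → ∃ N₀ : ℕ, ∀ N ≥ N₀, ∀ ω ∈ Icc (0 : ℝ) 1,
    pev φ y (N, ω) P ≠ 0
  cauchy : ∀ P : MvPolynomial unitInterval F, P ≠ 0 → ∀ W ∈ 𝓝 (0 : E), ∃ M : ℕ, ∀ N ≥ M,
    ∀ ω ∈ Icc (0 : ℝ) 1, pev φ y (N, ω) P - pev φ y (M, ω) P ∈ W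
  cauchy_inv : ∀ P : MvPolynomial unitInterval F, P ≠ 0 → ∀ W ∈ 𝓝 (0 : E), ∃ M : ℕ, ∀ N ≥ M,
    ∀ ω ∈ Icc (0 : ℝ) 1, (pev φ y (N, ω) P)⁻¹ - (pev φ y (M, ω) P)⁻¹ ∈ W
  unif : ∀ W ∈ 𝓝 (0 : E), ∃ M : ℕ, ∀ N ≥ M, ∀ b ∈ Icc (0 : ℝ) 2, S y N b - S y M b ∈ W

theorem floor_lt {n : ℕ} {b : ℝ} (hb : b ∈ Icc (0 : ℝ) 2) : ⌊2 ^ n * b⌋₊ < 2 ^ (n + 1) + 1 := by
  rw [Nat.floor_lt (mul_nonneg (by positivity) hb.1)]
  have : (2 : ℝ) ^ n * b ≤ 2 ^ n * 2 := mul_le_mul_of_nonneg_left hb.2 (by positivity)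
  push_cast
  rw [pow_succ]
  linarith

/-- finitely many values at each stage -/
theorem finite_range (φ : F →+* E) (y : ℕ → ℕ → E) (P : MvPolynomial unitInterval F) (M : ℕ) :
    {z : E | ∃ ω ∈ Icc (0 : ℝ) 1, pev φ y (M, ω) P = z}.Finite := by
  classical
  -- the labels of the first `M` levels for each variable in `P`
  let lab : ℝ → (P.vars → Fin M → ℕ) := fun ω t n => ⌊2 ^ (n : ℕ) * (ω + (t : unitInterval))⌋₊
  have hfin : (lab '' Icc (0 : ℝ) 1).Finite := by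
    have : lab '' Icc (0 : ℝ) 1 ⊆ {l : P.vars → Fin M → ℕ | ∀ t, l t ∈ {l' : Fin M → ℕ |
        ∀ n : Fin M, l' n ∈ Set.Iio (2 ^ ((n : ℕ) + 1) + 1)}} := by
      rintro _ ⟨ω, hω, rfl⟩
      intro t n
      simp only [Set.mem_Iio]
      apply floor_lt
      have := (t : unitInterval).2
      constructor
      · linarith [hω.1, this.1]
      · linarith [hω.2, this.2]
    refine Set.Finite.subset ?_ this
    exact Set.Finite.pi' fun _ => Set.Finite.pi' fun _ => Set.finite_Iio _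
  -- evaluation only depends on labels
  let g : (P.vars → Fin M → ℕ) → E := fun l =>
    MvPolynomial.eval₂ φ (fun t => if h : t ∈ P.vars then ∑ n : Fin M, y n (l ⟨t, h⟩ n) else 0) P
  refine (hfin.image g).subset ?_
  rintro z ⟨ω, hω, rfl⟩
  refine ⟨lab ω, ⟨ω, hω, rfl⟩, ?_⟩
  simp only [g, pev, MvPolynomial.coe_eval₂Hom]
  apply MvPolynomial.eval₂_congr
  intro i c hi hc
  have hiv : i ∈ P.vars := by
    rw [MvPolynomial.mem_vars_iff_mem_support]
    exact ⟨c, by simpa [MvPolynomial.mem_support_iff] using hc, hi⟩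
  rw [dif_pos hiv]
  simp only [lab, S]
  rw [Finset.sum_range]


theorem exists_rep (a : KK F) : ∃ p : MvPolynomial unitInterval F × MvPolynomial unitInterval F,
    p.2 ≠ 0 ∧ algebraMap _ (KK F) p.1 = a * algebraMap _ (KK F) p.2 := by
  obtain ⟨x, z, hz, h⟩ := IsFractionRing.div_surjective (MvPolynomial unitInterval F) a
  have hz0 : z ≠ 0 := nonZeroDivisors.ne_zero hz
  refine ⟨(x, z), hz0, ?_⟩
  have : algebraMap (MvPolynomial unitInterval F) (KK F) z ≠ 0 := by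
    simpa using hz0
  rw [← h]
  field_simp

/-- a numerator -/
noncomputable def nm (a : KK F) : MvPolynomial unitInterval F := (exists_rep a).choose.1

/-- a denominator -/
noncomputable def dn (a : KK F) : MvPolynomial unitInterval F := (exists_rep a).choose.2

theorem dn_ne (a : KK F) : dn a ≠ 0 := (exists_rep a).choose_spec.1

theorem nm_eq (a : KK F) : algebraMap _ (KK F) (nm a) = a * algebraMap _ (KK F) (dn a) :=
  (exists_rep a).choose_spec.2

variable [TopologicalSpace E] {φ : F →+* E} {y : ℕ → ℕ → E}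

theorem TreeData.ae_ne (td : TreeData φ y) {P : MvPolynomial unitInterval F} (hP : P ≠ 0) :
    ∀ᶠ x in limSubm.ae, pev φ y x P ≠ 0 :=
  limSubm_ae (td.ne P hP)

/-- evaluation of rational functions -/
noncomputable def evv (φ : F →+* E) (y : ℕ → ℕ → E) (a : KK F) (x : ℕ × ℝ) : E :=
  pev φ y x (nm a) / pev φ y x (dn a)

theorem TreeData.ev_eq (td : TreeData φ y) {P Q : MvPolynomial unitInterval F} (hQ : Q ≠ 0)
    (a : KK F) (h : algebraMap _ (KK F) P = a * algebraMap _ (KK F) Q) :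
    ∀ᶠ x in limSubm.ae, evv φ y a x = pev φ y x P / pev φ y x Q := by
  have h1 : nm a * Q = P * dn a := by
    apply IsFractionRing.injective (MvPolynomial unitInterval F) (KK F)
    rw [map_mul, map_mul, h, nm_eq]
    ring
  filter_upwards [td.ae_ne hQ, td.ae_ne (dn_ne a)] with x hx1 hx2
  rw [evv, div_eq_div_iff hx2 hx1, ← map_mul, ← map_mul, h1]

theorem TreeData.ev_alg (td : TreeData φ y) (P : MvPolynomial unitInterval F) :
    ∀ᶠ x in limSubm.ae, evv φ y (algebraMap _ (KK F) P) x = pev φ y x P := by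
  filter_upwards [td.ev_eq (P := P) (Q := 1) one_ne_zero (algebraMap _ (KK F) P)
    (by rw [map_one, mul_one])] with x hx
  rw [hx, map_one, div_one]

theorem TreeData.ev_add (td : TreeData φ y) (a b : KK F) :
    ∀ᶠ x in limSubm.ae, evv φ y (a + b) x = evv φ y a x + evv φ y b x := by
  have h : algebraMap _ (KK F) (nm a * dn b + nm b * dn a)
      = (a + b) * algebraMap _ (KK F) (dn a * dn b) := by
    rw [map_add, map_mul, map_mul, map_mul, nm_eq, nm_eq]
    ring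
  filter_upwards [td.ev_eq (mul_ne_zero (dn_ne a) (dn_ne b)) (a + b) h, td.ae_ne (dn_ne a),
    td.ae_ne (dn_ne b)] with x hx h1 h2
  rw [hx, evv, evv, map_add, map_mul, map_mul, map_mul]
  field_simp

theorem TreeData.ev_mul (td : TreeData φ y) (a b : KK F) :
    ∀ᶠ x in limSubm.ae, evv φ y (a * b) x = evv φ y a x * evv φ y b x := by
  have h : algebraMap _ (KK F) (nm a * nm b)
      = (a * b) * algebraMap _ (KK F) (dn a * dn b) := by
    rw [map_mul, map_mul, nm_eq, nm_eq]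
    ring
  filter_upwards [td.ev_eq (mul_ne_zero (dn_ne a) (dn_ne b)) (a * b) h, td.ae_ne (dn_ne a),
    td.ae_ne (dn_ne b)] with x hx h1 h2
  rw [hx, evv, evv, map_mul, map_mul]
  field_simp

variable [IsTopologicalDivisionRing E]

theorem bdd_of_cauchy (g : ℕ × ℝ → E)
    (hc : ∀ W ∈ 𝓝 (0 : E), ∃ M : ℕ, ∀ N ≥ M, ∀ ω ∈ Icc (0 : ℝ) 1, g (N, ω) - g (M, ω) ∈ W)
    (hf : ∀ M : ℕ, {z : E | ∃ ω ∈ Icc (0 : ℝ) 1, g (M, ω) = z}.Finite) :
    ∀ U ∈ 𝓝 (0 : E), ∃ V ∈ 𝓝 (0 : E), ∃ M : ℕ, ∀ N ≥ M, ∀ ω ∈ Icc (0 : ℝ) 1, ∀ v ∈ V,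
      g (N, ω) * v ∈ U := by
  intro U hU
  have h1 : Tendsto (fun p : E × E => p.1 + p.2) (𝓝 0 ×ˢ 𝓝 0) (𝓝 0) := by
    have := (continuous_add (M := E)).tendsto (0, 0)
    rwa [nhds_prod_eq, add_zero] at this
  obtain ⟨U₁, hU₁, U₂, hU₂, hUU⟩ := mem_prod_iff.1 (h1 hU)
  have h2 : Tendsto (fun p : E × E => p.1 * p.2) (𝓝 0 ×ˢ 𝓝 0) (𝓝 0) := by
    have := (continuous_mul (M := E)).tendsto (0, 0)
    rwa [nhds_prod_eq, mul_zero] at this
  obtain ⟨W₁, hW₁, W₂, hW₂, hWW⟩ := mem_prod_iff.1 (h2 hU₁)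
  obtain ⟨M, hM⟩ := hc W₁ hW₁
  have h3 : ∀ᶠ v in 𝓝 (0 : E), ∀ z ∈ {z : E | ∃ ω ∈ Icc (0 : ℝ) 1, g (M, ω) = z}, z * v ∈ U₂ := by
    rw [Set.Finite.eventually_all (hf M)]
    intro z _
    have : Tendsto (fun v : E => z * v) (𝓝 0) (𝓝 0) := by
      have := (continuous_const_mul z).tendsto 0
      rwa [mul_zero] at this
    exact this hU₂
  refine ⟨W₂ ∩ {v | ∀ z ∈ {z : E | ∃ ω ∈ Icc (0 : ℝ) 1, g (M, ω) = z}, z * v ∈ U₂},
    inter_mem hW₂ h3, M, fun N hN ω hω v hv => ?_⟩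
  have e1 : g (N, ω) * v = (g (N, ω) - g (M, ω)) * v + g (M, ω) * v := by ring
  rw [e1]
  exact hUU (Set.mk_mem_prod (hWW (Set.mk_mem_prod (hM N hN ω hω) hv.1))
    (hv.2 _ ⟨ω, hω, rfl⟩))

theorem TreeData.bdd (td : TreeData φ y) (a : KK F) : ∀ U ∈ 𝓝 (0 : E), ∃ V ∈ 𝓝 (0 : E),
    ∃ M : ℕ, ∀ N ≥ M, ∀ ω ∈ Icc (0 : ℝ) 1, ∀ v ∈ V, evv φ y a (N, ω) * v ∈ U := by
  intro U hU
  by_cases h0 : nm a = 0
  · refine ⟨univ, univ_mem, 0, fun N _ ω _ v _ => ?_⟩
    rw [evv, h0, map_zero, zero_div, zero_mul]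
    exact mem_of_mem_nhds hU
  · obtain ⟨V₁, hV₁, M₁, h1⟩ := bdd_of_cauchy (fun x => pev φ y x (nm a)) (td.cauchy _ h0)
      (finite_range φ y (nm a)) U hU
    obtain ⟨V₂, hV₂, M₂, h2⟩ := bdd_of_cauchy (fun x => (pev φ y x (dn a))⁻¹)
      (td.cauchy_inv _ (dn_ne a)) (fun M => by
        refine ((finite_range φ y (dn a) M).image (fun z => z⁻¹)).subset ?_
        rintro z ⟨ω, hω, rfl⟩
        exact ⟨_, ⟨ω, hω, rfl⟩, rfl⟩) V₁ hV₁
    refine ⟨V₂, hV₂, max M₁ M₂, fun N hN ω hω v hv => ?_⟩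
    rw [evv, div_mul_eq_mul_div, mul_div_assoc, div_eq_inv_mul]
    exact h1 N (le_trans (le_max_left _ _) hN) ω hω _
      (h2 N (le_trans (le_max_right _ _) hN) ω hω v hv)

/-- the evaluation structure -/
noncomputable def TreeData.eval (td : TreeData φ y) : Eval (KK F) E (ℕ × ℝ) limSubm where
  ev := evv φ y
  add := td.ev_add
  mul := td.ev_mul
  one := by
    filter_upwards [td.ev_alg 1] with x hx
    rwa [map_one, map_one] at hx
  bdd := by
    intro a U hU ε hε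
    obtain ⟨V, hV, M, h⟩ := td.bdd a U hU
    refine ⟨V, hV, limSubm_lt hε ⟨M, fun N hN => ?_⟩⟩
    have : {ω : ℝ | (N, ω) ∈ {x | ∃ v ∈ V, evv φ y a x * v ∉ U}} ∩ Icc 0 1 = ∅ := by
      ext ω
      simp only [Set.mem_inter_iff, Set.mem_ofPred_eq, Set.mem_empty_iff_false,
        iff_false, not_and]
      rintro ⟨v, hv, hvU⟩ hω
      exact hvU (h N hN ω hω v hv)
    rw [this]
    simp

theorem volume_bad (n : ℕ) (s t : ℝ) (hs : s ∈ Icc (0 : ℝ) 1) (ht : t ∈ Icc (0 : ℝ) 1) :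
    volume ({ω : ℝ | ⌊2 ^ n * (ω + t)⌋₊ ≠ ⌊2 ^ n * (ω + s)⌋₊} ∩ Icc 0 1)
      ≤ (2 ^ (n + 1) + 1 : ℕ) * ENNReal.ofReal |t - s| := by
  have hsub : {ω : ℝ | ⌊2 ^ n * (ω + t)⌋₊ ≠ ⌊2 ^ n * (ω + s)⌋₊} ∩ Icc 0 1
      ⊆ ⋃ k ∈ Finset.range (2 ^ (n + 1) + 1),
        Icc ((k : ℝ) / 2 ^ n - max t s) ((k : ℝ) / 2 ^ n - min t s) := by
    have hp : (0 : ℝ) < 2 ^ n := by positivity
    have key : ∀ (a b ω : ℝ), a ∈ Icc (0 : ℝ) 1 → b ∈ Icc (0 : ℝ) 1 → ω ∈ Icc (0 : ℝ) 1 →
        ⌊2 ^ n * (ω + a)⌋₊ < ⌊2 ^ n * (ω + b)⌋₊ → ω ∈ ⋃ k ∈ Finset.range (2 ^ (n + 1) + 1),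
        Icc ((k : ℝ) / 2 ^ n - max b a) ((k : ℝ) / 2 ^ n - min b a) := by
      intro a b ω ha hb hω hlt
      have h1 : ((⌊2 ^ n * (ω + b)⌋₊ : ℕ) : ℝ) ≤ 2 ^ n * (ω + b) :=
        Nat.floor_le (mul_nonneg hp.le (by linarith [hω.1, hb.1]))
      have h2 : 2 ^ n * (ω + a) < ((⌊2 ^ n * (ω + b)⌋₊ : ℕ) : ℝ) :=
        (Nat.floor_lt (mul_nonneg hp.le (by linarith [hω.1, ha.1]))).1 hlt
      simp only [Set.mem_iUnion, Finset.mem_range, exists_prop]
      refine ⟨⌊2 ^ n * (ω + b)⌋₊, floor_lt ⟨by linarith [hω.1, hb.1], by linarith [hω.2, hb.2]⟩,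
        ?_, ?_⟩
      · rw [sub_le_iff_le_add, div_le_iff₀ hp]
        calc ((⌊2 ^ n * (ω + b)⌋₊ : ℕ) : ℝ) ≤ 2 ^ n * (ω + b) := h1
          _ ≤ (ω + max b a) * 2 ^ n := by
            rw [mul_comm]
            exact mul_le_mul_of_nonneg_right (by linarith [le_max_left b a]) hp.le
      · rw [le_sub_iff_add_le, le_div_iff₀ hp]
        calc (ω + min b a) * 2 ^ n ≤ 2 ^ n * (ω + a) := by
              rw [mul_comm]
              exact mul_le_mul_of_nonneg_left (by linarith [min_le_right b a]) hp.le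
          _ ≤ _ := h2.le
    rintro ω ⟨hne, hω⟩
    rcases lt_or_gt_of_ne hne with h | h
    · have := key t s ω ht hs hω h
      rwa [max_comm, min_comm] at this
    · exact key s t ω hs ht hω h
  refine (measure_mono hsub).trans ((measure_biUnion_finset_le _ _).trans ?_)
  have : ∀ k ∈ Finset.range (2 ^ (n + 1) + 1),
      volume (Icc ((k : ℝ) / 2 ^ n - max t s) ((k : ℝ) / 2 ^ n - min t s))
        ≤ ENNReal.ofReal |t - s| := by
    intro k _
    rw [Real.volume_Icc]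
    apply ENNReal.ofReal_le_ofReal
    rw [← max_sub_min_eq_abs']
    linarith
  refine (Finset.sum_le_card_nsmul _ _ _ this).trans ?_
  rw [Finset.card_range, nsmul_eq_mul]

theorem TreeData.continuous_xx (td : TreeData φ y) :
    @Continuous unitInterval (KK F) _ td.eval.base.top (xx F) := by
  letI := td.eval.base.top
  haveI := td.eval.isTopologicalDivisionRing
  rw [continuous_iff_continuousAt]
  intro t₀
  rw [ContinuousAt, ← tendsto_sub_nhds_zero_iff, td.eval.nhds_zero.tendsto_right_iff]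
  rintro ⟨U, ε⟩ ⟨hU, hε⟩
  have h1 : Tendsto (fun p : E × E => p.1 - p.2) (𝓝 0 ×ˢ 𝓝 0) (𝓝 0) := by
    have := (continuous_sub (G := E)).tendsto (0, 0)
    rwa [nhds_prod_eq, sub_zero] at this
  obtain ⟨W₁, hW₁, W₂, hW₂, hWW⟩ := mem_prod_iff.1 (h1 hU)
  obtain ⟨M, hM⟩ := td.unif (W₁ ∩ W₂) (inter_mem hW₁ hW₂)
  -- choose `t` so close that the first `M` labels agree off a small set
  let C : ℝ≥0∞ := ∑ n ∈ Finset.range M, ((2 ^ (n + 1) + 1 : ℕ) : ℝ≥0∞)
  have hC : C ≠ ⊤ := by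
    simp only [C]
    exact ENNReal.sum_ne_top.2 (fun n _ => ENNReal.natCast_ne_top _)
  have hlim : Tendsto (fun t : unitInterval => C * ENNReal.ofReal |(t : ℝ) - (t₀ : ℝ)|)
      (𝓝 t₀) (𝓝 0) := by
    have h2 : Tendsto (fun t : unitInterval => ENNReal.ofReal |(t : ℝ) - (t₀ : ℝ)|)
        (𝓝 t₀) (𝓝 0) := by
      have h3 : Continuous (fun t : unitInterval => ENNReal.ofReal |(t : ℝ) - (t₀ : ℝ)|) :=
        ENNReal.continuous_ofReal.comp (by fun_prop)
      have h4 := h3.tendsto t₀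
      simpa using h4
    have h5 := ENNReal.Tendsto.const_mul h2 (Or.inr hC)
    simpa using h5
  filter_upwards [hlim.eventually_lt_const hε] with t ht
  rw [Eval.mem_N]
  refine lt_of_le_of_lt (limSubm.le_of_ae (t := {x | pev φ y x (MvPolynomial.X t)
    - pev φ y x (MvPolynomial.X t₀) ∉ U}) ?_) (limSubm_lt ht ⟨M, fun N hN => ?_⟩)
  · filter_upwards [td.eval.sub (xx F t) (xx F t₀), td.ev_alg (MvPolynomial.X t),
      td.ev_alg (MvPolynomial.X t₀)] with x hx1 hx2 hx3 hx4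
    change td.eval.ev (xx F t - xx F t₀) x ∉ U at hx4
    change evv φ y (xx F t) x = _ at hx2
    change evv φ y (xx F t₀) x = _ at hx3
    change td.eval.ev (xx F t - xx F t₀) x = evv φ y (xx F t) x - evv φ y (xx F t₀) x at hx1
    change pev φ y x (MvPolynomial.X t) - pev φ y x (MvPolynomial.X t₀) ∉ U
    rwa [hx1, hx2, hx3] at hx4
  · have hsub : {ω : ℝ | (N, ω) ∈ {x : ℕ × ℝ | pev φ y x (MvPolynomial.X t)
        - pev φ y x (MvPolynomial.X t₀) ∉ U}} ∩ Icc 0 1 ⊆ ⋃ n ∈ Finset.range M,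
        ({ω : ℝ | ⌊2 ^ n * (ω + t)⌋₊ ≠ ⌊2 ^ n * (ω + t₀)⌋₊} ∩ Icc 0 1) := by
      rintro ω ⟨hω1, hω⟩
      by_contra hcon
      simp only [Set.mem_iUnion, Finset.mem_range, exists_prop, not_exists, not_and,
        Set.mem_inter_iff, Set.mem_ofPred_eq] at hcon
      have hcon' : ∀ n < M, ⌊2 ^ n * (ω + t)⌋₊ = ⌊2 ^ n * (ω + t₀)⌋₊ := by
        intro n hn
        by_contra hne
        exact hcon n hn hne hω
      apply hω1
      have hS : S y M (ω + t) = S y M (ω + t₀) := by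
        simp only [S]
        refine Finset.sum_congr rfl fun n hn => ?_
        rw [hcon' n (Finset.mem_range.1 hn)]
      have e1 : pev φ y (N, ω) (MvPolynomial.X t) - pev φ y (N, ω) (MvPolynomial.X t₀)
          = (S y N (ω + t) - S y M (ω + t)) - (S y N (ω + t₀) - S y M (ω + t₀)) := by
        simp only [pev, MvPolynomial.coe_eval₂Hom, MvPolynomial.eval₂_X]
        rw [hS]
        ring
      rw [e1]
      have ht2 := t.2
      have ht02 := t₀.2
      refine hWW (Set.mk_mem_prod (hM N hN _ ⟨?_, ?_⟩).1 (hM N hN _ ⟨?_, ?_⟩).2)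
      · linarith [hω.1, ht2.1]
      · linarith [hω.2, ht2.2]
      · linarith [hω.1, ht02.1]
      · linarith [hω.2, ht02.2]
    refine (measure_mono hsub).trans ((measure_biUnion_finset_le _ _).trans ?_)
    simp only [C]
    rw [Finset.sum_mul]
    exact Finset.sum_le_sum fun n _ => volume_bad n t₀ t t₀.2 t.2

/-- **Main theorem on tree-indexed series.** -/
theorem TreeData.pathGood [TopologicalSpace F] [IsTopologicalDivisionRing F]
    (td : TreeData φ y) (hφ : IsInducing φ) : PathGood F inferInstance := by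
  refine ⟨td.eval.base.top, td.eval.isTopologicalDivisionRing, ?_, td.continuous_xx⟩
  refine td.eval.isInducing_const (jj F) φ hφ limSubm_univ (fun c => ?_)
  filter_upwards [td.ev_alg (MvPolynomial.C c)] with x hx
  change evv φ y (jj F c) x = _ at hx
  change evv φ y (jj F c) x = _
  rw [hx]
  simp [pev]

end

end Pool.Agent.TopF
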