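import Pool.Agent.TopF.Meas

/-!
# Countable ultrapowers of P-space topological fields
-/

set_option autoImplicit false

open Topology Filter Set Cardinal

namespace Pool.Agent.TopF

/-- the countable ultrapower -/
abbrev UP (F : Type) : Type := Filter.Germ ((hyperfilter ℕ : Ultrafilter ℕ) : Filter ℕ) F

section

variable {F : Type} [Field F]

/-- the quotient map -/
noncomputable def qm (F : Type) [Field F] : (ℕ → F) →+* UP F := Filter.Germ.coeRingHom _

theorem qm_surj (x : UP F) : ∃ f : ℕ → F, qm F f = x := by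
  induction x using Filter.Germ.inductionOn with
  | h f => exact ⟨f, rfl⟩

theorem qm_eq {f g : ℕ → F} : qm F f = qm F g ↔
    ∀ᶠ k in ((hyperfilter ℕ : Ultrafilter ℕ) : Filter ℕ), f k = g k :=
  Filter.Germ.coe_eq

theorem qm_inv (f : ℕ → F) : (qm F f)⁻¹ = qm F (fun k => (f k)⁻¹) := rfl

/-- the star of a set -/
def star' (V : Set F) : Set (UP F) := {x | Filter.Germ.LiftPred (· ∈ V) x}

theorem mem_star' {V : Set F} {f : ℕ → F} : qm F f ∈ star' V ↔
    ∀ᶠ k in ((hyperfilter ℕ : Ultrafilter ℕ) : Filter ℕ), f k ∈ V :=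
  Iff.rfl

theorem star'_mono {V W : Set F} (h : V ⊆ W) : star' V ⊆ star' W := by
  intro x hx
  obtain ⟨f, rfl⟩ := qm_surj x
  rw [mem_star'] at hx ⊢
  exact hx.mono fun k hk => h hk

/-- the constants -/
noncomputable def cm (F : Type) [Field F] : F →+* UP F := (qm F).comp (Pi.constRingHom ℕ F)

theorem cm_apply (c : F) : cm F c = qm F (fun _ => c) := rfl

theorem cm_mem {V : Set F} {c : F} : cm F c ∈ star' V ↔ c ∈ V := by
  rw [cm_apply, mem_star']
  exact eventually_const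

variable [TopologicalSpace F] [IsTopologicalDivisionRing F]

/-- the S-topology on the ultrapower of a P-space field -/
def ultraBase (hP : CountableInterFilter (𝓝 (0 : F))) : FieldBase (UP F) where
  B := {S | ∃ V ∈ 𝓝 (0 : F), S = star' V}
  ne := ⟨_, univ, univ_mem, rfl⟩
  inter := by
    rintro _ ⟨U, hU, rfl⟩ _ ⟨V, hV, rfl⟩
    exact ⟨_, ⟨U ∩ V, inter_mem hU hV, rfl⟩, subset_inter (star'_mono inter_subset_left)
      (star'_mono inter_subset_right)⟩
  zero := by
    rintro _ ⟨U, hU, rfl⟩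
    have : (0 : UP F) = qm F 0 := (map_zero _).symm
    rw [this, mem_star']
    exact Eventually.of_forall fun k => mem_of_mem_nhds hU
  add := by
    rintro _ ⟨U, hU, rfl⟩
    have h1 : Tendsto (fun p : F × F => p.1 + p.2) (𝓝 0 ×ˢ 𝓝 0) (𝓝 0) := by
      have := (continuous_add (M := F)).tendsto (0, 0)
      rwa [nhds_prod_eq, add_zero] at this
    obtain ⟨V, hV, W, hW, hVW⟩ := mem_prod_iff.1 (h1 hU)
    refine ⟨_, ⟨V ∩ W, inter_mem hV hW, rfl⟩, fun a ha b hb => ?_⟩
    obtain ⟨f, rfl⟩ := qm_surj a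
    obtain ⟨g, rfl⟩ := qm_surj b
    rw [← map_add]
    rw [mem_star'] at ha hb ⊢
    filter_upwards [ha, hb] with k h1 h2
    exact hVW (Set.mk_mem_prod h1.1 h2.2)
  neg := by
    rintro _ ⟨U, hU, rfl⟩
    have h1 : Tendsto (fun p : F => -p) (𝓝 0) (𝓝 0) := by
      have := (continuous_neg (G := F)).tendsto 0
      rwa [neg_zero] at this
    refine ⟨_, ⟨_, h1 hU, rfl⟩, fun a ha => ?_⟩
    obtain ⟨f, rfl⟩ := qm_surj a
    rw [← map_neg]
    rw [mem_star'] at ha ⊢
    exact ha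
  mul := by
    rintro _ ⟨U, hU, rfl⟩
    have h1 : Tendsto (fun p : F × F => p.1 * p.2) (𝓝 0 ×ˢ 𝓝 0) (𝓝 0) := by
      have := (continuous_mul (M := F)).tendsto (0, 0)
      rwa [nhds_prod_eq, mul_zero] at this
    obtain ⟨V, hV, W, hW, hVW⟩ := mem_prod_iff.1 (h1 hU)
    refine ⟨_, ⟨V ∩ W, inter_mem hV hW, rfl⟩, fun a ha b hb => ?_⟩
    obtain ⟨f, rfl⟩ := qm_surj a
    obtain ⟨g, rfl⟩ := qm_surj b
    rw [← map_mul]
    rw [mem_star'] at ha hb ⊢
    filter_upwards [ha, hb] with k h1 h2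
    exact hVW (Set.mk_mem_prod h1.1 h2.2)
  smul := by
    rintro x _ ⟨U, hU, rfl⟩
    obtain ⟨f, rfl⟩ := qm_surj x
    have h1 : ∀ k : ℕ, {v : F | f k * v ∈ U} ∈ 𝓝 (0 : F) := by
      intro k
      have : Tendsto (fun v : F => f k * v) (𝓝 0) (𝓝 0) := by
        have := (continuous_const_mul (f k)).tendsto 0
        rwa [mul_zero] at this
      exact this hU
    refine ⟨_, ⟨⋂ k, {v : F | f k * v ∈ U}, countable_iInter_mem.2 h1, rfl⟩, fun a ha => ?_⟩
    obtain ⟨g, rfl⟩ := qm_surj a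
    rw [← map_mul]
    rw [mem_star'] at ha ⊢
    filter_upwards [ha] with k hk
    exact Set.mem_iInter.1 hk k
  inv := by
    rintro _ ⟨U, hU, rfl⟩
    have h1 : Tendsto (fun p : F => (1 + p)⁻¹ - 1) (𝓝 0) (𝓝 0) := by
      have h2 : Tendsto (fun p : F => 1 + p) (𝓝 0) (𝓝 1) := by
        have := (continuous_const_add (1 : F)).tendsto 0
        rwa [add_zero] at this
      have h3 : Tendsto (fun p : F => p⁻¹) (𝓝 1) (𝓝 1) := by
        have := (continuousAt_inv₀ (one_ne_zero (α := F))).tendsto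
        rwa [inv_one] at this
      have h4 := (h3.comp h2).sub_const 1
      simpa using h4
    refine ⟨_, ⟨_, h1 hU, rfl⟩, fun a ha _ => ?_⟩
    obtain ⟨f, rfl⟩ := qm_surj a
    have e1 : (1 + qm F f)⁻¹ - 1 = qm F (fun k => (1 + f k)⁻¹ - 1) := by
      rw [← map_one (qm F), ← map_add, qm_inv, ← map_sub]
      rfl
    rw [e1]
    rw [mem_star'] at ha ⊢
    exact ha

variable (hP : CountableInterFilter (𝓝 (0 : F)))

theorem ultra_mem {W : Set (UP F)} : W ∈ @nhds (UP F) (ultraBase hP).top 0 ↔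
    ∃ V ∈ 𝓝 (0 : F), star' V ⊆ W := by
  rw [(ultraBase hP).nhds_zero.mem_iff]
  constructor
  · rintro ⟨_, ⟨V, hV, rfl⟩, h⟩
    exact ⟨V, hV, h⟩
  · rintro ⟨V, hV, h⟩
    exact ⟨_, ⟨V, hV, rfl⟩, h⟩

theorem ultra_inducing : @IsInducing F (UP F) _ (ultraBase hP).top (cm F) := by
  letI := (ultraBase hP).top
  haveI := (ultraBase hP).isTopologicalDivisionRing
  apply isInducing_of_zero
  ext W
  rw [mem_comap]
  constructor
  · intro hW
    exact ⟨star' W, (ultra_mem hP).2 ⟨W, hW, Subset.rfl⟩, fun x hx => cm_mem.1 hx⟩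
  · rintro ⟨T, hT, h⟩
    obtain ⟨V, hV, hVT⟩ := (ultra_mem hP).1 hT
    exact Filter.mem_of_superset hV fun x hx => h (hVT (cm_mem.2 hx))

theorem ultra_P : CountableInterFilter (@nhds (UP F) (ultraBase hP).top 0) := by
  letI := (ultraBase hP).top
  refine ⟨fun S hS hmem => ?_⟩
  choose V hV hVs using fun s : S => (ultra_mem hP).1 (hmem s.1 s.2)
  haveI : Countable S := hS.to_subtype
  refine (ultra_mem hP).2 ⟨⋂ s, V s, countable_iInter_mem.2 hV, ?_⟩
  intro x hx s hs
  exact hVs ⟨s, hs⟩ (star'_mono (Set.iInter_subset _ _) hx)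

omit [TopologicalSpace F] [IsTopologicalDivisionRing F] in
/-- countable saturation for balls -/
theorem saturation (x : ℕ → UP F) (V : ℕ → Set F) (h : ∀ m n, m ≤ n → x n - x m ∈ star' (V m)) :
    ∃ w : UP F, ∀ m, w - x m ∈ star' (V m) := by
  classical
  choose g hg using fun n => qm_surj (x n)
  let A : ℕ → Set ℕ := fun n => {k | ∀ m ≤ n, g n k - g m k ∈ V m}
  have hA : ∀ n, ∀ᶠ k in ((hyperfilter ℕ : Ultrafilter ℕ) : Filter ℕ), k ∈ A n := by
    intro n
    have h1 : ∀ m ∈ Finset.range (n + 1),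
        ∀ᶠ k in ((hyperfilter ℕ : Ultrafilter ℕ) : Filter ℕ), g n k - g m k ∈ V m := by
      intro m hm
      have h2 := h m n (Nat.lt_succ_iff.1 (Finset.mem_range.1 hm))
      rw [← hg n, ← hg m, ← map_sub, mem_star'] at h2
      exact h2
    have h3 := (Filter.eventually_all_finset _).2 h1
    filter_upwards [h3] with k hk m hm
    exact hk m (Finset.mem_range.2 (Nat.lt_succ_of_le hm))
  let N : ℕ → ℕ := fun k => Nat.findGreatest (fun n => k ∈ A n) k
  refine ⟨qm F (fun k => g (N k) k), fun m => ?_⟩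
  rw [← hg m, ← map_sub, mem_star']
  have hge : ∀ᶠ k in ((hyperfilter ℕ : Ultrafilter ℕ) : Filter ℕ), m ≤ k := by
    have : ∀ᶠ k in (cofinite : Filter ℕ), m ≤ k := by
      rw [Nat.cofinite_eq_atTop]
      exact eventually_ge_atTop m
    exact (Filter.hyperfilter_le_cofinite (α := ℕ)) this
  filter_upwards [hA m, hge] with k hk hmk
  have h1 : m ≤ N k := Nat.le_findGreatest hmk hk
  have h2 : k ∈ A (N k) := Nat.findGreatest_spec (P := fun n => k ∈ A n) hmk hk
  exact h2 m h1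

theorem ultra_baire : @BaireSpace (UP F) (ultraBase hP).top := by
  letI := (ultraBase hP).top
  haveI := (ultraBase hP).isTopologicalDivisionRing
  refine ⟨fun f ho hd => ?_⟩
  -- basic balls
  have hball : ∀ (O : Set (UP F)) (x : UP F), IsOpen O → x ∈ O →
      ∃ V ∈ 𝓝 (0 : F), ∀ w, w - x ∈ star' V → w ∈ O := by
    intro O x hO hx
    have h1 : {w : UP F | x + w ∈ O} ∈ 𝓝 (0 : UP F) := by
      have : Tendsto (fun w : UP F => x + w) (𝓝 0) (𝓝 x) := by
        have := (continuous_const_add x).tendsto 0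
        rwa [add_zero] at this
      exact this (hO.mem_nhds hx)
    obtain ⟨V, hV, hVs⟩ := (ultra_mem hP).1 h1
    refine ⟨V, hV, fun w hw => ?_⟩
    have := hVs hw
    simpa using this
  have hnb : ∀ (x : UP F), ∀ V ∈ 𝓝 (0 : F), {w | w - x ∈ star' V} ∈ 𝓝 x := by
    intro x V hV
    have : Tendsto (fun w : UP F => w - x) (𝓝 x) (𝓝 0) := by
      have := (continuous_sub_right x).tendsto x
      rwa [sub_self] at this
    exact this ((ultra_mem hP).2 ⟨V, hV, Subset.rfl⟩)
  have hself : ∀ (x : UP F), ∀ V ∈ 𝓝 (0 : F), x - x ∈ star' V := by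
    intro x V hV
    have h : x ∈ {w | w - x ∈ star' V} := mem_of_mem_nhds (hnb x V hV)
    exact h
  rw [dense_iff_inter_open]
  rintro O hO ⟨x, hx⟩
  obtain ⟨V, hV, hVO⟩ := hball O x hO hx
  -- the step
  have hstep : ∀ (n : ℕ) (p : UP F × {V : Set F // V ∈ 𝓝 (0 : F)}),
      ∃ p' : UP F × {V : Set F // V ∈ 𝓝 (0 : F)}, ∀ w, w - p'.1 ∈ star' p'.2.1 →
        w ∈ f n ∧ w - p.1 ∈ star' p.2.1 := by
    rintro n ⟨x, V, hV⟩
    have h1 := hnb x V hV
    obtain ⟨O', hO's, hO', hxO'⟩ := mem_nhds_iff.1 h1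
    obtain ⟨x', hx'⟩ := (hd n).inter_open_nonempty O' hO' ⟨x, hxO'⟩
    obtain ⟨V', hV', hV's⟩ := hball (O' ∩ f n) x' (hO'.inter (ho n)) hx'
    exact ⟨(x', ⟨V', hV'⟩), fun w hw => ⟨(hV's w hw).2, hO's (hV's w hw).1⟩⟩
  choose nx hnx using hstep
  let p : ℕ → UP F × {V : Set F // V ∈ 𝓝 (0 : F)} := fun n =>
    Nat.rec (x, ⟨V, hV⟩) (fun n p => nx n p) n
  have hp : ∀ n, p (n + 1) = nx n (p n) := fun n => rfl
  have hsub : ∀ m n, m ≤ n → ∀ w, w - (p n).1 ∈ star' (p n).2.1 → w - (p m).1 ∈ star' (p m).2.1 := by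
    intro m n hmn
    induction n, hmn using Nat.le_induction with
    | base => exact fun w hw => hw
    | succ n _ ih =>
      intro w hw
      rw [hp] at hw
      exact ih w (hnx n (p n) w hw).2
  obtain ⟨w, hw⟩ := saturation (fun n => (p n).1) (fun n => (p n).2.1)
    (fun m n hmn => hsub m n hmn _ (hself _ _ (p n).2.2))
  refine ⟨w, hVO w (hw 0), ?_⟩
  rw [Set.mem_iInter]
  intro n
  have := hw (n + 1)
  simp only [hp] at this
  exact (hnx n (p n) w this).1

end

/-- the ultrapower of an infinite field has at least continuum many elements -/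
theorem continuum_le_ultra (F : Type) [Field F] [Infinite F] : 𝔠 ≤ #(UP F) := by
  let ι := Infinite.natEmbedding F
  let enc : (ℕ → Bool) → ℕ → F := fun x n => ι (Encodable.encode (List.ofFn (fun i : Fin n => x i)))
  have hinj : Function.Injective (fun x : ℕ → Bool => qm F (enc x)) := by
    intro x y hxy
    by_contra hne
    obtain ⟨m, hm⟩ := Function.ne_iff.1 hne
    rw [qm_eq] at hxy
    have hge : ∀ᶠ k in ((hyperfilter ℕ : Ultrafilter ℕ) : Filter ℕ), m < k := by
      have : ∀ᶠ k in (cofinite : Filter ℕ), m < k := by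
        rw [Nat.cofinite_eq_atTop]
        exact eventually_gt_atTop m
      exact (Filter.hyperfilter_le_cofinite (α := ℕ)) this
    obtain ⟨k, hk, hmk⟩ := (hxy.and hge).exists
    have h1 := Encodable.encode_injective (ι.injective hk)
    have h2 := List.ofFn_injective h1
    have h3 := congrFun h2 ⟨m, hmk⟩
    exact hm h3
  have h1 := Cardinal.mk_le_of_injective hinj
  have h2 : #(ℕ → Bool) = 𝔠 := by
    simp
  rwa [h2] at h1

end Pool.Agent.TopF
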