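import Pool.Agent.TopF.Ultra

/-!
# The transcendence degree of a countable ultrapower
-/

set_option autoImplicit false

open Filter Set Cardinal

namespace Pool.Agent.TopF

section

variable {F : Type} [Field F]

theorem isAlgebraic_iff_poly {k : Type} [Field k] [Algebra k F] (A : Subalgebra k F) (a : F) :
    IsAlgebraic A a ↔ ∃ p : Polynomial F, p ≠ 0 ∧ (∀ n, p.coeff n ∈ A) ∧ p.eval a = 0 := by
  constructor
  · rintro ⟨q, hq0, hq⟩
    refine ⟨q.map (algebraMap A F), ?_, ?_, ?_⟩
    · rwa [Ne, Polynomial.map_eq_zero_iff]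
      exact Subtype.val_injective
    · intro n
      rw [Polynomial.coeff_map]
      exact (q.coeff n).2
    · rwa [Polynomial.eval_map_algebraMap]
  · rintro ⟨p, hp0, hpc, hp⟩
    have h1 : p ∈ Polynomial.lifts (algebraMap A F) := by
      rw [Polynomial.lifts_iff_coeff_lifts]
      intro n
      exact ⟨⟨p.coeff n, hpc n⟩, rfl⟩
    obtain ⟨q, hq⟩ := (Polynomial.mem_lifts p).1 h1
    refine ⟨q, ?_, ?_⟩
    · rintro rfl
      rw [Polynomial.map_zero] at hq
      exact hp0 hq.symm
    · rw [← hq, Polynomial.eval_map_algebraMap] at hp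
      exact hp

theorem exists_finite_mem {k ι : Type} [Field k] [Algebra k F] (x : ι → F) (b : F)
    (hb : b ∈ Algebra.adjoin k (Set.range x)) :
    ∃ s : Finset ι, b ∈ Algebra.adjoin k (x '' (s : Set ι)) := by
  classical
  induction hb using Algebra.adjoin_induction with
  | mem b hb =>
    obtain ⟨i, rfl⟩ := hb
    exact ⟨{i}, Algebra.subset_adjoin ⟨i, by simp, rfl⟩⟩
  | algebraMap r => exact ⟨∅, Subalgebra.algebraMap_mem _ _⟩
  | add b c _ _ hb hc =>
    obtain ⟨s, hs⟩ := hb
    obtain ⟨t, ht⟩ := hc
    refine ⟨s ∪ t, add_mem (Algebra.adjoin_mono (Set.image_mono ?_) hs)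
      (Algebra.adjoin_mono (Set.image_mono ?_) ht)⟩
    · rw [Finset.coe_union]; exact subset_union_left
    · rw [Finset.coe_union]; exact subset_union_right
  | mul b c _ _ hb hc =>
    obtain ⟨s, hs⟩ := hb
    obtain ⟨t, ht⟩ := hc
    refine ⟨s ∪ t, mul_mem (Algebra.adjoin_mono (Set.image_mono ?_) hs)
      (Algebra.adjoin_mono (Set.image_mono ?_) ht)⟩
    · rw [Finset.coe_union]; exact subset_union_left
    · rw [Finset.coe_union]; exact subset_union_right

/-- An element algebraic over `k[x_i : i]` is algebraic over `k[x_i : i ∈ s]` for some finite `s`. -/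
theorem exists_finite_algebraic {k ι : Type} [Field k] [Algebra k F] (x : ι → F) (a : F)
    (ha : IsAlgebraic (Algebra.adjoin k (Set.range x)) a) :
    ∃ s : Finset ι, IsAlgebraic (Algebra.adjoin k (x '' (s : Set ι))) a := by
  classical
  rw [isAlgebraic_iff_poly] at ha
  obtain ⟨p, hp0, hpc, hp⟩ := ha
  choose sf hsf using fun n => exists_finite_mem x (p.coeff n) (hpc n)
  refine ⟨p.support.biUnion sf, ?_⟩
  rw [isAlgebraic_iff_poly]
  refine ⟨p, hp0, fun n => ?_, hp⟩
  by_cases hn : n ∈ p.support
  · refine Algebra.adjoin_mono (Set.image_mono ?_) (hsf n)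
    intro i hi
    exact Finset.mem_coe.2 (Finset.mem_biUnion.2 ⟨n, hn, hi⟩)
  · rw [Polynomial.notMem_support_iff.1 hn]
    exact zero_mem _

/-- evaluation of polynomials in the ultrapower is coordinatewise -/
theorem eval₂_qm {ι : Type} (G : ι → ℕ → F) (P : MvPolynomial ι F) :
    MvPolynomial.eval₂ (cm F) (fun i => qm F (G i)) P
      = qm F (fun n => MvPolynomial.eval (fun i => G i n) P) := by
  have h1 := MvPolynomial.hom_eval₂ P (Pi.constRingHom ℕ F) (qm F) G
  have h2 : (MvPolynomial.eval₂ (Pi.constRingHom ℕ F) G P : ℕ → F)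
      = fun n => MvPolynomial.eval (fun i => G i n) P := by
    funext n
    have h3 := MvPolynomial.hom_eval₂ P (Pi.constRingHom ℕ F) (Pi.evalRingHom (fun _ : ℕ => F) n) G
    exact h3
  rw [h2] at h1
  exact h1.symm

theorem algInd_ultra {k ι : Type} [Field k] [Algebra k F] (x : ι → F)
    (hx : IsTranscendenceBasis k x) (e : ι × ℕ → ι) (he : Function.Injective e) :
    letI : Algebra F (UP F) := (cm F).toAlgebra
    AlgebraicIndependent F (fun i => qm F (fun n => x (e (i, n)))) := by
  classical
  letI : Algebra F (UP F) := (cm F).toAlgebra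
  change AlgebraicIndependent F (fun i => qm F (fun n => x (e (i, n))))
  rw [algebraicIndependent_iff]
  intro P hP
  by_contra hne
  rw [MvPolynomial.aeval_def] at hP
  have hP1 : qm F (fun n => MvPolynomial.eval (fun i => x (e (i, n))) P) = qm F 0 := by
    rw [← eval₂_qm (fun i n => x (e (i, n))) P, map_zero]
    exact hP
  rw [qm_eq] at hP1
  -- the finite set of indices needed for the coefficients
  have halg : ∀ c : F, ∃ s : Finset ι, IsAlgebraic (Algebra.adjoin k (x '' (s : Set ι))) c := by
    intro c
    have := hx.isAlgebraic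
    exact exists_finite_algebraic x c (Algebra.IsAlgebraic.isAlgebraic c)
  choose sf hsf using halg
  let s : Finset ι := P.support.biUnion (fun α => sf (P.coeff α))
  have hs : ∀ α, IsAlgebraic (Algebra.adjoin k (x '' (s : Set ι))) (P.coeff α) := by
    intro α
    by_cases hα : α ∈ P.support
    · have h1 := hsf (P.coeff α)
      rw [isAlgebraic_iff_poly] at h1 ⊢
      obtain ⟨p, hp0, hpc, hp⟩ := h1
      refine ⟨p, hp0, fun n => Algebra.adjoin_mono (Set.image_mono ?_) (hpc n), hp⟩
      intro i hi
      exact Finset.mem_coe.2 (Finset.mem_biUnion.2 ⟨α, hα, hi⟩)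
    · rw [MvPolynomial.notMem_support_iff.1 hα]
      exact isAlgebraic_zero
  -- a good coordinate
  have hbad : {n : ℕ | ∃ i, e (i, n) ∈ s}.Finite := by
    have h1 : (e ⁻¹' (s : Set ι)).Finite := (Finset.finite_toSet s).preimage he.injOn
    refine (h1.image Prod.snd).subset ?_
    rintro n ⟨i, hi⟩
    exact ⟨(i, n), hi, rfl⟩
  have hgood : ∀ᶠ n in ((hyperfilter ℕ : Ultrafilter ℕ) : Filter ℕ), ¬ ∃ i, e (i, n) ∈ s := by
    have : ∀ᶠ n in (cofinite : Filter ℕ), ¬ ∃ i, e (i, n) ∈ s := by
      rw [Filter.eventually_cofinite]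
      simpa using hbad
    exact (Filter.hyperfilter_le_cofinite (α := ℕ)) this
  obtain ⟨n, hn0, hn⟩ := (hP1.and hgood).exists
  push Not at hn
  simp only [Pi.zero_apply] at hn0
  -- independence over the small ring
  let j : ι → ι := fun i => e (i, n)
  have hj : Function.Injective j := by
    intro a b hab
    have := he hab
    exact (Prod.mk.inj this).1
  let A := Algebra.adjoin k (x '' (s : Set ι))
  have hdisj : Disjoint (s : Set ι) (Set.range j) := by
    rw [Set.disjoint_right]
    rintro _ ⟨i, rfl⟩
    exact hn i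
  have h1 : AlgebraicIndependent A (fun i : Set.range j => x i) := hx.1.adjoin_of_disjoint hdisj
  have h2 : AlgebraicIndependent A (fun i : ι => x (j i)) :=
    h1.comp (fun i => ⟨j i, i, rfl⟩) (fun a b hab => hj (Subtype.ext_iff.1 hab))
  have h3 : AlgebraicIndependent (Subalgebra.algebraicClosure A F) (fun i : ι => x (j i)) :=
    h2.subalgebraAlgebraicClosure
  -- lift the polynomial
  have h4 : P ∈ Set.range (MvPolynomial.map (σ := ι) (algebraMap (Subalgebra.algebraicClosure A F) F)) := by
    rw [MvPolynomial.mem_range_map_iff_coeffs_subset]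
    rintro c hc
    obtain ⟨α, _, rfl⟩ := MvPolynomial.mem_coeffs_iff.1 hc
    exact ⟨⟨P.coeff α, hs α⟩, rfl⟩
  obtain ⟨Q, hQ⟩ := h4
  have hQ' : MvPolynomial.map (algebraMap (Subalgebra.algebraicClosure A F) F) Q = P := hQ
  have h5 : MvPolynomial.aeval (fun i : ι => x (j i)) Q = 0 := by
    have h6 : MvPolynomial.aeval (fun i : ι => x (j i)) Q
        = MvPolynomial.eval (fun i => x (e (i, n))) P := by
      rw [← hQ', MvPolynomial.eval_map, MvPolynomial.aeval_def]
    rw [h6, hn0]
  have h7 := (algebraicIndependent_iff.1 h3) Q h5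
  apply hne
  rw [← hQ', h7, map_zero]

/-- the transcendence degree of the ultrapower over the field is as large as possible -/
theorem ultra_trdeg (F : Type) [Field F] [Infinite F] :
    letI : Algebra F (UP F) := (cm F).toAlgebra
    #(UP F) ≤ Algebra.trdeg F (UP F) := by
  classical
  letI : Algebra F (UP F) := (cm F).toAlgebra
  change #(UP F) ≤ Algebra.trdeg F (UP F)
  have hc : 𝔠 ≤ #(UP F) := continuum_le_ultra F
  have hunc : ℵ₀ < #(UP F) := lt_of_lt_of_le aleph0_lt_continuum hc
  have hle : #F ≤ #(UP F) := mk_le_of_injective (cm F).injective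
  rcases hle.lt_or_eq with hlt | heq
  · -- small ground field
    obtain ⟨ι, x, hx⟩ := exists_isTranscendenceBasis' F (UP F)
    by_cases hι : Nonempty ι
    · have h1 := hx.lift_cardinalMk_eq_max_lift
      simp only [lift_id] at h1
      have h2 : #ι = #(UP F) := by
        rcases le_total (#F ⊔ #ι) ℵ₀ with h | h
        · rw [sup_eq_right.2 h] at h1
          exact absurd h1 hunc.ne'
        · rw [sup_eq_left.2 h] at h1
          rcases le_total #F #ι with h' | h'
          · rw [sup_eq_right.2 h'] at h1
            exact h1.symm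
          · rw [sup_eq_left.2 h'] at h1
            exact absurd h1 hlt.ne'
      rw [← h2]
      exact hx.1.cardinalMk_le_trdeg
    · rw [not_nonempty_iff] at hι
      have halg : Algebra.IsAlgebraic F (UP F) := (hx.isEmpty_iff_isAlgebraic).1 hι
      have h1 := Algebra.IsAlgebraic.cardinalMk_le_max F (UP F)
      exfalso
      rcases le_total #F ℵ₀ with h | h
      · rw [max_eq_right h] at h1
        exact absurd h1 (not_le.2 hunc)
      · rw [max_eq_left h] at h1
        exact absurd h1 (not_le.2 hlt)
  · -- large ground field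
    obtain ⟨ι, x, hx⟩ := exists_isTranscendenceBasis' (⊥ : Subfield F) F
    have hbot : #(⊥ : Subfield F) ≤ ℵ₀ := by
      have h1 := Subfield.cardinalMk_closure_le_max (∅ : Set F)
      rw [Subfield.closure_empty] at h1
      simpa using h1
    have hFunc : ℵ₀ < #F := by rwa [heq]
    have hι : Nonempty ι := by
      by_contra hι
      rw [not_nonempty_iff] at hι
      have halg : Algebra.IsAlgebraic (⊥ : Subfield F) F := (hx.isEmpty_iff_isAlgebraic).1 hι
      have h1 := Algebra.IsAlgebraic.cardinalMk_le_max (⊥ : Subfield F) F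
      rw [max_eq_right hbot] at h1
      exact absurd h1 (not_le.2 hFunc)
    have h1 := hx.lift_cardinalMk_eq_max_lift
    simp only [lift_id] at h1
    have h2 : #ι = #F := by
      rcases le_total (#(⊥ : Subfield F) ⊔ #ι) ℵ₀ with h | h
      · rw [sup_eq_right.2 h] at h1
        exact absurd h1 hFunc.ne'
      · rw [sup_eq_left.2 h] at h1
        rcases le_total #(⊥ : Subfield F) #ι with h' | h'
        · rw [sup_eq_right.2 h'] at h1
          exact h1.symm
        · rw [sup_eq_left.2 h'] at h1
          exact absurd (h1.le.trans hbot) (not_le.2 hFunc)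
    have h3 : #(ι × ℕ) = #ι := by
      rw [mk_prod, lift_id, lift_id, mk_nat]
      exact mul_aleph0_eq (by rw [h2]; exact hFunc.le)
    obtain ⟨e⟩ := Cardinal.eq.1 h3
    have h4 := algInd_ultra x hx e e.injective
    have h5 := h4.cardinalMk_le_trdeg
    rw [h2, heq] at h5
    exact h5

end

end Pool.Agent.TopF
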